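import Mathlib

/-!
# From the conservation laws of one chain to the inequalities
-/

namespace Pool.Agent.Helper45.SQP

/-- The local equations of a chain; the fields are the flows on the arcs. -/
structure Flow (L : ℕ) (B ω η : ℝ) (v : ℕ → ℝ) (ub : ℕ → ℝ)
    (α γ C α' δ β β' r7 r8 r9 r10 r11 : ℕ → ℝ) (N N' : ℝ) : Prop where
  a0 : r7 0 = C 0 + β 0
  a : ∀ i, 0 < i → i < L → r7 i = C i + α (i - 1) + γ (i - 1)
  aL : N = α (L - 1) + γ (L - 1)
  a' : ∀ i < L, C i = α' i + δ i + r8 i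
  w : ∀ i < L, α i + α' i = r9 i
  w' : ∀ i ≤ L, β i + β' i = r10 i
  t0 : r11 0 + γ 0 = β' 0 + β 1
  t : ∀ i, 0 < i → i < L → r11 i + δ (i - 1) + γ i = β' i + β (i + 1)
  tL : r11 L + δ (L - 1) = β' L + N'
  γ0 : ∀ i < L, 0 ≤ γ i
  δ0 : ∀ i < L, 0 ≤ δ i
  α'0 : ∀ i < L, 0 ≤ α' i
  β'0 : ∀ i ≤ L, 0 ≤ β' i
  h7 : ∀ i < L, |r7 i - B * ω| ≤ η
  h8 : ∀ i < L, |r8 i - (B - v i) * ω| ≤ η
  h9 : ∀ i < L, |r9 i - v i * ω| ≤ η
  h10 : ∀ i ≤ L, |r10 i - ub i * ω| ≤ η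
  h11 : ∀ i ≤ L, |r11 i - ub i * ω| ≤ η
  hub : ∀ i < L, ub (i + 1) = v i

variable {L : ℕ} {B ω η : ℝ} {v ub : ℕ → ℝ}
  {α γ C α' δ β β' r7 r8 r9 r10 r11 : ℕ → ℝ} {N N' : ℝ}

/-- the flows through the successive levels -/
def lev (α γ β : ℕ → ℝ) (i : ℕ) : ℝ := if i = 0 then β 0 else α (i - 1) + γ (i - 1)

/-- the flows leaving the successive levels -/
def lout (δ β : ℕ → ℝ) (i : ℕ) : ℝ := if i = 0 then β 0 else β i + δ (i - 1)

theorem Flow.cost (H : Flow L B ω η v ub α γ C α' δ β β' r7 r8 r9 r10 r11 N N') (i : ℕ)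
    (hi : i < L) : |C i - (B * ω - lev α γ β i)| ≤ η := by
  have h7 := H.h7 i hi
  rcases Nat.eq_zero_or_pos i with h | h
  · subst h
    have := H.a0
    rw [this] at h7
    simp only [lev, ↓reduceIte]
    convert h7 using 2
    ring
  · have := H.a i h hi
    rw [this] at h7
    simp only [lev, h.ne', ↓reduceIte]
    convert h7 using 2
    ring

theorem Flow.alpha (H : Flow L B ω η v ub α γ C α' δ β β' r7 r8 r9 r10 r11 N N') (i : ℕ)
    (hi : i < L) : |α i - (lev α γ β i + δ i)| ≤ 3 * η := by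
  have h1 := abs_le.1 (H.cost i hi)
  have h2 := H.a' i hi
  have h3 := abs_le.1 (H.h8 i hi)
  have h4 := abs_le.1 (H.h9 i hi)
  have h5 := H.w i hi
  rw [abs_le]
  constructor <;> nlinarith [h1.1, h1.2, h3.1, h3.2, h4.1, h4.2]

theorem Flow.beta (H : Flow L B ω η v ub α γ C α' δ β β' r7 r8 r9 r10 r11 N N') (i : ℕ)
    (hi : i < L) : |β (i + 1) - (γ i + lout δ β i)| ≤ 2 * η := by
  have h1 := abs_le.1 (H.h10 i hi.le)
  have h2 := abs_le.1 (H.h11 i hi.le)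
  have h3 := H.w' i hi.le
  rcases Nat.eq_zero_or_pos i with h | h
  · subst h
    have h4 := H.t0
    simp only [lout, ↓reduceIte, zero_add]
    rw [abs_le]
    constructor <;> linarith [h1.1, h1.2, h2.1, h2.2]
  · have h4 := H.t i h hi
    simp only [lout, h.ne', ↓reduceIte]
    rw [abs_le]
    constructor <;> linarith [h1.1, h1.2, h2.1, h2.2]

theorem Flow.out_lev (H : Flow L B ω η v ub α γ C α' δ β β' r7 r8 r9 r10 r11 N N') (i : ℕ)
    (hi : i ≤ L) : |lout δ β i - lev α γ β i| ≤ 5 * i * η := by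
  induction i with
  | zero => simp [lout, lev]
  | succ i ih =>
    have ih := abs_le.1 (ih (by omega))
    have h1 := abs_le.1 (H.alpha i (by omega))
    have h2 := abs_le.1 (H.beta i (by omega))
    have e1 : lout δ β (i + 1) = β (i + 1) + δ i := by simp [lout]
    have e2 : lev α γ β (i + 1) = α i + γ i := by simp [lev]
    rw [e1, e2, abs_le]
    push_cast
    constructor <;> linarith [h1.1, h1.2, h2.1, h2.2, ih.1, ih.2]

theorem Flow.eta_nonneg (H : Flow L B ω η v ub α γ C α' δ β β' r7 r8 r9 r10 r11 N N') :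
    0 ≤ η := (abs_nonneg _).trans (H.h10 0 (Nat.zero_le _))

theorem Flow.ineq0 (H : Flow L B ω η v ub α γ C α' δ β β' r7 r8 r9 r10 r11 N N') :
    lev α γ β 0 ≤ ub 0 * ω + (5 * L + 5) * η := by
  have h1 := abs_le.1 (H.h10 0 (Nat.zero_le _))
  have h2 := H.w' 0 (Nat.zero_le _)
  have h3 := H.β'0 0 (Nat.zero_le _)
  have hη := H.eta_nonneg
  have hL : 0 ≤ (5 * (L : ℝ) + 4) * η := by positivity
  simp only [lev, ↓reduceIte]
  linarith [h1.2]

theorem Flow.ineq1 (H : Flow L B ω η v ub α γ C α' δ β β' r7 r8 r9 r10 r11 N N') (i : ℕ)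
    (hi : i < L) : lev α γ β i ≤ lev α γ β (i + 1) + (5 * L + 5) * η := by
  have h1 := abs_le.1 (H.alpha i hi)
  have h2 := H.γ0 i hi
  have h3 := H.δ0 i hi
  have hη := H.eta_nonneg
  have hL : 0 ≤ (5 * (L : ℝ) + 2) * η := by positivity
  have e2 : lev α γ β (i + 1) = α i + γ i := by simp [lev]
  rw [e2]
  linarith [h1.1]

theorem Flow.ineq2 (H : Flow L B ω η v ub α γ C α' δ β β' r7 r8 r9 r10 r11 N N') (i : ℕ)
    (hi : i < L) : lev α γ β i + lev α γ β (i + 1) ≤ 2 * v i * ω + (5 * L + 5) * η := by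
  have h1 := abs_le.1 (H.alpha i hi)
  have h2 := abs_le.1 (H.beta i hi)
  have h3 := abs_le.1 (H.out_lev i hi.le)
  have h4 := abs_le.1 (H.h9 i hi)
  have h5 := abs_le.1 (H.h10 (i + 1) (by omega))
  have h6 := H.w i hi
  have h7 := H.w' (i + 1) (by omega)
  have h8 := H.α'0 i hi
  have h9 := H.β'0 (i + 1) (by omega)
  have e2 : lev α γ β (i + 1) = α i + γ i := by simp [lev]
  rw [H.hub i hi] at h5
  have hη := H.eta_nonneg
  have h10 := H.δ0 i hi
  have hiL : (i : ℝ) + 1 ≤ L := by exact_mod_cast hi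
  have h11 : 5 * (i : ℝ) * η + 5 * η ≤ 5 * L * η := by nlinarith
  rw [e2]
  linarith [h1.1, h1.2, h2.1, h2.2, h3.1, h3.2, h4.1, h4.2, h5.1, h5.2]

theorem Flow.top (hL : 1 ≤ L)
    (H : Flow L B ω η v ub α γ C α' δ β β' r7 r8 r9 r10 r11 N N') : lev α γ β L = N := by
  have : L ≠ 0 := by omega
  simp [lev, this, H.aL]

theorem Flow.next (hL : 1 ≤ L)
    (H : Flow L B ω η v ub α γ C α' δ β β' r7 r8 r9 r10 r11 N N') :
    |N' - N| ≤ (5 * L + 5) * η := by
  have h1 := abs_le.1 (H.out_lev L le_rfl)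
  have h2 := abs_le.1 (H.h10 L le_rfl)
  have h3 := abs_le.1 (H.h11 L le_rfl)
  have h4 := H.tL
  have h5 := H.w' L le_rfl
  have hη := H.eta_nonneg
  rw [H.top hL] at h1
  have : L ≠ 0 := by omega
  simp only [lout, this, ↓reduceIte] at h1
  rw [abs_le]
  constructor <;> linarith [h1.1, h1.2, h2.1, h2.2, h3.1, h3.2]

end Pool.Agent.Helper45.SQP
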