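import Mathlib
import Pool.Agent.Helper81.Complexity

/-!
# Separable indefinite quadratic integer programs: definitions

An instance asks to minimise `∑_{i ∈ C} q_i x_i² - ∑_{i ∈ V} q_i x_i² + hᵀ x` subject to
`W x ≤ w`, `x ∈ ℤⁿ`.
-/

namespace Pool.Agent.Helper45.SQP

open Pool.Agent.Helper81.CC

/-- An instance: `m` constraints, `n` variables, the integer data `W`, `w`, `h`, the disjoint sets
`C` (convex variables) and `V` (concave variables), and positive integers `q_i`, `i ∈ C ∪ V`. -/
structure Inst where
  /-- number of constraints -/
  m : ℕ
  /-- number of variables -/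
  n : ℕ
  m_pos : 1 ≤ m
  n_pos : 1 ≤ n
  /-- constraint matrix -/
  W : Matrix (Fin m) (Fin n) ℤ
  /-- right hand side -/
  w : Fin m → ℤ
  /-- linear part of the objective -/
  h : Fin n → ℤ
  /-- variables with convex cost -/
  C : Finset (Fin n)
  /-- variables with concave cost -/
  V : Finset (Fin n)
  disj : Disjoint C V
  /-- the coefficients of the squares -/
  q : Fin n → ℕ
  q_pos : ∀ i ∈ C ∪ V, 0 < q i

namespace Inst

variable (I : Inst)

/-- The objective function. -/
def f (x : Fin I.n → ℤ) : ℤ :=
  ∑ i ∈ I.C, (I.q i : ℤ) * x i ^ 2 - ∑ i ∈ I.V, (I.q i : ℤ) * x i ^ 2 + ∑ i, I.h i * x i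

/-- The feasible points: the integer points of `W x ≤ w`. -/
def feasible : Set (Fin I.n → ℤ) := {x | ∀ i, (I.W.mulVec x) i ≤ I.w i}

/-- `x` is an optimal solution. -/
def IsOptimal (x : Fin I.n → ℤ) : Prop := x ∈ I.feasible ∧ ∀ y ∈ I.feasible, I.f x ≤ I.f y

/-- The objective is unbounded below on the feasible set. -/
def UnboundedBelow : Prop := ∀ M : ℤ, ∃ x ∈ I.feasible, I.f x < M

/-- `x` is an `ε`-approximate solution: it is feasible, the instance has an optimal solution `y`,
and `f x - f y ≤ ε (M - f y)` for every upper bound `M` of `f` on the feasible set, i.e. for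
`M = f_max` if `f_max < ∞`, and no condition if `f_max = ∞`. -/
def IsApprox (ε : ℝ) (x : Fin I.n → ℤ) : Prop :=
  x ∈ I.feasible ∧ ∃ y, I.IsOptimal y ∧
    ∀ M : ℝ, (∀ z ∈ I.feasible, (I.f z : ℝ) ≤ M) → (I.f x : ℝ) - I.f y ≤ ε * (M - I.f y)

end Inst

/-- The possible answers of an algorithm. -/
inductive Output where
  /-- the report that the instance is infeasible -/
  | infeasible : Output
  /-- the report that the instance is unbounded below -/
  | unbounded : Output
  /-- a point, given by the list of its coordinates -/
  | point (x : List ℤ) : Output

/-- `o` is a correct answer to the instance `I`, with accuracy `ε`. -/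
def Correct (ε : ℝ) (I : Inst) : Output → Prop
  | .infeasible => I.feasible = ∅
  | .unbounded => I.UnboundedBelow
  | .point l => ∃ x : Fin I.n → ℤ, l = List.ofFn x ∧ I.IsApprox ε x

/-! ### Binary encodings -/

/-- Integers are coded by a sign and the binary digits of the absolute value. -/
def intCode (z : ℤ) : Bool × List Bool := (decide (z < 0), Nat.bits z.natAbs)

/-- The type of the codes of instances: the rows `(W_i, w_i)`, and the columns
`(h_j, j ∈ C, j ∈ V, q_j)`, all numbers being in binary. -/
abbrev Code : Type :=
  List (List (Bool × List Bool) × (Bool × List Bool)) ×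
    List ((Bool × List Bool) × (Bool × Bool) × List Bool)

/-- The code of an instance. -/
def Inst.code (I : Inst) : Code :=
  (List.ofFn fun i => (List.ofFn fun j => intCode (I.W i j), intCode (I.w i)),
    List.ofFn fun j => (intCode (I.h j), (decide (j ∈ I.C), decide (j ∈ I.V)), Nat.bits (I.q j)))

/-- The encoding of instances by bit strings. -/
def Inst.enc (I : Inst) : List Bool := encOf Code I.code

/-- The code of an answer. -/
def Output.code : Output → Option (Option (List (Bool × List Bool)))
  | .infeasible => none
  | .unbounded => some none
  | .point l => some (some (l.map intCode))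

/-- The encoding of answers by bit strings. -/
def Output.enc (o : Output) : List Bool :=
  encOf (Option (Option (List (Bool × List Bool)))) o.code

/-- The instances of the question: `W` is totally unimodular, and there are at most `p` concave
variables. -/
abbrev TUInst (p : ℕ) : Type := {I : Inst // I.W.IsTotallyUnimodular ∧ I.V.card ≤ p}

/-- The question: there is a polynomial-time algorithm which, for every instance with `W` totally
unimodular and at most `p` concave variables, returns an `ε`-approximate solution or correctly
reports infeasibility or unboundedness. -/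
def HasAlgorithm (p : ℕ) (ε : ℝ) : Prop :=
  ∃ A : TUInst p → Output,
    PolyTimeComputable (fun I : TUInst p => I.1.enc) Output.enc A ∧
      ∀ I : TUInst p, Correct ε I.1 (A I)

end Pool.Agent.Helper45.SQP
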