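import Pool.Agent.Helper45.SQP.Core3

/-!
# The lower bound for the objective when no integer of the range is admissible
-/

namespace Pool.Agent.Helper45.SQP

open Finset

theorem sq_lower {B ω η y C : ℝ} (hB : 0 ≤ B) (hω : 0 ≤ ω)
    (h : |C - (B * ω - y)| ≤ η) :
    B ^ 2 * ω ^ 2 - 2 * B * ω * y - 2 * B * ω * η ≤ C ^ 2 := by
  rw [abs_le] at h
  have h1 : (B * ω) * (C - (B * ω - y) + η) ≥ 0 :=
    mul_nonneg (mul_nonneg hB hω) (by linarith [h.1])
  nlinarith [sq_nonneg (C - B * ω)]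

theorem no_core {K L R : ℕ} (hK : 0 < K) {m e : ℕ → ℤ}
    (he : ∀ k < K, 0 < e k) (hem : ∀ k < K, e k < m k)
    (hR : ∀ k < K, (R : ℤ) + 1 ≤ 2 ^ L * m k) (hL : 1 ≤ L)
    (hno : ∀ N : ℤ, 0 ≤ N → N ≤ R → ∃ k < K, ¬ Adm (m k) (e k) N)
    {B H Z a : ℝ} (hB : 0 ≤ B) (ha : 1 ≤ a)
    {ω η N : ℝ} (hω : 0 ≤ ω) (hη : 0 ≤ η) (hN : 0 ≤ N) (hNR : N ≤ R * ω + 2 * η)
    {y C : ℕ → ℕ → ℝ} {CN : ℝ}
    (h0 : ∀ k < K, y k 0 ≤ e k * ω + a * η)
    (h1 : ∀ k < K, ∀ i < L, y k i ≤ y k (i + 1) + a * η)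
    (h2 : ∀ k < K, ∀ i < L, y k i + y k (i + 1) ≤ 2 ^ (i + 1) * m k * ω + a * η)
    (h3 : ∀ k < K, |y k L - N| ≤ a * η)
    (h4 : ∀ k < K, ∀ i < L, |C k i - (B * ω - y k i)| ≤ η)
    (h5 : |CN - (B * ω + N)| ≤ η)
    {SC cN : ℝ} (hSC : SC = ∑ k ∈ range K, ∑ i ∈ range L, cc (m k) i)
    (hcN : cN = ∑ k ∈ range K, 2 ^ L * (m k : ℝ))
    (hZ8 : 8 ≤ Z) (hZ : 16 * (3 * a * cN + SC + cN) ≤ Z)
    (hH : ((SC + cN) * B ^ 2 + B / 4) * Z ^ 2 + 2 * B * K * (R * Z + 2) ^ 2 ≤ H) :
    0 ≤ H * η ^ 2 + (∑ k ∈ range K, ∑ i ∈ range L, cc (m k) i * C k i ^ 2) + cN * CN ^ 2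
      - 2 * B * K * N ^ 2
      - ((SC + cN) * B ^ 2 - 2 * B * ∑ k ∈ range K, (e k : ℝ) ^ 2 + B / 4) * ω ^ 2 := by
  have hmpos : ∀ k < K, (0 : ℝ) < m k := fun k hk => by
    exact_mod_cast (he k hk).trans (hem k hk)
  have hcc : ∀ k < K, ∀ i, 0 ≤ cc (m k) i := fun k hk i => by
    unfold cc
    have := hmpos k hk
    positivity
  have hSC0 : 0 ≤ SC := by
    rw [hSC]
    exact sum_nonneg fun k hk => sum_nonneg fun i _ => hcc k (mem_range.1 hk) i
  have hcN0 : 0 ≤ cN := by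
    rw [hcN]
    exact sum_nonneg fun k hk => by
      have := hmpos k (mem_range.1 hk)
      positivity
  have hCsum : 0 ≤ ∑ k ∈ range K, ∑ i ∈ range L, cc (m k) i * C k i ^ 2 :=
    sum_nonneg fun k hk => sum_nonneg fun i _ =>
      mul_nonneg (hcc k (mem_range.1 hk) i) (sq_nonneg _)
  have hesum : 0 ≤ ∑ k ∈ range K, (e k : ℝ) ^ 2 := sum_nonneg fun k _ => sq_nonneg _
  have hKR : (0 : ℝ) < K := by exact_mod_cast hK
  have hRR : (0 : ℝ) ≤ R := Nat.cast_nonneg R
  by_cases hcase : ω < Z * η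
  · -- the rigid arcs are far from their values
    have hη' : 0 < η := by
      by_contra h
      push Not at h
      have : η = 0 := le_antisymm h hη
      rw [this, mul_zero] at hcase
      linarith
    have e1 : N ^ 2 ≤ (R * Z + 2) ^ 2 * η ^ 2 := by
      have h6 : N ≤ (R * Z + 2) * η := by
        have := mul_le_mul_of_nonneg_left hcase.le hRR
        nlinarith
      have h7 : N ^ 2 ≤ ((R * Z + 2) * η) ^ 2 := pow_le_pow_left₀ hN h6 2
      rwa [mul_pow] at h7
    have e2 : ω ^ 2 ≤ Z ^ 2 * η ^ 2 := by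
      have := pow_le_pow_left₀ hω hcase.le 2
      rwa [mul_pow] at this
    have e3 : ((SC + cN) * B ^ 2 + B / 4) * ω ^ 2 ≤
        ((SC + cN) * B ^ 2 + B / 4) * (Z ^ 2 * η ^ 2) :=
      mul_le_mul_of_nonneg_left e2 (by positivity)
    have e4 : 2 * B * K * N ^ 2 ≤ 2 * B * K * ((R * Z + 2) ^ 2 * η ^ 2) :=
      mul_le_mul_of_nonneg_left e1 (by positivity)
    have e5 := mul_le_mul_of_nonneg_right hH (sq_nonneg η)
    have e6 : 0 ≤ cN * CN ^ 2 := by positivity
    have e7 : 0 ≤ 2 * B * (∑ k ∈ range K, (e k : ℝ) ^ 2) * ω ^ 2 := by positivity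
    nlinarith
  · push Not at hcase
    rcases hω.eq_or_lt with hω0 | hω0
    · -- everything vanishes
      have hη0 : η = 0 := by
        rw [← hω0] at hcase
        nlinarith
      have hN0 : N = 0 := by
        rw [← hω0, hη0] at hNR
        linarith
      rw [← hω0, hη0, hN0]
      have e6 : 0 ≤ cN * CN ^ 2 := by positivity
      nlinarith
    · -- the main case
      have hν0 : 0 ≤ N / ω := div_nonneg hN hω
      have hν1 : N / ω ≤ R + 1 / 4 := by
        rw [div_le_iff₀ hω0]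
        nlinarith
      obtain ⟨j, hj, hsum⟩ := total_lower hK he hem hR hno hν0 hν1
      have hNω : N / ω * ω = N := div_mul_cancel₀ _ hω0.ne'
      -- the bound for one chain
      have hchain : ∀ k ∈ range K, (2 * j k * m k - 2 ^ L * m k) * N -
          ((j k * m k) ^ 2 - hw (m k) (e k) (j k) ^ 2 + e k ^ 2) * ω - 3 * (2 ^ L * m k) * (a * η)
          ≤ -∑ i ∈ range L, cc (m k) i * y k i := by
        intro k hk
        have hk' := mem_range.1 hk
        have haη : 0 ≤ a * η := by positivity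
        have h6 := chain_lower (hmpos k hk') haη (h0 k hk') (h1 k hk') (h2 k hk') L hL le_rfl (j k)
          (hj k hk')
        have h7 := abs_le.1 (h3 k hk')
        have h8 : (j k : ℝ) ≤ 2 ^ L := by exact_mod_cast hj k hk'
        have h9 : (0 : ℝ) ≤ j k := Nat.cast_nonneg _
        have hm := hmpos k hk'
        have h10 : (j k : ℝ) * m k ≤ 2 ^ L * m k := mul_le_mul_of_nonneg_right h8 hm.le
        have h11 : 0 ≤ (j k : ℝ) * m k := by positivity
        have h12 : (2 * j k * m k - 2 ^ L * m k) * N - (2 ^ L * m k) * (a * η) ≤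
            (2 * j k * m k - 2 ^ L * m k) * y k L := by
          have h13 : 0 ≤ (2 ^ L * (m k : ℝ) - (2 * j k * m k - 2 ^ L * m k)) *
            (a * η - (y k L - N)) := mul_nonneg (by linarith) (by linarith)
          have h14 : 0 ≤ (2 ^ L * (m k : ℝ) + (2 * j k * m k - 2 ^ L * m k)) *
            (a * η + (y k L - N)) := mul_nonneg (by linarith) (by linarith)
          linarith
        linarith
      have hS := sum_le_sum hchain
      -- the squares
      have hsq : ∑ k ∈ range K, ∑ i ∈ range L, cc (m k) i *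
          (B ^ 2 * ω ^ 2 - 2 * B * ω * y k i - 2 * B * ω * η) ≤
          ∑ k ∈ range K, ∑ i ∈ range L, cc (m k) i * C k i ^ 2 :=
        sum_le_sum fun k hk => sum_le_sum fun i hi =>
          mul_le_mul_of_nonneg_left (sq_lower hB hω (h4 k (mem_range.1 hk) i (mem_range.1 hi)))
            (hcc k (mem_range.1 hk) i)
      have hsq' : ∑ k ∈ range K, ∑ i ∈ range L, cc (m k) i *
          (B ^ 2 * ω ^ 2 - 2 * B * ω * y k i - 2 * B * ω * η) =
          SC * (B ^ 2 * ω ^ 2 - 2 * B * ω * η) +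
          2 * B * ω * ∑ k ∈ range K, -∑ i ∈ range L, cc (m k) i * y k i := by
        rw [hSC, sum_mul, mul_sum, ← sum_add_distrib]
        refine sum_congr rfl fun k _ => ?_
        rw [sum_mul, mul_neg, mul_sum, ← sub_eq_add_neg, ← sum_sub_distrib]
        exact sum_congr rfl fun i _ => by ring
      have hCN : B ^ 2 * ω ^ 2 + 2 * B * ω * N - 2 * B * ω * η ≤ CN ^ 2 := by
        have h6 : |CN - (B * ω - (-N))| ≤ η := by
          rw [sub_neg_eq_add]
          exact h5
        have := sq_lower hB hω h6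
        linarith
      have hCN' := mul_le_mul_of_nonneg_left hCN hcN0
      -- collecting the terms
      have hsplit : ∑ k ∈ range K, ((2 * j k * m k - 2 ^ L * m k) * N -
          ((j k * m k) ^ 2 - hw (m k) (e k) (j k) ^ 2 + e k ^ 2) * ω - 3 * (2 ^ L * m k) * (a * η))
          = ∑ k ∈ range K, (2 * j k * m k * N - ((j k * m k) ^ 2 - hw (m k) (e k) (j k) ^ 2) * ω) -
            cN * N - (∑ k ∈ range K, (e k : ℝ) ^ 2) * ω - 3 * cN * (a * η) := by
        rw [hcN, sum_mul, sum_mul, mul_sum, sum_mul, ← sum_sub_distrib, ← sum_sub_distrib,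
          ← sum_sub_distrib]
        exact sum_congr rfl fun k _ => by ring
      have hfin : ω * ∑ k ∈ range K,
          (2 * j k * m k * N - ((j k * m k) ^ 2 - hw (m k) (e k) (j k) ^ 2) * ω) - K * N ^ 2 =
          ω ^ 2 * ∑ k ∈ range K, (hw (m k) (e k) (j k) ^ 2 - (N / ω - j k * m k) ^ 2) := by
        have h6 : (K : ℝ) * N ^ 2 = ∑ k ∈ range K, N ^ 2 := by
          rw [sum_const, card_range, nsmul_eq_mul]
        rw [h6, mul_sum, mul_sum, ← sum_sub_distrib]
        refine sum_congr rfl fun k _ => ?_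
        have h7 : N ^ 2 = (N / ω) ^ 2 * ω ^ 2 := by rw [← mul_pow, hNω]
        calc ω * (2 * j k * m k * N - ((j k * m k) ^ 2 - hw (m k) (e k) (j k) ^ 2) * ω) - N ^ 2
            = ω * (2 * j k * m k * (N / ω * ω) -
              ((j k * m k) ^ 2 - hw (m k) (e k) (j k) ^ 2) * ω) - (N / ω) ^ 2 * ω ^ 2 := by
              rw [hNω, ← h7]
          _ = _ := by ring
      rw [hsplit] at hS
      set P : ℝ := ∑ k ∈ range K,
        (2 * j k * m k * N - ((j k * m k) ^ 2 - hw (m k) (e k) (j k) ^ 2) * ω) with hP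
      set Q : ℝ := ∑ k ∈ range K, -∑ i ∈ range L, cc (m k) i * y k i with hQ
      set T : ℝ := ∑ k ∈ range K, (hw (m k) (e k) (j k) ^ 2 - (N / ω - j k * m k) ^ 2) with hT
      set E : ℝ := ∑ k ∈ range K, (e k : ℝ) ^ 2 with hE
      have hBω : 0 ≤ 2 * B * ω := by positivity
      have h20 := mul_le_mul_of_nonneg_left hS hBω
      have h21 := mul_le_mul_of_nonneg_left hsum (by positivity : 0 ≤ 2 * B * ω ^ 2)
      have h22 : 2 * B * (ω * P - K * N ^ 2) = 2 * B * (ω ^ 2 * T) := by rw [hfin]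
      have h23 : 16 * (3 * a * cN + SC + cN) * η ≤ ω := by
        have := mul_le_mul_of_nonneg_right hZ hη
        linarith
      have h24 := mul_le_mul_of_nonneg_left h23 (by positivity : 0 ≤ 2 * B * ω)
      have h25 : 0 ≤ H * η ^ 2 := by
        have : 0 ≤ H := le_trans (by positivity) hH
        positivity
      nlinarith

end Pool.Agent.Helper45.SQP
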