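import Pool.Agent.Helper45.SQP.Net2
import Pool.Agent.Helper45.SQP.NoCore
import Pool.Agent.Helper45.SQP.ChainFlow
import Pool.Agent.Helper45.SQP.Defs

/-!
# The instance: parameters and objective
-/

namespace Pool.Agent.Helper45.SQP

open Finset

/-- The parameters of the construction. -/
structure Par where
  /-- number of chains -/
  K : ℕ
  /-- length of the chains -/
  L : ℕ
  /-- the range -/
  R : ℕ
  /-- half the moduli -/
  m : ℕ → ℕ
  /-- the residues -/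
  e : ℕ → ℕ

namespace Par

variable (P : Par)

/-- costs -/
def c (k i : ℕ) : ℕ := 2 ^ (max i 1) * P.m k

/-- sum of the costs -/
def SC : ℕ := ∑ k ∈ range P.K, ∑ i ∈ range P.L, P.c k i

/-- cost of the main arc -/
def cN : ℕ := ∑ k ∈ range P.K, 2 ^ P.L * P.m k

/-- a bound -/
def G1 : ℕ := ∑ k ∈ range P.K, ∑ i ∈ range P.L, P.c k i * (2 ^ P.L * P.m k) ^ 2 +
  P.cN * P.R ^ 2 + 1

/-- the big value -/
def B : ℕ := 8 * P.G1

/-- a bound -/
def Z : ℕ := 8 + 16 * (3 * ((P.K + 1) * (5 * P.L + 5)) * P.cN + P.SC + P.cN)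

/-- the penalty -/
def H : ℕ := ((P.SC + P.cN) * P.B ^ 2 + 2 * P.G1) * P.Z ^ 2 +
  2 * P.B * P.K * (P.R * P.Z + 2) ^ 2

/-- values of the upper bounds -/
def ub (k i : ℕ) : ℕ := if i = 0 then P.e k else 2 ^ (i - 1) * P.m k

/-- the values of the rigid arcs -/
def bv (a : Nm) : ℕ :=
  if a.1 = 7 then P.B
  else if a.1 = 8 then P.B - 2 ^ a.2.2 * P.m a.2.1
  else if a.1 = 9 then 2 ^ a.2.2 * P.m a.2.1
  else if a.1 = 10 then P.ub a.2.1 a.2.2
  else if a.1 = 11 then P.ub a.2.1 a.2.2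
  else if a.2.1 = 1 then P.B + P.R
  else if a.2.1 = 3 then P.B
  else P.R

/-- total value of the rigid arcs leaving the source -/
def M0 : ℕ := ((SL P.K P.L).map P.bv).sum

/-- the product of the values of the rigid arcs -/
def D : ℕ := ((SL P.K P.L ++ TL P.K P.L).map P.bv).prod

/-- the coefficient of the return arc -/
def q0 : ℕ := 2 * P.H * P.D * P.M0 + (P.SC + P.cN) * P.B ^ 2 + 2 * P.G1 -
  2 * P.B * ∑ k ∈ range P.K, P.e k ^ 2

/-- is the arc rigid? -/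
def isR (a : Nm) : Bool :=
  if a.1 = 7 then true else if a.1 = 8 then true else if a.1 = 9 then true
  else if a.1 = 10 then true else if a.1 = 11 then true
  else if a.1 = 13 then (if a.2.1 = 1 then true else if a.2.1 = 3 then true
    else if a.2.1 = 5 then true else false)
  else false

/-- is the arc convex? -/
def isC (a : Nm) : Bool :=
  if isR a = true then true else if a.1 = 2 then true
  else if a.1 = 13 then (if a.2.1 = 2 then true else false) else false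

/-- is the arc concave? -/
def isV (a : Nm) : Bool :=
  if a.1 = 12 then (if a.2.1 = 0 then true else false)
  else if a.1 = 13 then (if a.2.1 = 0 then true else false) else false

/-- the coefficients of the squares -/
def q (a : Nm) : ℕ :=
  if a.1 = 2 then P.M0 ^ 2 * P.c a.2.1 a.2.2
  else if a.1 = 12 then P.M0 ^ 2 * (2 * P.B * P.K)
  else if a.1 = 13 then (if a.2.1 = 0 then P.q0 else if a.2.1 = 2 then P.M0 ^ 2 * P.cN
    else P.M0 ^ 2 * P.H * (P.D / P.bv a))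
  else P.M0 ^ 2 * P.H * (P.D / P.bv a)

/-- the signed coefficient -/
def cur (a : Nm) : ℤ := if isC a = true then P.q a else if isV a = true then -P.q a else 0

/-- The assumptions on the parameters. -/
structure Good : Prop where
  K_pos : 0 < P.K
  L_pos : 1 ≤ P.L
  R_pos : 0 < P.R
  e_pos : ∀ k < P.K, 0 < P.e k
  e_lt : ∀ k < P.K, P.e k < P.m k
  R_le : ∀ k < P.K, P.R + 1 ≤ 2 ^ P.L * P.m k

end Par

theorem sum_names {M : Type*} [AddCommMonoid M] (K L : ℕ) (g : Nm → M) :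
    ((names K L).map g).sum =
      ∑ k ∈ range K, ∑ i ∈ range L, g (0, k, i) + ∑ k ∈ range K, ∑ i ∈ range L, g (1, k, i) +
      ∑ k ∈ range K, ∑ i ∈ range L, g (2, k, i) + ∑ k ∈ range K, ∑ i ∈ range L, g (3, k, i) +
      ∑ k ∈ range K, ∑ i ∈ range L, g (4, k, i) +
      ∑ k ∈ range K, ∑ i ∈ range (L + 1), g (5, k, i) +
      ∑ k ∈ range K, ∑ i ∈ range (L + 1), g (6, k, i) +
      ∑ k ∈ range K, ∑ i ∈ range L, g (7, k, i) + ∑ k ∈ range K, ∑ i ∈ range L, g (8, k, i) +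
      ∑ k ∈ range K, ∑ i ∈ range L, g (9, k, i) +
      ∑ k ∈ range K, ∑ i ∈ range (L + 1), g (10, k, i) +
      ∑ k ∈ range K, ∑ i ∈ range (L + 1), g (11, k, i) +
      ∑ k ∈ range (K + 1), g (12, k, 0) + ∑ k ∈ range 6, g (13, k, 0) := by
  simp only [names, List.map_append, List.sum_append, sum_fam, sum_range_one]

theorem sum_SL {M : Type*} [AddCommMonoid M] (K L : ℕ) (g : Nm → M) :
    ((SL K L).map g).sum =
      ∑ k ∈ range K, ∑ i ∈ range L, g (7, k, i) +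
      ∑ k ∈ range K, ∑ i ∈ range (L + 1), g (11, k, i) + g (13, 1, 0) := by
  simp only [SL, List.map_append, List.sum_append, sum_fam, List.map_cons, List.map_nil,
    List.sum_cons, List.sum_nil, add_zero]

theorem sum_TL {M : Type*} [AddCommMonoid M] (K L : ℕ) (g : Nm → M) :
    ((TL K L).map g).sum =
      ∑ k ∈ range K, ∑ i ∈ range L, g (8, k, i) + ∑ k ∈ range K, ∑ i ∈ range L, g (9, k, i) +
      ∑ k ∈ range K, ∑ i ∈ range (L + 1), g (10, k, i) + (g (13, 3, 0) + g (13, 5, 0)) := by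
  simp only [TL, List.map_append, List.sum_append, sum_fam, List.map_cons, List.map_nil,
    List.sum_cons, List.sum_nil, add_zero]

theorem mem_rig {K L : ℕ} {a : Nm} (h : a ∈ SL K L ++ TL K L) :
    (a.1 = 7 ∧ a.2.1 < K ∧ a.2.2 < L) ∨ (a.1 = 8 ∧ a.2.1 < K ∧ a.2.2 < L) ∨
    (a.1 = 9 ∧ a.2.1 < K ∧ a.2.2 < L) ∨ (a.1 = 10 ∧ a.2.1 < K ∧ a.2.2 < L + 1) ∨
    (a.1 = 11 ∧ a.2.1 < K ∧ a.2.2 < L + 1) ∨ a = (13, 1, 0) ∨ a = (13, 3, 0) ∨
    a = (13, 5, 0) := by
  simp only [SL, TL, List.mem_append, mem_fam, List.mem_cons, List.not_mem_nil, or_false] at h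
  tauto

namespace Par

variable {P : Par}

theorem two_G1 : 0 < P.G1 := by unfold G1; omega

theorem B_pos : 0 < P.B := by unfold B; have := two_G1 (P := P); omega

theorem Good.m_pos (hP : P.Good) {k : ℕ} (hk : k < P.K) : 0 < P.m k :=
  (hP.e_pos k hk).trans (hP.e_lt k hk)

theorem Good.pow_le_B (hP : P.Good) {k : ℕ} (hk : k < P.K) : 2 ^ P.L * P.m k < P.B := by
  have h1 : P.c k 0 * (2 ^ P.L * P.m k) ^ 2 ≤ P.G1 := by
    unfold G1
    have h2 : P.c k 0 * (2 ^ P.L * P.m k) ^ 2 ≤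
        ∑ i ∈ range P.L, P.c k i * (2 ^ P.L * P.m k) ^ 2 :=
      single_le_sum (f := fun i => P.c k i * (2 ^ P.L * P.m k) ^ 2) (fun _ _ => Nat.zero_le _)
        (mem_range.2 hP.L_pos)
    have h3 : ∑ i ∈ range P.L, P.c k i * (2 ^ P.L * P.m k) ^ 2 ≤
        ∑ k ∈ range P.K, ∑ i ∈ range P.L, P.c k i * (2 ^ P.L * P.m k) ^ 2 :=
      single_le_sum (f := fun k => ∑ i ∈ range P.L, P.c k i * (2 ^ P.L * P.m k) ^ 2)
        (fun _ _ => Nat.zero_le _) (mem_range.2 hk)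
    omega
  have h2 : 1 ≤ P.c k 0 := by
    have := hP.m_pos hk
    unfold c
    exact Nat.mul_pos (by positivity) this
  have h3 : 1 ≤ 2 ^ P.L * P.m k := Nat.mul_pos (by positivity) (hP.m_pos hk)
  have h4 : 2 ^ P.L * P.m k ≤ (2 ^ P.L * P.m k) ^ 2 := by nlinarith
  have h5 : (2 ^ P.L * P.m k) ^ 2 ≤ P.c k 0 * (2 ^ P.L * P.m k) ^ 2 :=
    Nat.le_mul_of_pos_left _ h2
  have h6 : P.B = 8 * P.G1 := rfl
  omega

theorem Good.pow_lt_B (hP : P.Good) {k i : ℕ} (hk : k < P.K) (hi : i < P.L) :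
    2 ^ i * P.m k < P.B := by
  refine lt_of_le_of_lt ?_ (hP.pow_le_B hk)
  exact Nat.mul_le_mul_right _ (Nat.pow_le_pow_right (by norm_num) hi.le)

theorem Good.ub_pos (hP : P.Good) {k : ℕ} (hk : k < P.K) (i : ℕ) : 0 < P.ub k i := by
  unfold ub
  split_ifs
  · exact hP.e_pos k hk
  · exact Nat.mul_pos (by positivity) (hP.m_pos hk)

theorem Good.bv_pos (hP : P.Good) {a : Nm} (ha : a ∈ SL P.K P.L ++ TL P.K P.L) : 0 < P.bv a := by
  obtain ⟨x, y, z⟩ := a
  have h := mem_rig ha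
  have hB := B_pos (P := P)
  simp only [Prod.mk.injEq] at h
  rcases h with ⟨rfl, h1, h2⟩ | ⟨rfl, h1, h2⟩ | ⟨rfl, h1, h2⟩ | ⟨rfl, h1, h2⟩ | ⟨rfl, h1, h2⟩ |
    ⟨rfl, rfl, rfl⟩ | ⟨rfl, rfl, rfl⟩ | ⟨rfl, rfl, rfl⟩
  · simp only [bv, if_true]; exact hB
  · have := hP.pow_lt_B h1 h2
    simp [bv]; omega
  · have := hP.m_pos h1
    simp [bv]; exact this
  · simp [bv]; exact hP.ub_pos h1 z
  · simp [bv]; exact hP.ub_pos h1 z
  · simp [bv]; omega
  · simp [bv]; omega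
  · simp [bv]; exact hP.R_pos

theorem Good.D_pos (hP : P.Good) : 0 < P.D := by
  unfold D
  apply List.prod_pos
  intro x hx
  rw [List.mem_map] at hx
  obtain ⟨a, ha, rfl⟩ := hx
  exact hP.bv_pos ha

theorem bv_dvd {a : Nm} (ha : a ∈ SL P.K P.L ++ TL P.K P.L) : P.bv a ∣ P.D :=
  List.dvd_prod (List.mem_map_of_mem ha)

theorem Good.M0_pos (hP : P.Good) : 0 < P.M0 := by
  unfold M0
  have h : (13, 1, 0) ∈ SL P.K P.L := by simp [SL]
  have h1 : P.bv (13, 1, 0) ≤ ((SL P.K P.L).map P.bv).sum :=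
    List.single_le_sum (fun _ _ => Nat.zero_le _) _ (List.mem_map_of_mem h)
  have h2 := hP.bv_pos (a := (13, 1, 0)) (List.mem_append_left _ h)
  omega

theorem sum_ub (k : ℕ) : ∀ L : ℕ, ∑ i ∈ range (L + 1), P.ub k i = P.e k + (2 ^ L - 1) * P.m k := by
  intro L
  induction L with
  | zero => simp [ub]
  | succ L ih =>
    rw [sum_range_succ, ih]
    have h1 : P.ub k (L + 1) = 2 ^ L * P.m k := by simp [ub]
    have h2 : 1 ≤ 2 ^ L := Nat.one_le_two_pow
    have h3 : 2 ^ (L + 1) - 1 = (2 ^ L - 1) + 2 ^ L := by rw [pow_succ]; omega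
    rw [h1, h3]
    ring

theorem Good.sum_TL_bv (hP : P.Good) : ((TL P.K P.L).map P.bv).sum = P.M0 := by
  unfold M0
  rw [sum_TL, sum_SL]
  have e7 : ∀ k i, P.bv (7, k, i) = P.B := fun k i => by simp [bv]
  have e8 : ∀ k i, P.bv (8, k, i) = P.B - 2 ^ i * P.m k := fun k i => by simp [bv]
  have e9 : ∀ k i, P.bv (9, k, i) = 2 ^ i * P.m k := fun k i => by simp [bv]
  have e10 : ∀ k i, P.bv (10, k, i) = P.ub k i := fun k i => by simp [bv]
  have e11 : ∀ k i, P.bv (11, k, i) = P.ub k i := fun k i => by simp [bv]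
  have e1 : P.bv (13, 1, 0) = P.B + P.R := by simp [bv]
  have e3 : P.bv (13, 3, 0) = P.B := by simp [bv]
  have e5 : P.bv (13, 5, 0) = P.R := by simp [bv]
  simp only [e7, e8, e9, e10, e11, e1, e3, e5]
  have h1 : ∑ k ∈ range P.K, ∑ i ∈ range P.L, (P.B - 2 ^ i * P.m k) +
      ∑ k ∈ range P.K, ∑ i ∈ range P.L, 2 ^ i * P.m k = ∑ k ∈ range P.K, ∑ i ∈ range P.L, P.B := by
    rw [← sum_add_distrib]
    refine sum_congr rfl fun k hk => ?_
    rw [← sum_add_distrib]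
    refine sum_congr rfl fun i hi => ?_
    have := hP.pow_lt_B (mem_range.1 hk) (mem_range.1 hi)
    omega
  omega

theorem Good.two_BE_le (hP : P.Good) :
    2 * P.B * ∑ k ∈ range P.K, P.e k ^ 2 ≤ (P.SC + P.cN) * P.B ^ 2 := by
  have h1 : 2 * ∑ k ∈ range P.K, P.e k ^ 2 ≤ P.cN * P.B := by
    unfold cN
    rw [mul_sum, sum_mul]
    refine sum_le_sum fun k hk => ?_
    have hk' := mem_range.1 hk
    have h2 := hP.e_lt k hk'
    have h3 := (hP.pow_le_B hk').le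
    have h4 : 2 ≤ 2 ^ P.L := by
      calc 2 = 2 ^ 1 := rfl
        _ ≤ 2 ^ P.L := Nat.pow_le_pow_right (by norm_num) hP.L_pos
    have h5 : 2 * P.m k ≤ 2 ^ P.L * P.m k := Nat.mul_le_mul_right _ h4
    have h6 : P.e k ≤ P.B := by omega
    calc 2 * P.e k ^ 2 = (2 * P.e k) * P.e k := by ring
      _ ≤ (2 ^ P.L * P.m k) * P.B := Nat.mul_le_mul (by omega) h6
  calc 2 * P.B * ∑ k ∈ range P.K, P.e k ^ 2 = P.B * (2 * ∑ k ∈ range P.K, P.e k ^ 2) := by ring
    _ ≤ P.B * (P.cN * P.B) := Nat.mul_le_mul_left _ h1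
    _ = P.cN * P.B ^ 2 := by ring
    _ ≤ (P.SC + P.cN) * P.B ^ 2 := Nat.mul_le_mul_right _ (by omega)

theorem Good.q0_cast (hP : P.Good) : (P.q0 : ℝ) = 2 * P.H * P.D * P.M0 +
    (P.SC + P.cN) * P.B ^ 2 + 2 * P.G1 - 2 * P.B * ∑ k ∈ range P.K, (P.e k : ℝ) ^ 2 := by
  unfold q0
  have := hP.two_BE_le
  rw [Nat.cast_sub (by omega)]
  push_cast
  ring

theorem Good.q0_pos (hP : P.Good) : 0 < P.q0 := by
  unfold q0
  have := hP.two_BE_le
  have h2 := two_G1 (P := P)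
  omega

theorem H_pos : 0 < P.H := by
  unfold H
  have h2 := two_G1 (P := P)
  have h3 : 0 < P.Z := by unfold Z; omega
  have : 0 < ((P.SC + P.cN) * P.B ^ 2 + 2 * P.G1) * P.Z ^ 2 :=
    Nat.mul_pos (by omega) (by positivity)
  omega

theorem Good.q_pos (hP : P.Good) {a : Nm} (ha : a ∈ names P.K P.L)
    (h : isC a = true ∨ isV a = true) : 0 < P.q a := by
  have hM := hP.M0_pos
  have hH := H_pos (P := P)
  have hD := hP.D_pos
  have hdiv : a ∈ SL P.K P.L ++ TL P.K P.L → 0 < P.M0 ^ 2 * P.H * (P.D / P.bv a) := by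
    intro h
    have h1 := Nat.le_of_dvd hD (bv_dvd h)
    exact Nat.mul_pos (Nat.mul_pos (by positivity) hH) (Nat.div_pos h1 (hP.bv_pos h))
  have hcN : 0 < P.cN := by
    unfold cN
    exact sum_pos (fun k hk => Nat.mul_pos (by positivity) (hP.m_pos (mem_range.1 hk)))
      ⟨0, mem_range.2 hP.K_pos⟩
  obtain ⟨x, y, z⟩ := a
  rw [mem_names] at ha
  simp only at ha
  rcases ha with ⟨rfl, h1, h2⟩ | ⟨rfl, h1, h2⟩ | ⟨rfl, h1, h2⟩ | ⟨rfl, h1, h2⟩ | ⟨rfl, h1, h2⟩ |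
    ⟨rfl, h1, h2⟩ | ⟨rfl, h1, h2⟩ | ⟨rfl, h1, h2⟩ | ⟨rfl, h1, h2⟩ | ⟨rfl, h1, h2⟩ | ⟨rfl, h1, h2⟩ |
    ⟨rfl, h1, h2⟩ | ⟨rfl, h1, h2⟩ | ⟨rfl, h1, h2⟩
  · simp [isC, isV, isR] at h
  · simp [isC, isV, isR] at h
  · have := hP.m_pos h1
    simp only [q, if_true, c]
    positivity
  · simp [isC, isV, isR] at h
  · simp [isC, isV, isR] at h
  · simp [isC, isV, isR] at h
  · simp [isC, isV, isR] at h
  · simp only [q]
    exact hdiv (by simp [SL, h1, h2])
  · simp only [q]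
    exact hdiv (by simp [TL, h1, h2])
  · simp only [q]
    exact hdiv (by simp [TL, h1, h2])
  · simp only [q]
    exact hdiv (by simp [TL, h1, h2])
  · simp only [q]
    exact hdiv (by simp [SL, h1, h2])
  · have hB := B_pos (P := P)
    have hK := hP.K_pos
    have e1 : P.q (12, y, z) = P.M0 ^ 2 * (2 * P.B * P.K) := by simp [q]
    rw [e1]
    positivity
  · have hz : z = 0 := by omega
    subst hz
    interval_cases y
    · have e1 : P.q (13, 0, 0) = P.q0 := by simp [q]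
      rw [e1]
      exact hP.q0_pos
    · have e1 : P.q (13, 1, 0) = P.M0 ^ 2 * P.H * (P.D / P.bv (13, 1, 0)) := by simp [q]
      rw [e1]
      exact hdiv (by simp [SL])
    · have e1 : P.q (13, 2, 0) = P.M0 ^ 2 * P.cN := by simp [q]
      rw [e1]
      positivity
    · have e1 : P.q (13, 3, 0) = P.M0 ^ 2 * P.H * (P.D / P.bv (13, 3, 0)) := by simp [q]
      rw [e1]
      exact hdiv (by simp [TL])
    · simp [isC, isV, isR] at h
    · have e1 : P.q (13, 5, 0) = P.M0 ^ 2 * P.H * (P.D / P.bv (13, 5, 0)) := by simp [q]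
      rw [e1]
      exact hdiv (by simp [TL])

end Par

end Pool.Agent.Helper45.SQP
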