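import Pool.Agent.Helper45.SQP.NT
import Pool.Agent.Helper45.SQP.Par
import Pool.Agent.Helper59.Bin

/-!
# The parameters in binary
-/

namespace Pool.Agent.Helper45.SQP

open Finset Pool.Agent.Bin Pool.Agent.Helper81.CC

/-- the bound for the number of bits of the sum of the weights -/
def sW (ws : List BN) : ℕ := (BN.sum ws).size

/-- the weights -/
def wW (ws : List BN) (k : ℕ) : ℕ := (ws.getD k ⟨0⟩).val

/-- factorial times length times a power of two -/
def nQB (ws : List BN) : BN :=
  BN.prod ((List.range ws.length).map fun j => BN.ofNat (j + 1)) * BN.ofNat ws.length *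
    BN.pow2 (sW ws + 2)

/-- the moduli -/
def nmB (ws : List BN) (k : ℕ) : BN := BN.ofNat 1 + BN.ofNat (k + 1) * nQB ws

/-- the product of the moduli -/
def nMB (ws : List BN) : BN := BN.prod ((List.range ws.length).map (nmB ws))

/-- the product of the other moduli -/
def nOB (ws : List BN) (k : ℕ) : BN := nMB ws / nmB ws k

/-- the multipliers -/
def ngB (ws : List BN) (k : ℕ) : BN := nmB ws k * ws.getD k ⟨0⟩ / BN.pow2 (sW ws)

/-- the residues -/
def nrB (ws : List BN) (k : ℕ) : BN :=
  (BN.ofNat 2 * (ngB ws k * nOB ws k)) % (BN.ofNat 2 * nmB ws k)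

/-- the parameters `e` -/
def neB (ws : List BN) (k : ℕ) : BN :=
  if nrB ws k ≤ BN.ofNat 2 * nmB ws k - nrB ws k then nrB ws k
  else BN.ofNat 2 * nmB ws k - nrB ws k

/-- the range -/
def nRB (ws : List BN) : BN := nMB ws / BN.pow2 (sW ws)

/-- the length of the chains -/
def lenB (ws : List BN) : ℕ := (nMB ws).size

theorem val_sum_range (n : ℕ) (f : ℕ → BN) :
    (BN.sum ((List.range n).map f)).val = ∑ i ∈ range n, (f i).val := by
  rw [BN.val_sum, List.map_map, ← List.sum_toFinset _ List.nodup_range, List.toFinset_range]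
  rfl

theorem val_prod_range (n : ℕ) (f : ℕ → BN) :
    (BN.prod ((List.range n).map f)).val = ∏ i ∈ range n, (f i).val := by
  rw [BN.val_prod, List.map_map, ← List.prod_toFinset _ List.nodup_range, List.toFinset_range]
  rfl

theorem val_nQB (ws : List BN) : (nQB ws).val = nQ ws.length (sW ws) := by
  unfold nQB nQ
  rw [BN.val_mul, BN.val_mul, val_prod_range, BN.val_ofNat, BN.val_pow2]
  simp only [BN.val_ofNat]
  rw [prod_range_add_one_eq_factorial]

theorem val_nmB (ws : List BN) (k : ℕ) : (nmB ws k).val = nm ws.length (sW ws) k := by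
  unfold nmB nm
  rw [BN.val_add, BN.val_mul, BN.val_ofNat, BN.val_ofNat, val_nQB]

theorem val_nMB (ws : List BN) : (nMB ws).val = nM ws.length (sW ws) := by
  unfold nMB nM
  rw [val_prod_range]
  exact prod_congr rfl fun k _ => val_nmB ws k

theorem val_nOB (ws : List BN) {k : ℕ} (hk : k < ws.length) :
    (nOB ws k).val = nO ws.length (sW ws) k := by
  unfold nOB
  rw [BN.val_div, val_nMB, val_nmB, ← nm_mul_nO hk]
  exact Nat.mul_div_cancel_left _ (nm_pos k)

theorem val_ngB (ws : List BN) (k : ℕ) : (ngB ws k).val = ng ws.length (sW ws) (wW ws) k := by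
  unfold ngB ng wW
  rw [BN.val_div, BN.val_mul, val_nmB, BN.val_pow2]

theorem val_nrB (ws : List BN) {k : ℕ} (hk : k < ws.length) :
    (nrB ws k).val = nr ws.length (sW ws) (wW ws) k := by
  unfold nrB nr
  rw [BN.val_mod, BN.val_mul, BN.val_mul, BN.val_mul, BN.val_ofNat, val_ngB, val_nOB ws hk,
    val_nmB]

theorem val_neB (ws : List BN) {k : ℕ} (hk : k < ws.length) :
    (neB ws k).val = ne ws.length (sW ws) (wW ws) k := by
  unfold neB ne
  have h1 : (BN.ofNat 2 * nmB ws k - nrB ws k).val =
      2 * nm ws.length (sW ws) k - nr ws.length (sW ws) (wW ws) k := by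
    rw [BN.val_sub, BN.val_mul, val_nrB ws hk, BN.val_ofNat, val_nmB]
  by_cases h : nrB ws k ≤ BN.ofNat 2 * nmB ws k - nrB ws k
  · rw [if_pos h]
    rw [BN.le_def, h1, val_nrB ws hk] at h
    rw [val_nrB ws hk, min_eq_left h]
  · rw [if_neg h]
    rw [BN.le_def, h1, val_nrB ws hk] at h
    rw [h1, min_eq_right (by omega)]

theorem val_nRB (ws : List BN) : (nRB ws).val = nR ws.length (sW ws) := by
  unfold nRB nR
  rw [BN.val_div, val_nMB, BN.val_pow2]

/-- The parameters of a list of weights. -/
def parOf (ws : List BN) : Par where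
  K := ws.length
  L := lenB ws
  R := nR ws.length (sW ws)
  m := nm ws.length (sW ws)
  e := fun k => (neB ws k).val

theorem sum_wW (ws : List BN) : ∑ k ∈ range ws.length, wW ws k = (ws.map BN.val).sum := by
  unfold wW
  induction ws with
  | nil => simp
  | cons a l ih =>
    rw [List.length_cons, sum_range_succ']
    simp only [List.getD_cons_succ, List.getD_cons_zero, List.map_cons, List.sum_cons]
    rw [ih]
    ring

theorem sum_lt_pow (ws : List BN) : ∑ k ∈ range ws.length, wW ws k < 2 ^ sW ws := by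
  rw [sum_wW]
  exact BN.val_lt_two_pow_size (BN.sum ws)

theorem parOf_good {ws : List BN} (h0 : 0 < ws.length) (hpos : ∀ w ∈ ws, 0 < w.val) :
    (parOf ws).Good := by
  have hM : 0 < nM ws.length (sW ws) := nM_pos
  have hw1 : ∀ k < ws.length, 1 ≤ wW ws k := by
    intro k hk
    unfold wW
    rw [List.getD_eq_getElem _ _ hk]
    exact hpos _ (List.getElem_mem hk)
  have hw2 : ∀ k < ws.length, wW ws k < 2 ^ sW ws := by
    intro k hk
    exact lt_of_le_of_lt (single_le_sum (f := wW ws) (fun _ _ => Nat.zero_le _)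
      (mem_range.2 hk)) (sum_lt_pow ws)
  have hb := fun k (hk : k < ws.length) => ne_bounds (w := wW ws) h0 hk (hw1 k hk) (hw2 k hk)
  constructor
  · exact h0
  · change 1 ≤ (nMB ws).size
    by_contra h
    have h1 : (nMB ws).size = 0 := by omega
    have h2 := BN.val_lt_two_pow_size (nMB ws)
    rw [h1, val_nMB] at h2
    omega
  · change 0 < nR ws.length (sW ws)
    unfold nR
    apply Nat.div_pos _ (by positivity)
    have h1 : nm ws.length (sW ws) 0 ≤ nM ws.length (sW ws) :=
      Nat.le_of_dvd hM (dvd_prod_of_mem _ (mem_range.2 h0))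
    have h2 := le_nm (K := ws.length) (s := sW ws) 0
    have h3 : 2 ^ sW ws ≤ 4 * ws.length * 2 ^ sW ws := Nat.le_mul_of_pos_left _ (by omega)
    omega
  · intro k hk
    change 0 < (neB ws k).val
    rw [val_neB ws hk]
    exact (hb k hk).1
  · intro k hk
    change (neB ws k).val < nm ws.length (sW ws) k
    rw [val_neB ws hk]
    exact (hb k hk).2
  · intro k hk
    change nR ws.length (sW ws) + 1 ≤ 2 ^ (nMB ws).size * nm ws.length (sW ws) k
    have h2 := BN.val_lt_two_pow_size (nMB ws)
    rw [val_nMB] at h2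
    have h3 : nR ws.length (sW ws) ≤ nM ws.length (sW ws) := Nat.div_le_self _ _
    have h4 : 2 ^ (nMB ws).size ≤ 2 ^ (nMB ws).size * nm ws.length (sW ws) k :=
      Nat.le_mul_of_pos_right _ (nm_pos k)
    omega

/-- Meaning of admissibility for the parameters of a list of weights. -/
theorem parOf_adm {ws : List BN} (h0 : 0 < ws.length) :
    (∃ N : ℤ, 0 ≤ N ∧ N ≤ (parOf ws).R ∧
      ∀ k < (parOf ws).K, Adm ((parOf ws).m k) ((parOf ws).e k) N) ↔
    ∃ σ : ℕ → ℤ, (∀ k, σ k = 1 ∨ σ k = -1) ∧
      ∑ k ∈ range ws.length, σ k * wW ws k = 0 := by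
  rw [← partition_iff h0 (sum_lt_pow ws)]
  refine exists_congr fun N => and_congr_right fun _ => and_congr_right fun _ => ?_
  refine forall_congr' fun k => forall_congr' fun hk => ?_
  change Adm (nm ws.length (sW ws) k) ((neB ws k).val) N ↔ _
  rw [val_neB ws hk]

end Pool.Agent.Helper45.SQP
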