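import Pool.Agent.Helper45.SQP.BNDefs

/-!
# The coefficients in binary
-/

namespace Pool.Agent.Helper45.SQP

open Finset Pool.Agent.Bin Pool.Agent.Helper81.CC

/-- costs -/
def cB (ws : List BN) (k i : ℕ) : BN := BN.pow2 (max i 1) * nmB ws k

/-- sum of the costs -/
def SCB (ws : List BN) : BN := BN.sum ((List.range ws.length).map fun k =>
  BN.sum ((List.range (lenB ws)).map fun i => cB ws k i))

/-- cost of the main arc -/
def cNB (ws : List BN) : BN := BN.sum ((List.range ws.length).map fun k =>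
  BN.pow2 (lenB ws) * nmB ws k)

/-- a bound -/
def G1B (ws : List BN) : BN := BN.sum ((List.range ws.length).map fun k =>
  BN.sum ((List.range (lenB ws)).map fun i => cB ws k i *
    ((BN.pow2 (lenB ws) * nmB ws k) * (BN.pow2 (lenB ws) * nmB ws k)))) +
  cNB ws * (nRB ws * nRB ws) + BN.ofNat 1

/-- the big value -/
def BB (ws : List BN) : BN := BN.ofNat 8 * G1B ws

/-- a bound -/
def ZB (ws : List BN) : BN := BN.ofNat 8 + BN.ofNat 16 *
  (BN.ofNat (3 * ((ws.length + 1) * (5 * lenB ws + 5))) * cNB ws + SCB ws + cNB ws)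

/-- the penalty -/
def HB (ws : List BN) : BN := ((SCB ws + cNB ws) * (BB ws * BB ws) + BN.ofNat 2 * G1B ws) *
  (ZB ws * ZB ws) + BN.ofNat 2 * BB ws * BN.ofNat ws.length *
    ((nRB ws * ZB ws + BN.ofNat 2) * (nRB ws * ZB ws + BN.ofNat 2))

/-- values of the upper bounds -/
def ubB (ws : List BN) (k i : ℕ) : BN := if i = 0 then neB ws k else BN.pow2 (i - 1) * nmB ws k

/-- the values of the rigid arcs -/
def bvB (ws : List BN) (a : Nm) : BN :=
  if a.1 = 7 then BB ws
  else if a.1 = 8 then BB ws - BN.pow2 a.2.2 * nmB ws a.2.1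
  else if a.1 = 9 then BN.pow2 a.2.2 * nmB ws a.2.1
  else if a.1 = 10 then ubB ws a.2.1 a.2.2
  else if a.1 = 11 then ubB ws a.2.1 a.2.2
  else if a.2.1 = 1 then BB ws + nRB ws
  else if a.2.1 = 3 then BB ws
  else nRB ws

/-- total value of the rigid arcs leaving the source -/
def M0B (ws : List BN) : BN := BN.sum ((SL ws.length (lenB ws)).map (bvB ws))

/-- the product of the values of the rigid arcs -/
def DB (ws : List BN) : BN :=
  BN.prod ((SL ws.length (lenB ws) ++ TL ws.length (lenB ws)).map (bvB ws))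

/-- the coefficient of the return arc -/
def q0B (ws : List BN) : BN := BN.ofNat 2 * HB ws * DB ws * M0B ws +
  (SCB ws + cNB ws) * (BB ws * BB ws) + BN.ofNat 2 * G1B ws -
  BN.ofNat 2 * BB ws * BN.sum ((List.range ws.length).map fun k => neB ws k * neB ws k)

/-- the coefficients of the squares -/
def qB (ws : List BN) (a : Nm) : BN :=
  if a.1 = 2 then (M0B ws * M0B ws) * cB ws a.2.1 a.2.2
  else if a.1 = 12 then (M0B ws * M0B ws) * (BN.ofNat 2 * BB ws * BN.ofNat ws.length)
  else if a.1 = 13 then (if a.2.1 = 0 then q0B ws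
    else if a.2.1 = 2 then (M0B ws * M0B ws) * cNB ws
    else (M0B ws * M0B ws) * HB ws * (DB ws / bvB ws a))
  else (M0B ws * M0B ws) * HB ws * (DB ws / bvB ws a)

theorem val_ite (p : Prop) [Decidable p] (a b : BN) :
    (if p then a else b).val = if p then a.val else b.val := by split_ifs <;> rfl

theorem val_cB (ws : List BN) (k i : ℕ) : (cB ws k i).val = (parOf ws).c k i := by
  unfold cB Par.c
  rw [BN.val_mul, BN.val_pow2, val_nmB]
  rfl

theorem val_SCB (ws : List BN) : (SCB ws).val = (parOf ws).SC := by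
  unfold SCB Par.SC
  rw [val_sum_range]
  refine sum_congr rfl fun k _ => ?_
  rw [val_sum_range]
  exact sum_congr rfl fun i _ => val_cB ws k i

theorem val_cNB (ws : List BN) : (cNB ws).val = (parOf ws).cN := by
  unfold cNB Par.cN
  rw [val_sum_range]
  refine sum_congr rfl fun k _ => ?_
  rw [BN.val_mul, BN.val_pow2, val_nmB]
  rfl

theorem val_nRB' (ws : List BN) : (nRB ws).val = (parOf ws).R := val_nRB ws

theorem val_G1B (ws : List BN) : (G1B ws).val = (parOf ws).G1 := by
  unfold G1B Par.G1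
  rw [BN.val_add, BN.val_add, BN.val_mul, BN.val_mul, val_sum_range, val_cNB, val_nRB',
    BN.val_ofNat, pow_two]
  congr 2
  refine sum_congr rfl fun k _ => ?_
  rw [val_sum_range]
  refine sum_congr rfl fun i _ => ?_
  rw [BN.val_mul, BN.val_mul, BN.val_mul, BN.val_pow2, val_nmB, val_cB, pow_two]
  rfl

theorem val_BB (ws : List BN) : (BB ws).val = (parOf ws).B := by
  unfold BB Par.B
  rw [BN.val_mul, BN.val_ofNat, val_G1B]

theorem val_ZB (ws : List BN) : (ZB ws).val = (parOf ws).Z := by
  unfold ZB Par.Z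
  simp only [BN.val_add, BN.val_mul, BN.val_ofNat, val_cNB, val_SCB]
  rfl

theorem val_HB (ws : List BN) : (HB ws).val = (parOf ws).H := by
  unfold HB Par.H
  simp only [BN.val_add, BN.val_mul, BN.val_ofNat, val_cNB, val_SCB, val_BB, val_G1B, val_ZB,
    val_nRB', pow_two]
  rfl

theorem val_ubB (ws : List BN) (k i : ℕ) : (ubB ws k i).val = (parOf ws).ub k i := by
  unfold ubB Par.ub
  rw [val_ite, BN.val_mul, BN.val_pow2, val_nmB]
  rfl

theorem val_bvB (ws : List BN) (a : Nm) : (bvB ws a).val = (parOf ws).bv a := by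
  unfold bvB Par.bv
  simp only [val_ite, BN.val_sub, BN.val_add, BN.val_mul, BN.val_pow2, val_nmB, val_BB, val_ubB,
    val_nRB']
  rfl

theorem val_M0B (ws : List BN) : (M0B ws).val = (parOf ws).M0 := by
  unfold M0B Par.M0
  rw [BN.val_sum, List.map_map]
  congr 1
  exact List.map_congr_left fun a _ => val_bvB ws a

theorem val_DB (ws : List BN) : (DB ws).val = (parOf ws).D := by
  unfold DB Par.D
  rw [BN.val_prod, List.map_map]
  congr 1
  exact List.map_congr_left fun a _ => val_bvB ws a

theorem val_q0B (ws : List BN) : (q0B ws).val = (parOf ws).q0 := by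
  unfold q0B Par.q0
  simp only [BN.val_sub, BN.val_add, BN.val_mul, BN.val_ofNat, val_cNB, val_SCB, val_BB, val_G1B,
    val_HB, val_DB, val_M0B, pow_two, val_sum_range]
  rfl

theorem val_qB (ws : List BN) (a : Nm) : (qB ws a).val = (parOf ws).q a := by
  unfold qB Par.q
  simp only [val_ite, BN.val_mul, BN.val_div, BN.val_ofNat, val_cNB, val_BB, val_q0B, val_cB,
    val_HB, val_DB, val_M0B, val_bvB, pow_two]
  rfl

end Pool.Agent.Helper45.SQP
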