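import Pool.Agent.Helper45.SQP.BNParam

/-!
# The coefficients are computable in polynomial time
-/

namespace Pool.Agent.Helper45.SQP

open Pool.Agent.Bin Pool.Agent.Helper81.CC

variable {α : Type} [ToData α]

@[fun_prop]
theorem PT_sW {f : α → List BN} (hf : PolyTime f) : PolyTime (fun a => sW (f a)) := by
  unfold sW
  fun_prop

@[fun_prop]
theorem PT_nQB {f : α → List BN} (hf : PolyTime f) : PolyTime (fun a => nQB (f a)) := by
  unfold nQB
  fun_prop

@[fun_prop]
theorem PT_nmB {f : α → List BN} {k : α → ℕ} (hf : PolyTime f) (hk : PolyTime k) :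
    PolyTime (fun a => nmB (f a) (k a)) := by
  unfold nmB
  fun_prop

@[fun_prop]
theorem PT_nMB {f : α → List BN} (hf : PolyTime f) : PolyTime (fun a => nMB (f a)) := by
  unfold nMB
  fun_prop

@[fun_prop]
theorem PT_nOB {f : α → List BN} {k : α → ℕ} (hf : PolyTime f) (hk : PolyTime k) :
    PolyTime (fun a => nOB (f a) (k a)) := by
  unfold nOB
  fun_prop

@[fun_prop]
theorem PT_ngB {f : α → List BN} {k : α → ℕ} (hf : PolyTime f) (hk : PolyTime k) :
    PolyTime (fun a => ngB (f a) (k a)) := by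
  unfold ngB
  fun_prop

@[fun_prop]
theorem PT_nrB {f : α → List BN} {k : α → ℕ} (hf : PolyTime f) (hk : PolyTime k) :
    PolyTime (fun a => nrB (f a) (k a)) := by
  unfold nrB
  fun_prop

@[fun_prop]
theorem PT_neB {f : α → List BN} {k : α → ℕ} (hf : PolyTime f) (hk : PolyTime k) :
    PolyTime (fun a => neB (f a) (k a)) := by
  unfold neB
  fun_prop

@[fun_prop]
theorem PT_nRB {f : α → List BN} (hf : PolyTime f) : PolyTime (fun a => nRB (f a)) := by
  unfold nRB
  fun_prop

@[fun_prop]
theorem PT_lenB {f : α → List BN} (hf : PolyTime f) : PolyTime (fun a => lenB (f a)) := by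
  unfold lenB
  fun_prop

@[fun_prop]
theorem PT_cB {f : α → List BN} {k i : α → ℕ} (hf : PolyTime f) (hk : PolyTime k)
    (hi : PolyTime i) : PolyTime (fun a => cB (f a) (k a) (i a)) := by
  unfold cB
  fun_prop

@[fun_prop]
theorem PT_SCB {f : α → List BN} (hf : PolyTime f) : PolyTime (fun a => SCB (f a)) := by
  unfold SCB
  fun_prop

@[fun_prop]
theorem PT_cNB {f : α → List BN} (hf : PolyTime f) : PolyTime (fun a => cNB (f a)) := by
  unfold cNB
  fun_prop

@[fun_prop]
theorem PT_G1B {f : α → List BN} (hf : PolyTime f) : PolyTime (fun a => G1B (f a)) := by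
  unfold G1B
  fun_prop

@[fun_prop]
theorem PT_BB {f : α → List BN} (hf : PolyTime f) : PolyTime (fun a => BB (f a)) := by
  unfold BB
  fun_prop

@[fun_prop]
theorem PT_ZB {f : α → List BN} (hf : PolyTime f) : PolyTime (fun a => ZB (f a)) := by
  unfold ZB
  fun_prop

@[fun_prop]
theorem PT_HB {f : α → List BN} (hf : PolyTime f) : PolyTime (fun a => HB (f a)) := by
  unfold HB
  fun_prop

@[fun_prop]
theorem PT_ubB {f : α → List BN} {k i : α → ℕ} (hf : PolyTime f) (hk : PolyTime k)
    (hi : PolyTime i) : PolyTime (fun a => ubB (f a) (k a) (i a)) := by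
  unfold ubB
  fun_prop

@[fun_prop]
theorem PT_bvB {f : α → List BN} {a : α → Nm} (hf : PolyTime f) (ha : PolyTime a) :
    PolyTime (fun x => bvB (f x) (a x)) := by
  unfold bvB
  fun_prop

@[fun_prop]
theorem PT_fam {K n t : α → ℕ} (hK : PolyTime K) (hn : PolyTime n) (ht : PolyTime t) :
    PolyTime (fun x => fam (K x) (n x) (t x)) := by
  unfold fam
  fun_prop

@[fun_prop]
theorem PT_names {K L : α → ℕ} (hK : PolyTime K) (hL : PolyTime L) :
    PolyTime (fun x => names (K x) (L x)) := by
  unfold names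
  fun_prop

@[fun_prop]
theorem PT_nodes {K L : α → ℕ} (hK : PolyTime K) (hL : PolyTime L) :
    PolyTime (fun x => nodes (K x) (L x)) := by
  unfold nodes
  fun_prop

@[fun_prop]
theorem PT_SL {K L : α → ℕ} (hK : PolyTime K) (hL : PolyTime L) :
    PolyTime (fun x => SL (K x) (L x)) := by
  unfold SL
  fun_prop

@[fun_prop]
theorem PT_TL {K L : α → ℕ} (hK : PolyTime K) (hL : PolyTime L) :
    PolyTime (fun x => TL (K x) (L x)) := by
  unfold TL
  fun_prop

@[fun_prop]
theorem PT_M0B {f : α → List BN} (hf : PolyTime f) : PolyTime (fun a => M0B (f a)) := by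
  unfold M0B
  fun_prop

@[fun_prop]
theorem PT_DB {f : α → List BN} (hf : PolyTime f) : PolyTime (fun a => DB (f a)) := by
  unfold DB
  fun_prop

@[fun_prop]
theorem PT_q0B {f : α → List BN} (hf : PolyTime f) : PolyTime (fun a => q0B (f a)) := by
  unfold q0B
  fun_prop

@[fun_prop]
theorem PT_qB {f : α → List BN} {a : α → Nm} (hf : PolyTime f) (ha : PolyTime a) :
    PolyTime (fun x => qB (f x) (a x)) := by
  unfold qB
  fun_prop

@[fun_prop]
theorem PT_ins {K L : α → ℕ} {v : α → Nm} (hK : PolyTime K) (hL : PolyTime L)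
    (hv : PolyTime v) : PolyTime (fun x => ins (K x) (L x) (v x)) := by
  unfold ins
  fun_prop

@[fun_prop]
theorem PT_outs {K L : α → ℕ} {v : α → Nm} (hK : PolyTime K) (hL : PolyTime L)
    (hv : PolyTime v) : PolyTime (fun x => outs (K x) (L x) (v x)) := by
  unfold outs
  fun_prop

@[fun_prop]
theorem PT_rowD {K L : α → ℕ} (hK : PolyTime K) (hL : PolyTime L) :
    PolyTime (fun x => rowD (K x) (L x)) := by
  unfold rowD
  fun_prop

@[fun_prop]
theorem PT_isR {a : α → Nm} (ha : PolyTime a) : PolyTime (fun x => Par.isR (a x)) := by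
  unfold Par.isR
  fun_prop

@[fun_prop]
theorem PT_isC {a : α → Nm} (ha : PolyTime a) : PolyTime (fun x => Par.isC (a x)) := by
  unfold Par.isC
  fun_prop

@[fun_prop]
theorem PT_isV {a : α → Nm} (ha : PolyTime a) : PolyTime (fun x => Par.isV (a x)) := by
  unfold Par.isV
  fun_prop

end Pool.Agent.Helper45.SQP
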