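import Mathlib

/-!
# The folding chain: lower bounds

`m`, `e` are the parameters of a chain, `U i = 2 ^ i * m`.
-/

namespace Pool.Agent.Helper45.SQP

open Finset

/-- half widths of the intervals between consecutive admissible points -/
noncomputable def hw (m e : ℝ) (j : ℕ) : ℝ := if Even j then e else m - e

/-- the cost coefficients of a chain -/
noncomputable def cc (m : ℝ) (i : ℕ) : ℝ := 2 ^ (max i 1) * m

theorem hw_compl (m e : ℝ) (i j : ℕ) (hj : j ≤ 2 ^ (i + 1)) :
    hw m e (2 ^ (i + 1) - j) = hw m e j := by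
  unfold hw
  have h1 : Even (2 ^ (i + 1) - j) ↔ Even j := by
    rw [Nat.even_sub hj]
    have h2 : Even (2 ^ (i + 1)) := by
      rw [pow_succ]
      exact even_two.mul_left _
    simp [h2]
  simp [h1]

theorem chain_lower {m e ω η : ℝ} (hm : 0 < m) (hη : 0 ≤ η) {y : ℕ → ℝ} {L : ℕ}
    (h0 : y 0 ≤ e * ω + η) (h1 : ∀ i < L, y i ≤ y (i + 1) + η)
    (h2 : ∀ i < L, y i + y (i + 1) ≤ 2 ^ (i + 1) * m * ω + η) :
    ∀ i, 1 ≤ i → i ≤ L → ∀ j : ℕ, j ≤ 2 ^ i →
      (2 * j * m - 2 * (2 ^ i * m)) * y i - ((j * m) ^ 2 - hw m e j ^ 2 + e ^ 2) * ω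
        - 2 * (2 ^ i * m) * η ≤ -(2 ^ i * m) * y i - ∑ k ∈ range i, cc m k * y k := by
  intro i hi
  induction i, hi using Nat.le_induction with
  | base =>
    intro hL j hj
    have ha := h1 0 (by omega)
    have hb := h2 0 (by omega)
    norm_num at ha hb
    simp only [range_one, sum_singleton, cc]
    norm_num
    interval_cases j
    · simp [hw]
      nlinarith
    · simp [hw]
      nlinarith
    · simp [hw]
      nlinarith
  | succ i hi ih =>
    intro hL j hj
    have ih := ih (by omega)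
    have ha := h1 i (by omega)
    have hb := h2 i (by omega)
    have hc : cc m i = 2 ^ i * m := by
      unfold cc
      rw [max_eq_left hi]
    rw [sum_range_succ, hc]
    have hpow : (2 : ℝ) ^ (i + 1) = 2 * 2 ^ i := pow_succ' _ _
    have hp : (0 : ℝ) < 2 ^ i := by positivity
    by_cases hj2 : j ≤ 2 ^ i
    · have h3 := ih j hj2
      have h4 : (j : ℝ) ≤ 2 ^ i := by exact_mod_cast hj2
      have h5 : (2 * j * m - 2 * (2 ^ i * m)) ≤ 0 := by nlinarith
      have h6 : (2 * (2 ^ i * m) - 2 * j * m) ≤ 2 * (2 ^ i * m) := by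
        have : 0 ≤ (j : ℝ) := Nat.cast_nonneg j
        nlinarith
      have h7 := mul_le_mul_of_nonneg_left ha (by linarith : (0:ℝ) ≤ 2 * (2 ^ i * m) - 2 * j * m)
      have h8 := mul_le_mul_of_nonneg_right h6 hη
      rw [hpow]
      nlinarith
    · obtain ⟨j', hj'⟩ : ∃ j', j' = 2 ^ (i + 1) - j := ⟨_, rfl⟩
      have hle : j' ≤ 2 ^ i := by
        have : 2 ^ (i + 1) = 2 * 2 ^ i := pow_succ' _ _
        omega
      have h3 := ih j' hle
      have hjj : (j' : ℝ) = 2 * 2 ^ i - j := by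
        rw [hj', Nat.cast_sub hj]
        push_cast
        rw [hpow]
      have hhw : hw m e j' = hw m e j := by
        rw [hj']
        exact hw_compl m e i j hj
      rw [hhw] at h3
      have h4 : (j' : ℝ) ≤ 2 ^ i := by exact_mod_cast hle
      have h5 : (2 * j' * m - 2 * (2 ^ i * m)) ≤ 0 := by nlinarith
      have h6 : (2 * (2 ^ i * m) - 2 * j' * m) ≤ 2 * (2 ^ i * m) := by
        have : 0 ≤ (j' : ℝ) := Nat.cast_nonneg j'
        nlinarith
      have h7 := mul_le_mul_of_nonneg_left hb (by linarith : (0:ℝ) ≤ 2 * (2 ^ i * m) - 2 * j' * m)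
      have h8 := mul_le_mul_of_nonneg_right h6 hη
      rw [hpow] at h7 ⊢
      rw [hjj] at h3 h5 h6 h7 h8
      nlinarith

end Pool.Agent.Helper45.SQP
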