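import Pool.Agent.Helper45.SQP.Core

/-!
# The folding chain: exact solutions at admissible points
-/

namespace Pool.Agent.Helper45.SQP

open Finset

/-- `N ≡ ± e` modulo `2 m`. -/
def Adm (m e N : ℤ) : Prop := ∃ t : ℤ, N = 2 * m * t + e ∨ N = 2 * m * t - e

/-- the cost coefficients of a chain -/
def ci (m : ℤ) (i : ℕ) : ℤ := 2 ^ (max i 1) * m

/-- The properties of an exact chain. -/
structure Chain (m e : ℤ) (L : ℕ) (N : ℤ) (y g : ℕ → ℤ) : Prop where
  top : y L = N
  bot : y 0 = e
  nonneg : ∀ i ≤ L, 0 ≤ y i
  le : ∀ i ≤ L, y i ≤ 2 ^ i * m
  g_nonneg : ∀ i < L, 0 ≤ g i
  step : ∀ i < L, y (i + 1) = y i + 2 * g i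
  cap : ∀ i < L, y i + g i ≤ 2 ^ i * m
  sum : -(2 ^ L * m) * N - ∑ k ∈ range L, ci m k * y k = N ^ 2 - 2 * (2 ^ L * m) * N - e ^ 2

theorem chain_exists {m e : ℤ} (he : 0 < e) (hem : e < m) : ∀ L, 1 ≤ L → ∀ N : ℤ, 0 ≤ N →
    N ≤ 2 ^ L * m → Adm m e N → ∃ y g : ℕ → ℤ, Chain m e L N y g := by
  intro L hL
  induction L, hL using Nat.le_induction with
  | base =>
    intro N h0 h1 hN
    rw [pow_one] at h1
    have hcase : N = e ∨ N = 2 * m - e := by
      obtain ⟨t, ht | ht⟩ := hN
      · left
        have h3 : t = 0 := by
          have h4 : t < 1 := by
            by_contra h
            push Not at h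
            nlinarith
          have h5 : -1 < t := by
            by_contra h
            push Not at h
            nlinarith
          omega
        rw [ht, h3]
        ring
      · right
        have h3 : t = 1 := by
          have h4 : t < 2 := by
            by_contra h
            push Not at h
            nlinarith
          have h5 : 0 < t := by
            by_contra h
            push Not at h
            nlinarith
          omega
        rw [ht, h3]
        ring
    rcases hcase with rfl | rfl
    · refine ⟨fun _ => N, fun _ => 0, ?_⟩
      constructor
      · rfl
      · rfl
      · intro i _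
        exact h0
      · intro i hi
        interval_cases i
        · simp only [pow_zero, one_mul]; omega
        · simp only [pow_one]; omega
      · intro i _
        exact le_rfl
      · intro i _
        ring
      · intro i hi
        interval_cases i
        simp only [pow_zero, one_mul]; omega
      · simp [ci]
        ring
    · refine ⟨fun i => if i = 0 then e else 2 * m - e, fun _ => m - e, ?_⟩
      constructor
      · simp
      · simp
      · intro i hi
        interval_cases i
        · simp only [↓reduceIte]; omega
        · simp only [one_ne_zero, ↓reduceIte]; omega
      · intro i hi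
        interval_cases i
        · simp only [↓reduceIte, pow_zero, one_mul]; omega
        · simp only [one_ne_zero, ↓reduceIte, pow_one]; omega
      · intro i _
        omega
      · intro i hi
        interval_cases i
        simp only [zero_add, one_ne_zero, ↓reduceIte]
        ring
      · intro i hi
        interval_cases i
        simp
      · simp [ci]
        ring
  | succ L hL ih =>
    intro N h0 h1 hN
    have hpow : (2 : ℤ) ^ (L + 1) = 2 * 2 ^ L := pow_succ' _ _
    have hci : ci m L = 2 ^ L * m := by
      unfold ci
      rw [max_eq_left hL]
    by_cases hc : N ≤ 2 ^ L * m
    · obtain ⟨y, g, H⟩ := ih N h0 hc hN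
      refine ⟨fun i => if i ≤ L then y i else N, fun i => if i < L then g i else 0, ?_⟩
      constructor
      · simp
      · simp [H.bot]
      · intro i hi
        split_ifs with h
        · exact H.nonneg i h
        · exact h0
      · intro i hi
        split_ifs with h
        · exact H.le i h
        · have : i = L + 1 := by omega
          rw [this]
          exact h1
      · intro i hi
        split_ifs with h
        · exact H.g_nonneg i h
        · exact le_rfl
      · intro i hi
        by_cases h : i < L
        · rw [if_pos (by omega), if_pos (by omega), if_pos h]
          exact H.step i h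
        · have : i = L := by omega
          subst this
          rw [if_neg (by omega), if_pos le_rfl, if_neg (by omega), H.top]
          ring
      · intro i hi
        by_cases h : i < L
        · rw [if_pos (by omega), if_pos h]
          exact H.cap i h
        · have : i = L := by omega
          subst this
          rw [if_pos le_rfl, if_neg (by omega), H.top]
          linarith
      · rw [sum_range_succ]
        have h2 : ∑ k ∈ range L, ci m k * (if k ≤ L then y k else N) =
            ∑ k ∈ range L, ci m k * y k :=
          sum_congr rfl fun k hk => by rw [if_pos (by rw [mem_range] at hk; omega)]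
        rw [h2, hci, if_pos le_rfl, H.top, hpow]
        have := H.sum
        nlinarith
    · push Not at hc
      have h0' : 0 ≤ 2 ^ (L + 1) * m - N := by omega
      have h1' : 2 ^ (L + 1) * m - N ≤ 2 ^ L * m := by rw [hpow]; linarith
      have hN' : Adm m e (2 ^ (L + 1) * m - N) := by
        obtain ⟨t, ht | ht⟩ := hN
        · refine ⟨2 ^ L - t, Or.inr ?_⟩
          rw [ht, hpow]
          ring
        · refine ⟨2 ^ L - t, Or.inl ?_⟩
          rw [ht, hpow]
          ring
      obtain ⟨y, g, H⟩ := ih _ h0' h1' hN'
      refine ⟨fun i => if i ≤ L then y i else N,
        fun i => if i < L then g i else N - 2 ^ L * m, ?_⟩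
      constructor
      · simp
      · simp [H.bot]
      · intro i hi
        split_ifs with h
        · exact H.nonneg i h
        · exact h0
      · intro i hi
        split_ifs with h
        · exact H.le i h
        · have : i = L + 1 := by omega
          rw [this]
          exact h1
      · intro i hi
        split_ifs with h
        · exact H.g_nonneg i h
        · linarith
      · intro i hi
        by_cases h : i < L
        · rw [if_pos (by omega), if_pos (by omega), if_pos h]
          exact H.step i h
        · have : i = L := by omega
          subst this
          rw [if_neg (by omega), if_pos le_rfl, if_neg (by omega), H.top, hpow]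
          ring
      · intro i hi
        by_cases h : i < L
        · rw [if_pos (by omega), if_pos h]
          exact H.cap i h
        · have : i = L := by omega
          subst this
          rw [if_pos le_rfl, if_neg (by omega), H.top, hpow]
          linarith
      · rw [sum_range_succ]
        have h2 : ∑ k ∈ range L, ci m k * (if k ≤ L then y k else N) =
            ∑ k ∈ range L, ci m k * y k :=
          sum_congr rfl fun k hk => by rw [if_pos (by rw [mem_range] at hk; omega)]
        rw [h2, hci, if_pos le_rfl, H.top, hpow]
        have := H.sum
        rw [hpow] at this
        nlinarith

end Pool.Agent.Helper45.SQP
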