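import Pool.Agent.Helper45.SQP.Core2

/-!
# The distance to the admissible points
-/

namespace Pool.Agent.Helper45.SQP

open Finset

/-- integer version of `hw` -/
def hi (m e : ℤ) (j : ℕ) : ℤ := if Even j then e else m - e

theorem hw_cast (m e : ℤ) (j : ℕ) : hw m e j = (hi m e j : ℝ) := by
  unfold hw hi
  split_ifs <;> push_cast <;> rfl

theorem adm_left (m e : ℤ) (j : ℕ) : Adm m e (j * m - hi m e j) := by
  unfold hi
  split_ifs with h
  · obtain ⟨t, rfl⟩ := h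
    exact ⟨t, Or.inr (by push_cast; ring)⟩
  · rw [Nat.not_even_iff_odd] at h
    obtain ⟨t, rfl⟩ := h
    exact ⟨t, Or.inl (by push_cast; ring)⟩

theorem adm_right (m e : ℤ) (j : ℕ) : Adm m e (j * m + hi m e j) := by
  unfold hi
  split_ifs with h
  · obtain ⟨t, rfl⟩ := h
    exact ⟨t, Or.inl (by push_cast; ring)⟩
  · rw [Nat.not_even_iff_odd] at h
    obtain ⟨t, rfl⟩ := h
    exact ⟨t + 1, Or.inr (by push_cast; ring)⟩

theorem exists_index {m e : ℤ} (he : 0 < e) (hem : e < m) {L : ℕ} {ν : ℝ} (h0 : 0 ≤ ν)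
    (h1 : ν ≤ 2 ^ L * m) : ∃ j : ℕ, j ≤ 2 ^ L ∧ |ν - j * m| ≤ hi m e j := by
  have hm : (0 : ℝ) < m := by exact_mod_cast he.trans hem
  have heR : (0 : ℝ) < e := by exact_mod_cast he
  have hemR : (e : ℝ) < m := by exact_mod_cast hem
  set j0 : ℕ := ⌊ν / m⌋₊ with hj0
  have ha : (j0 : ℝ) * m ≤ ν := by
    have := Nat.floor_le (div_nonneg h0 hm.le)
    rwa [← hj0, le_div_iff₀ hm] at this
  have hb : ν < (j0 + 1) * m := by
    have := Nat.lt_floor_add_one (ν / m)
    rwa [← hj0, div_lt_iff₀ hm] at this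
  have hc : j0 ≤ 2 ^ L := by
    have h2 : (j0 : ℝ) ≤ 2 ^ L := by
      by_contra h
      push Not at h
      nlinarith
    exact_mod_cast h2
  have key : ∀ d : ℤ, hi m e j0 = d → hi m e (j0 + 1) = m - d → 0 < d → d < m →
      ∃ j : ℕ, j ≤ 2 ^ L ∧ |ν - j * m| ≤ hi m e j := by
    intro d hd hd' hd0 hdm
    have hd0R : (0 : ℝ) < d := by exact_mod_cast hd0
    by_cases hr : ν - j0 * m ≤ d
    · refine ⟨j0, hc, ?_⟩
      rw [hd, abs_le]
      constructor <;> linarith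
    · push Not at hr
      refine ⟨j0 + 1, ?_, ?_⟩
      · by_contra h
        have h3 : j0 = 2 ^ L := by omega
        have h4 : (j0 : ℝ) = 2 ^ L := by exact_mod_cast h3
        rw [h4] at hr
        linarith
      · rw [hd', abs_le]
        push_cast
        constructor <;> linarith
  rcases Nat.even_or_odd j0 with hev | hod
  · refine key e ?_ ?_ he hem
    · simp [hi, hev]
    · have : ¬ Even (j0 + 1) := by
        rw [Nat.not_even_iff_odd]
        exact hev.add_one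
      simp [hi, this]
  · refine key (m - e) ?_ ?_ (by omega) (by omega)
    · have : ¬ Even j0 := by rwa [Nat.not_even_iff_odd]
      simp [hi, this]
    · have : Even (j0 + 1) := hod.add_one
      simp [hi, this]

theorem prod_lower {u v : ℝ} (hu : 1 / 4 ≤ u) (hv : 1 / 4 ≤ v) (h : 1 ≤ u + v) :
    3 / 16 ≤ u * v := by
  rcases le_total u v with h1 | h1 <;> nlinarith

theorem term_lower {m e : ℤ} (he : 0 < e) (hem : e < m) {L : ℕ} {ν : ℝ} (h0 : 0 ≤ ν)
    (h1 : ν ≤ 2 ^ L * m) : ∃ j : ℕ, j ≤ 2 ^ L ∧ 0 ≤ hw m e j ^ 2 - (ν - j * m) ^ 2 ∧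
      (((∀ μ : ℤ, 1 / 4 ≤ |ν - μ|) ∨ ∃ μ : ℤ, |ν - μ| < 1 / 4 ∧ ¬ Adm m e μ) →
        3 / 16 ≤ hw m e j ^ 2 - (ν - j * m) ^ 2) := by
  obtain ⟨j, hj, hd⟩ := exists_index he hem h0 h1
  rw [abs_le] at hd
  refine ⟨j, hj, ?_, ?_⟩
  · rw [hw_cast]
    nlinarith [hd.1, hd.2]
  · intro h
    rw [hw_cast]
    have e1 : ((hi m e j : ℤ) : ℝ) ^ 2 - (ν - j * m) ^ 2 =
        (ν - ((j * m - hi m e j : ℤ) : ℝ)) * (((j * m + hi m e j : ℤ) : ℝ) - ν) := by
      push_cast
      ring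
    have h2 : (1 : ℤ) ≤ hi m e j := by
      unfold hi
      split_ifs <;> omega
    have h2R : (1 : ℝ) ≤ hi m e j := by exact_mod_cast h2
    have hA := adm_left m e j
    have hB := adm_right m e j
    set a : ℤ := j * m - hi m e j with ha
    set b : ℤ := j * m + hi m e j with hb
    have haν : (a : ℝ) ≤ ν := by rw [ha]; push_cast; linarith
    have hνb : ν ≤ b := by rw [hb]; push_cast; linarith
    have hsum : 1 ≤ (ν - a) + (b - ν) := by rw [ha, hb]; push_cast; linarith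
    rw [e1]
    rcases h with h | ⟨μ, hμ, hμA⟩
    · have h3 := h a
      have h4 := h b
      rw [abs_of_nonneg (by linarith)] at h3
      rw [abs_of_nonpos (by linarith)] at h4
      exact prod_lower h3 (by linarith) hsum
    · rw [abs_lt] at hμ
      have h3 : a < μ := by
        have h5 : a ≤ μ := by
          by_contra h
          push Not at h
          have : (μ : ℝ) + 1 ≤ a := by exact_mod_cast h
          linarith
        rcases h5.lt_or_eq with h6 | h6
        · exact h6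
        · rw [h6] at hA
          exact absurd hA hμA
      have h4 : μ < b := by
        have h5 : μ ≤ b := by
          by_contra h
          push Not at h
          have : (b : ℝ) + 1 ≤ μ := by exact_mod_cast h
          linarith
        rcases h5.lt_or_eq with h6 | h6
        · exact h6
        · rw [← h6] at hB
          exact absurd hB hμA
      have h3R : (a : ℝ) + 1 ≤ μ := by exact_mod_cast h3
      have h4R : (μ : ℝ) + 1 ≤ b := by exact_mod_cast h4
      exact prod_lower (by linarith) (by linarith) hsum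

/-- If no integer in `[0, R]` is admissible for all chains, then the total is bounded below. -/
theorem total_lower {K : ℕ} (hK : 0 < K) {m e : ℕ → ℤ} (he : ∀ k < K, 0 < e k)
    (hem : ∀ k < K, e k < m k) {L R : ℕ} (hR : ∀ k < K, (R : ℤ) + 1 ≤ 2 ^ L * m k)
    (hno : ∀ N : ℤ, 0 ≤ N → N ≤ R → ∃ k < K, ¬ Adm (m k) (e k) N) {ν : ℝ} (h0 : 0 ≤ ν)
    (h1 : ν ≤ R + 1 / 4) : ∃ j : ℕ → ℕ, (∀ k < K, j k ≤ 2 ^ L) ∧
      3 / 16 ≤ ∑ k ∈ range K, (hw (m k) (e k) (j k) ^ 2 - (ν - j k * m k) ^ 2) := by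
  have hν : ∀ k < K, ν ≤ 2 ^ L * m k := by
    intro k hk
    have : (R : ℝ) + 1 ≤ 2 ^ L * m k := by exact_mod_cast hR k hk
    linarith
  have h2 : ∀ k, ∃ j : ℕ, k < K → (j ≤ 2 ^ L ∧ 0 ≤ hw (m k) (e k) j ^ 2 - (ν - j * m k) ^ 2 ∧
      (((∀ μ : ℤ, 1 / 4 ≤ |ν - μ|) ∨ ∃ μ : ℤ, |ν - μ| < 1 / 4 ∧ ¬ Adm (m k) (e k) μ) →
        3 / 16 ≤ hw (m k) (e k) j ^ 2 - (ν - j * m k) ^ 2)) := by
    intro k
    by_cases hk : k < K
    · obtain ⟨j, hj⟩ := term_lower (he k hk) (hem k hk) h0 (hν k hk)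
      exact ⟨j, fun _ => hj⟩
    · exact ⟨0, fun h => absurd h hk⟩
  choose j hj using h2
  refine ⟨j, fun k hk => (hj k hk).1, ?_⟩
  have hnn : ∀ k ∈ range K, 0 ≤ hw (m k) (e k) (j k) ^ 2 - (ν - j k * m k) ^ 2 :=
    fun k hk => (hj k (mem_range.1 hk)).2.1
  have hex : ∃ k < K, 3 / 16 ≤ hw (m k) (e k) (j k) ^ 2 - (ν - j k * m k) ^ 2 := by
    by_cases hfar : ∀ μ : ℤ, 1 / 4 ≤ |ν - μ|
    · exact ⟨0, hK, (hj 0 hK).2.2 (Or.inl hfar)⟩
    · push Not at hfar
      obtain ⟨μ, hμ⟩ := hfar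
      have hμ' := abs_lt.1 hμ
      have hμ0 : 0 ≤ μ := by
        by_contra h
        push Not at h
        have : (μ : ℝ) + 1 ≤ 0 := by exact_mod_cast h
        linarith
      have hμR : μ ≤ R := by
        by_contra h
        push Not at h
        have : (R : ℝ) + 1 ≤ μ := by exact_mod_cast h
        linarith
      obtain ⟨k, hk, hadm⟩ := hno μ hμ0 hμR
      exact ⟨k, hk, (hj k hk).2.2 (Or.inr ⟨μ, hμ, hadm⟩)⟩
  obtain ⟨k, hk, hkk⟩ := hex
  exact hkk.trans (single_le_sum hnn (mem_range.2 hk))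

end Pool.Agent.Helper45.SQP
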