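import Pool.Agent.Helper45.SQP.Defs

/-!
# The encoding of instances is injective; the problem of deciding unboundedness
-/

namespace Pool.Agent.Helper45.SQP

open Pool.Agent.Helper81.CC

theorem bitsVal_injective : Function.Injective Nat.bits := by
  intro a b h
  have key : ∀ n : ℕ, (Nat.bits n).foldr (fun b m => b.toNat + 2 * m) 0 = n := by
    intro n
    induction n using Nat.binaryRec' with
    | zero => simp
    | bit b n h ih =>
      rw [Nat.bits_append_bit n b h, List.foldr_cons, ih, Nat.bit_val]
      ring
  rw [← key a, ← key b, h]

theorem intCode_injective : Function.Injective intCode := by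
  intro a b h
  unfold intCode at h
  rw [Prod.mk.injEq] at h
  have h1 := bitsVal_injective h.2
  have h2 : (a < 0 ↔ b < 0) := by
    have := h.1
    simpa using this
  omega

theorem Inst.code_injective : Function.Injective Inst.code := by
  intro I J h
  unfold Inst.code at h
  rw [Prod.mk.injEq] at h
  obtain ⟨h1, h2⟩ := h
  have hm : I.m = J.m := by
    have := congrArg List.length h1
    simpa using this
  have hn : I.n = J.n := by
    have := congrArg List.length h2
    simpa using this
  obtain ⟨m, n, m_pos, n_pos, W, w, hh, C, V, disj, q, q_pos⟩ := I
  obtain ⟨m', n', m_pos', n_pos', W', w', hh', C', V', disj', q', q_pos'⟩ := J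
  simp only at hm hn h1 h2
  subst hm
  subst hn
  have h3 := List.ofFn_injective h1
  have h4 := List.ofFn_injective h2
  have hW : W = W' := by
    funext i j
    have h5 := congrFun h3 i
    simp only [Prod.mk.injEq] at h5
    exact intCode_injective (congrFun (List.ofFn_injective h5.1) j)
  have hw : w = w' := by
    funext i
    have h5 := congrFun h3 i
    simp only [Prod.mk.injEq] at h5
    exact intCode_injective h5.2
  have hh : hh = hh' := by
    funext j
    have h5 := congrFun h4 j
    simp only [Prod.mk.injEq] at h5
    exact intCode_injective h5.1
  have hC : C = C' := by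
    ext j
    have h5 := congrFun h4 j
    simp only [Prod.mk.injEq] at h5
    simpa using h5.2.1.1
  have hV : V = V' := by
    ext j
    have h5 := congrFun h4 j
    simp only [Prod.mk.injEq] at h5
    simpa using h5.2.1.2
  have hq : q = q' := by
    funext j
    have h5 := congrFun h4 j
    simp only [Prod.mk.injEq] at h5
    exact bitsVal_injective h5.2.2
  subst hW hw hh hC hV hq
  rfl

theorem Inst.enc_injective : Function.Injective Inst.enc :=
  (encOf_injective Code).comp Inst.code_injective

/-- The homogeneous instances: `W` is totally unimodular, there are at most `p` concave variables,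
and `w = 0`, `h = 0`. The origin is a feasible point of such an instance. -/
abbrev ConeInst (p : ℕ) : Type :=
  {I : Inst // I.W.IsTotallyUnimodular ∧ I.V.card ≤ p ∧ I.w = 0 ∧ I.h = 0}

/-- The decision problem: given a homogeneous instance, is its objective unbounded below? -/
def ConeUnbounded (p : ℕ) : Problem where
  Inst := ConeInst p
  enc := fun I => I.1.enc
  enc_inj := Inst.enc_injective.comp Subtype.val_injective
  Yes := fun I => I.1.UnboundedBelow

end Pool.Agent.Helper45.SQP
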