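import Pool.Agent.Helper45.SQP.SatRed
import Pool.Agent.Helper45.SQP.Inj
import Pool.Agent.Helper31.TMSim

/-!
# Hardness of deciding unboundedness, and its consequence for algorithms
-/

namespace Pool.Agent.Helper45.SQP

open Pool.Agent.Helper81.CC Pool.Agent.Helper83.CL Pool.Agent.Helper31.TMSim Computability

/-- The instance of a formula. -/
def satInst (φ : CNF) : Inst := (parOf (wsOf φ)).inst (wsOf_good φ)

theorem satInst_unbounded (φ : CNF) : (satInst φ).UnboundedBelow ↔ φ.Satisfiable := by
  rw [← wsOf_signs φ, ← parOf_adm (by rw [wsOf_length]; omega)]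
  exact (wsOf_good φ).main

theorem satInst_TU (φ : CNF) : (satInst φ).W.IsTotallyUnimodular := Par.inst_TU _

theorem satInst_card (φ : CNF) : (satInst φ).V.card ≤ 2 := Par.card_V _

theorem satInst_code (φ : CNF) : (satInst φ).code = codeOf (wsOf φ) := inst_code _

theorem satInst_w (φ : CNF) : (satInst φ).w = 0 := Par.inst_w _

theorem satInst_h (φ : CNF) : (satInst φ).h = 0 := Par.inst_h _

theorem satInst_enc (φ : CNF) : (satInst φ).enc = encOf Code (codeOf (wsOf φ)) :=
  congrArg (encOf Code) (satInst_code φ)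

theorem satInst_scomp : SComp (encOf CNF) Inst.enc satInst := by
  obtain ⟨p, P, h⟩ := (PolyTime.comp PT_codeOf PT_wsOf).scomp
  refine ⟨p, P, fun φ => ?_⟩
  rw [satInst_enc]
  exact h φ

/-- The instance of a formula as a homogeneous instance. -/
def satCone (p : ℕ) (hp : 2 ≤ p) (φ : CNF) : ConeInst p :=
  ⟨satInst φ, satInst_TU φ, (satInst_card φ).trans hp, satInst_w φ, satInst_h φ⟩

theorem satCone_scomp (p : ℕ) (hp : 2 ≤ p) :
    SComp (encOf CNF) (fun I : ConeInst p => I.1.enc) (satCone p hp) := by
  obtain ⟨p, P, h⟩ := satInst_scomp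
  exact ⟨p, P, fun φ => h φ⟩

theorem coneUnbounded_hardS (p : ℕ) (hp : 2 ≤ p) : (ConeUnbounded p).HardS :=
  SAT_hardS.trans ⟨satCone p hp, satCone_scomp p hp, fun φ => (satInst_unbounded φ).symm⟩

theorem satInst_correct (φ : CNF) (ε : ℝ) (o : Output) (h : Correct ε (satInst φ) o) :
    φ.Satisfiable ↔ o = .unbounded := by
  rw [← satInst_unbounded]
  have h0 : (0 : Fin (satInst φ).n → ℤ) ∈ (satInst φ).feasible := Par.zero_mem (wsOf_good φ)
  cases o with
  | infeasible =>
    change (satInst φ).feasible = ∅ at h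
    rw [h] at h0
    exact absurd h0 (Set.notMem_empty _)
  | unbounded =>
    change (satInst φ).UnboundedBelow at h
    simp [h]
  | point l =>
    obtain ⟨x, _, _, y, hy, _⟩ := h
    constructor
    · intro h1
      obtain ⟨z, hz, hlt⟩ := h1 ((satInst φ).f y)
      exact absurd (hy.2 z hz) (not_le.2 hlt)
    · intro h1
      cases h1

/-- The test whether an answer reports unboundedness. -/
def isUnb (o : Output) : Bool :=
  match o with
  | .unbounded => true
  | _ => false

theorem isUnb_eq (o : Output) : isUnb o = decide (o.code = some none) := by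
  cases o <;> simp [isUnb, Output.code]

theorem scomp_isUnb : SComp Output.enc encodeBool isUnb := by
  have h : PolyTime (fun c : Option (Option (List (Bool × List Bool))) =>
      decide (c = some none)) := by fun_prop
  obtain ⟨p, P, h1⟩ := SComp.comp scomp_bool h.scomp
  refine ⟨p, P, fun o => ?_⟩
  have h2 := h1 o.code
  rw [isUnb_eq]
  exact h2

theorem eq_unb_iff (o : Output) : o = .unbounded ↔ isUnb o = true := by
  cases o <;> simp [isUnb]

/-- The instance of a formula as an instance of the question. -/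
def satTU (p : ℕ) (hp : 2 ≤ p) (φ : CNF) : TUInst p :=
  ⟨satInst φ, satInst_TU φ, (satInst_card φ).trans hp⟩

theorem satTU_scomp (p : ℕ) (hp : 2 ≤ p) :
    SComp (encOf CNF) (fun I : TUInst p => I.1.enc) (satTU p hp) := by
  obtain ⟨p, P, h⟩ := satInst_scomp
  exact ⟨p, P, fun φ => h φ⟩

/-- An algorithm as in the question would decide satisfiability. -/
theorem sat_inP {p : ℕ} (hp : 2 ≤ p) {ε : ℝ} (h : HasAlgorithm p ε) : SAT.InP := by
  obtain ⟨A, hA, hcor⟩ := h
  have h2 := SComp.comp (scomp_of_polyTimeComputable hA) (satTU_scomp p hp)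
  have h3 := SComp.comp scomp_isUnb h2
  exact ⟨fun φ => isUnb (A (satTU p hp φ)), h3.computable, fun φ =>
    (satInst_correct φ ε (A (satTU p hp φ)) (hcor (satTU p hp φ))).trans (eq_unb_iff _)⟩

end Pool.Agent.Helper45.SQP
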