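import Pool.Agent.Helper45.SQP.Par3

/-!
# The objective takes a negative value when some integer of the range is admissible
-/

namespace Pool.Agent.Helper45.SQP

open Finset

namespace Par

variable {P : Par}

/-- The witness. -/
def wit (P : Par) (N : ℤ) (y g : ℕ → ℕ → ℤ) (a : Nm) : ℤ :=
  if a.1 = 0 then y a.2.1 a.2.2 + g a.2.1 a.2.2
  else if a.1 = 1 then g a.2.1 a.2.2
  else if a.1 = 2 then P.B - y a.2.1 a.2.2
  else if a.1 = 3 then 2 ^ a.2.2 * P.m a.2.1 - (y a.2.1 a.2.2 + g a.2.1 a.2.2)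
  else if a.1 = 4 then g a.2.1 a.2.2
  else if a.1 = 5 then (if a.2.2 = 0 then (P.e a.2.1 : ℤ)
    else y a.2.1 (a.2.2 - 1) + g a.2.1 (a.2.2 - 1))
  else if a.1 = 6 then (if a.2.2 = 0 then 0
    else 2 ^ (a.2.2 - 1) * P.m a.2.1 - (y a.2.1 (a.2.2 - 1) + g a.2.1 (a.2.2 - 1)))
  else if a.1 = 12 then N
  else if a.1 = 13 then (if a.2.1 = 0 then (P.M0 : ℤ) else if a.2.1 = 2 then P.B + N
    else if a.2.1 = 4 then P.R - N else P.bv a)
  else P.bv a

theorem wit_rig {N : ℤ} {y g : ℕ → ℕ → ℤ} {a : Nm} (ha : a ∈ SL P.K P.L ++ TL P.K P.L) :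
    P.wit N y g a = P.bv a := by
  obtain ⟨x, z, w⟩ := a
  have h := mem_rig ha
  simp only [Prod.mk.injEq] at h
  rcases h with ⟨rfl, h1, h2⟩ | ⟨rfl, h1, h2⟩ | ⟨rfl, h1, h2⟩ | ⟨rfl, h1, h2⟩ | ⟨rfl, h1, h2⟩ |
    ⟨rfl, rfl, rfl⟩ | ⟨rfl, rfl, rfl⟩ | ⟨rfl, rfl, rfl⟩ <;> simp [wit]

theorem cast_list_sum_int (l : List Nm) (f : Nm → ℕ) :
    ((l.map f).sum : ℤ) = (l.map fun a => (f a : ℤ)).sum := by
  induction l with
  | nil => simp
  | cons a l ih => simp [ih]

theorem Good.wit_nonneg (hP : P.Good) {N : ℤ} (h0 : 0 ≤ N) (hN : N ≤ P.R) {y g : ℕ → ℕ → ℤ}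
    (hC : ∀ k < P.K, Chain (P.m k) (P.e k) P.L N (y k) (g k)) {a : Nm}
    (ha : a ∈ names P.K P.L) : 0 ≤ P.wit N y g a := by
  obtain ⟨x, z, w⟩ := a
  rw [mem_names] at ha
  simp only at ha
  rcases ha with ⟨rfl, h1, h2⟩ | ⟨rfl, h1, h2⟩ | ⟨rfl, h1, h2⟩ | ⟨rfl, h1, h2⟩ | ⟨rfl, h1, h2⟩ |
    ⟨rfl, h1, h2⟩ | ⟨rfl, h1, h2⟩ | ⟨rfl, h1, h2⟩ | ⟨rfl, h1, h2⟩ | ⟨rfl, h1, h2⟩ | ⟨rfl, h1, h2⟩ |
    ⟨rfl, h1, h2⟩ | ⟨rfl, h1, h2⟩ | ⟨rfl, h1, h2⟩
  · have h3 := (hC z h1).nonneg w h2.le
    have h4 := (hC z h1).g_nonneg w h2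
    simp only [wit, if_true]
    omega
  · have h4 := (hC z h1).g_nonneg w h2
    simpa [wit] using h4
  · have h3 := (hC z h1).le w h2.le
    have h4 : ((2 ^ w * P.m z : ℕ) : ℤ) < P.B := by exact_mod_cast hP.pow_lt_B h1 h2
    push_cast at h4
    have e : P.wit N y g (2, z, w) = P.B - y z w := by simp [wit]
    rw [e]
    linarith
  · have h4 := (hC z h1).cap w h2
    have e : P.wit N y g (3, z, w) = 2 ^ w * P.m z - (y z w + g z w) := by simp [wit]
    rw [e]
    linarith
  · have h4 := (hC z h1).g_nonneg w h2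
    simpa [wit] using h4
  · have e : P.wit N y g (5, z, w) = if w = 0 then (P.e z : ℤ) else y z (w - 1) + g z (w - 1) := by
      simp [wit]
    rw [e]
    split_ifs with h
    · positivity
    · have h3 := (hC z h1).nonneg (w - 1) (by omega)
      have h4 := (hC z h1).g_nonneg (w - 1) (by omega)
      omega
  · have e : P.wit N y g (6, z, w) = if w = 0 then 0 else
        2 ^ (w - 1) * P.m z - (y z (w - 1) + g z (w - 1)) := by
      simp [wit]
    rw [e]
    split_ifs with h
    · exact le_rfl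
    · have h4 := (hC z h1).cap (w - 1) (by omega)
      linarith
  · simp [wit]
  · simp [wit]
  · simp [wit]
  · simp [wit]
  · simp [wit]
  · simpa [wit] using h0
  · have hw : w = 0 := by omega
    subst hw
    interval_cases z
    · simp [wit]
    · simp [wit]
    · have e : P.wit N y g (13, 2, 0) = P.B + N := by simp [wit]
      rw [e]
      positivity
    · simp [wit]
    · have e : P.wit N y g (13, 4, 0) = P.R - N := by simp [wit]
      rw [e]
      linarith
    · simp [wit]

theorem Good.wit_node (hP : P.Good) {N : ℤ} {y g : ℕ → ℕ → ℤ}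
    (hC : ∀ k < P.K, Chain (P.m k) (P.e k) P.L N (y k) (g k)) {v : Nm}
    (hv : v ∈ nodes P.K P.L) :
    ((ins P.K P.L v).map (P.wit N y g)).sum = ((outs P.K P.L v).map (P.wit N y g)).sum := by
  have hL := hP.L_pos
  have e0 : ∀ k i, P.wit N y g (0, k, i) = y k i + g k i := fun k i => by simp [wit]
  have e1 : ∀ k i, P.wit N y g (1, k, i) = g k i := fun k i => by simp [wit]
  have e2 : ∀ k i, P.wit N y g (2, k, i) = P.B - y k i := fun k i => by simp [wit]
  have e3 : ∀ k i, P.wit N y g (3, k, i) = 2 ^ i * P.m k - (y k i + g k i) := fun k i => by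
    simp [wit]
  have e4 : ∀ k i, P.wit N y g (4, k, i) = g k i := fun k i => by simp [wit]
  have e5 : ∀ k, P.wit N y g (5, k, 0) = P.e k := fun k => by simp [wit]
  have e5' : ∀ k i, P.wit N y g (5, k, i + 1) = y k i + g k i := fun k i => by simp [wit]
  have e6 : ∀ k, P.wit N y g (6, k, 0) = 0 := fun k => by simp [wit]
  have e6' : ∀ k i, P.wit N y g (6, k, i + 1) = 2 ^ i * P.m k - (y k i + g k i) := fun k i => by
    simp [wit]
  have e7 : ∀ k i, P.wit N y g (7, k, i) = P.B := fun k i => by simp [wit, bv]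
  have e8 : ∀ k i, P.wit N y g (8, k, i) = (P.B - 2 ^ i * P.m k : ℕ) := fun k i => by
    simp [wit, bv]
  have e9 : ∀ k i, P.wit N y g (9, k, i) = 2 ^ i * P.m k := fun k i => by simp [wit, bv]
  have e10 : ∀ k, P.wit N y g (10, k, 0) = P.e k := fun k => by simp [wit, bv, ub]
  have e10' : ∀ k i, P.wit N y g (10, k, i + 1) = 2 ^ i * P.m k := fun k i => by
    simp [wit, bv, ub]
  have e11 : ∀ k, P.wit N y g (11, k, 0) = P.e k := fun k => by simp [wit, bv, ub]
  have e11' : ∀ k i, P.wit N y g (11, k, i + 1) = 2 ^ i * P.m k := fun k i => by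
    simp [wit, bv, ub]
  have e12 : ∀ k, P.wit N y g (12, k, 0) = N := fun k => by simp [wit]
  have m0 : P.wit N y g (13, 0, 0) = P.M0 := by simp [wit]
  have m1 : P.wit N y g (13, 1, 0) = P.B + P.R := by simp [wit, bv]
  have m2 : P.wit N y g (13, 2, 0) = P.B + N := by simp [wit]
  have m3 : P.wit N y g (13, 3, 0) = P.B := by simp [wit, bv]
  have m4 : P.wit N y g (13, 4, 0) = P.R - N := by simp [wit]
  have m5 : P.wit N y g (13, 5, 0) = P.R := by simp [wit, bv]
  obtain ⟨x, k, i⟩ := v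
  rw [mem_nodes] at hv
  simp only at hv
  rcases hv with ⟨rfl, h1, h2⟩ | ⟨rfl, h1, h2⟩ | ⟨rfl, h1, h2⟩ | ⟨rfl, h1, h2⟩ | ⟨rfl, h1, h2⟩ |
    ⟨rfl, h1, h2⟩
  · rcases Nat.eq_zero_or_pos i with h3 | h3
    · subst h3
      have h4 : ¬ (0 = P.L) := by omega
      have h5 := (hC k h1).bot
      simp [ins, outs, h4, e7, e2, e5, h5]
    · obtain ⟨i, rfl⟩ : ∃ j, i = j + 1 := ⟨i - 1, by omega⟩
      have h5 := (hC k h1).step i (by omega)
      by_cases h4 : i + 1 = P.L
      · have h6 := (hC k h1).top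
        rw [← h4] at h6
        simp [ins, outs, ← h4, e12, e0, e1]
        linarith
      · simp [ins, outs, h4, e7, e2, e0, e1]
        linarith
  · have h3 := (hP.pow_lt_B h1 h2).le
    simp [ins, outs, e2, e3, e4, e8]
    rw [Nat.cast_sub h3]
    push_cast
    ring
  · simp [ins, outs, e0, e3, e9]
  · rcases Nat.eq_zero_or_pos i with h3 | h3
    · subst h3
      simp [ins, outs, e5, e6, e10]
    · obtain ⟨i, rfl⟩ : ∃ j, i = j + 1 := ⟨i - 1, by omega⟩
      simp [ins, outs, e5', e6', e10']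
  · rcases Nat.eq_zero_or_pos i with h3 | h3
    · subst h3
      have h4 : ¬ (0 = P.L) := by omega
      have h5 := (hC k h1).bot
      have h6 := e5' k 0
      rw [zero_add] at h6
      simp [ins, outs, h4, e11, e1, e6, h6, h5]
    · obtain ⟨i, rfl⟩ : ∃ j, i = j + 1 := ⟨i - 1, by omega⟩
      have h5 := (hC k h1).step i (by omega)
      by_cases h4 : i + 1 = P.L
      · have h6 := (hC k h1).top
        rw [← h4] at h6
        simp [ins, outs, ← h4, e12, e11', e4, e6']
        linarith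
      · simp [ins, outs, h4, e11', e4, e1, e6', e5']
        linarith
  · have hi : i = 0 := by omega
    subst hi
    interval_cases k
    · simp [ins, outs, m1, m2, m4]
    · simp [ins, outs, m2, m3, e12]
    · simp [ins, outs, m4, m5, e12]
    · simp only [ins, outs]
      norm_num
      rw [m0]
      have h := cast_list_sum_int (SL P.K P.L) P.bv
      have h' : P.M0 = ((SL P.K P.L).map P.bv).sum := rfl
      rw [h', h]
      congr 1
      exact List.map_congr_left fun a ha => (wit_rig (List.mem_append_left _ ha)).symm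
    · simp only [ins, outs]
      norm_num
      rw [m0]
      have h := cast_list_sum_int (TL P.K P.L) P.bv
      rw [← hP.sum_TL_bv, h]
      congr 1
      exact List.map_congr_left fun a ha => (wit_rig (List.mem_append_right _ ha))

theorem Good.wit_neg (hP : P.Good) {N : ℤ} (h0 : 0 ≤ N) (hN : N ≤ P.R) {y g : ℕ → ℕ → ℤ}
    (hC : ∀ k < P.K, Chain (P.m k) (P.e k) P.L N (y k) (g k)) :
    ((names P.K P.L).map fun a => P.cur a * P.wit N y g a ^ 2).sum < 0 := by
  have hcast : ∀ l : List Nm, ((l.map fun a => P.cur a * P.wit N y g a ^ 2).sum : ℝ) =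
      (l.map fun a => (P.cur a : ℝ) * (P.wit N y g a : ℝ) ^ 2).sum := by
    intro l
    induction l with
    | nil => simp
    | cons a l ih => simp [ih]
  have key : (((names P.K P.L).map fun a => P.cur a * P.wit N y g a ^ 2).sum : ℝ) < 0 := by
    rw [hcast]
    have hcirc : Circ P (fun a => (P.wit N y g a : ℝ)) := by
      constructor
      · intro a ha
        exact_mod_cast hP.wit_nonneg h0 hN hC ha
      · intro v hv
        have h := hP.wit_node hC hv
        have hc : ∀ l : List Nm, ((l.map (P.wit N y g)).sum : ℝ) =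
            (l.map fun a => (P.wit N y g a : ℝ)).sum := by
          intro l
          induction l with
          | nil => simp
          | cons a l ih => simp [ih]
        rw [← hc, ← hc, h]
    have hM : (0 : ℝ) < P.M0 := by exact_mod_cast hP.M0_pos
    have hx0 : (P.wit N y g (13, 0, 0) : ℝ) = P.M0 * 1 := by simp [wit]
    have hrig := hP.rig_sum hcirc hx0
    have hz : ((SL P.K P.L ++ TL P.K P.L).map
        (P.rt fun a => (P.wit N y g a : ℝ) - P.bv a * 1)).sum = 0 := by
      apply List.sum_eq_zero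
      intro z hz
      rw [List.mem_map] at hz
      obtain ⟨a, ha, rfl⟩ := hz
      have h5 := wit_rig (N := N) (y := y) (g := g) ha
      simp only [rt, h5]
      simp
    rw [hz] at hrig
    have htot := hP.total (fun a => (P.wit N y g a : ℝ))
    rw [htot, hrig, hP.q0_cast, hx0]
    have e2 : ∀ k i, (P.wit N y g (2, k, i) : ℝ) = P.B - y k i := fun k i => by simp [wit]
    have e13 : (P.wit N y g (13, 2, 0) : ℝ) = P.B + N := by simp [wit]
    have e12 : (P.wit N y g (12, 0, 0) : ℝ) = N := by simp [wit]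
    rw [e13, e12]
    simp only [e2]
    -- the sums
    have h1 : ∑ k ∈ range P.K, ∑ i ∈ range P.L, (P.c k i : ℝ) * (P.B - y k i) ^ 2 =
        P.SC * P.B ^ 2 - 2 * P.B * (∑ k ∈ range P.K, ∑ i ∈ range P.L, (P.c k i : ℝ) * y k i) +
        ∑ k ∈ range P.K, ∑ i ∈ range P.L, (P.c k i : ℝ) * y k i ^ 2 := by
      unfold SC
      push_cast
      simp only [sum_mul, mul_sum]
      rw [← sum_sub_distrib, ← sum_add_distrib]
      refine sum_congr rfl fun k _ => ?_
      rw [← sum_sub_distrib, ← sum_add_distrib]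
      exact sum_congr rfl fun i _ => by ring
    have h2 : ∑ k ∈ range P.K, ∑ i ∈ range P.L, (P.c k i : ℝ) * y k i =
        -(P.K * (N : ℝ) ^ 2) + P.cN * N + ∑ k ∈ range P.K, (P.e k : ℝ) ^ 2 := by
      have h3 : ∀ k ∈ range P.K, ∑ i ∈ range P.L, (P.c k i : ℝ) * y k i =
          -(N : ℝ) ^ 2 + (2 ^ P.L * P.m k) * N + (P.e k : ℝ) ^ 2 := by
        intro k hk
        have h4 := (hC k (mem_range.1 hk)).sum
        have h5 : ∑ i ∈ range P.L, ci (P.m k) i * y k i =
            ∑ i ∈ range P.L, (P.c k i : ℤ) * y k i := by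
          unfold ci c
          push_cast
          rfl
        rw [h5] at h4
        have h6 : ((∑ i ∈ range P.L, (P.c k i : ℤ) * y k i : ℤ) : ℝ) =
            ∑ i ∈ range P.L, (P.c k i : ℝ) * y k i := by push_cast; rfl
        rw [← h6]
        have h7 : ∑ i ∈ range P.L, (P.c k i : ℤ) * y k i =
            -N ^ 2 + (2 ^ P.L * P.m k) * N + (P.e k : ℤ) ^ 2 := by linarith
        rw [h7]
        push_cast
        ring
      rw [sum_congr rfl h3, sum_add_distrib, sum_add_distrib, sum_const, card_range,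
        nsmul_eq_mul]
      unfold cN
      push_cast
      rw [sum_mul]
      ring
    have h3 : (∑ k ∈ range P.K, ∑ i ∈ range P.L, (P.c k i : ℝ) * y k i ^ 2) +
        P.cN * (N : ℝ) ^ 2 + 1 ≤ P.G1 := by
      have h4 : (P.G1 : ℝ) = ∑ k ∈ range P.K, ∑ i ∈ range P.L,
          (P.c k i : ℝ) * (2 ^ P.L * P.m k) ^ 2 + P.cN * (P.R : ℝ) ^ 2 + 1 := by
        unfold G1
        push_cast
        ring
      rw [h4]
      have h5 : ∑ k ∈ range P.K, ∑ i ∈ range P.L, (P.c k i : ℝ) * y k i ^ 2 ≤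
          ∑ k ∈ range P.K, ∑ i ∈ range P.L, (P.c k i : ℝ) * (2 ^ P.L * P.m k) ^ 2 := by
        refine sum_le_sum fun k hk => sum_le_sum fun i hi => ?_
        have hk' := mem_range.1 hk
        have hi' := mem_range.1 hi
        have h6 := (hC k hk').nonneg i hi'.le
        have h7 := (hC k hk').le i hi'.le
        have h8 : y k i ≤ 2 ^ P.L * P.m k := by
          refine h7.trans (mul_le_mul_of_nonneg_right ?_ (Int.natCast_nonneg _))
          exact pow_le_pow_right₀ (by norm_num) hi'.le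
        have h6R : (0 : ℝ) ≤ y k i := by exact_mod_cast h6
        have h8R : (y k i : ℝ) ≤ 2 ^ P.L * P.m k := by exact_mod_cast h8
        exact mul_le_mul_of_nonneg_left (pow_le_pow_left₀ h6R h8R 2) (Nat.cast_nonneg _)
      have h6 : (P.cN : ℝ) * (N : ℝ) ^ 2 ≤ P.cN * (P.R : ℝ) ^ 2 := by
        have h0R : (0 : ℝ) ≤ N := by exact_mod_cast h0
        have hNR : (N : ℝ) ≤ P.R := by exact_mod_cast hN
        exact mul_le_mul_of_nonneg_left (pow_le_pow_left₀ h0R hNR 2) (Nat.cast_nonneg _)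
      linarith
    rw [h1, h2]
    have hG0 : (0 : ℝ) ≤ P.G1 := Nat.cast_nonneg _
    have hneg : (∑ k ∈ range P.K, ∑ i ∈ range P.L, (P.c k i : ℝ) * y k i ^ 2) +
        P.cN * (N : ℝ) ^ 2 - 2 * P.G1 < 0 := by linarith
    have := mul_neg_of_pos_of_neg (pow_pos hM 2) hneg
    nlinarith
  exact_mod_cast key

/-- The objective is unbounded if and only if some integer of the range is admissible. -/
theorem Good.main (hP : P.Good) : (P.inst hP).UnboundedBelow ↔
    ∃ N : ℤ, 0 ≤ N ∧ N ≤ P.R ∧ ∀ k < P.K, Adm (P.m k) (P.e k) N := by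
  rw [Par.unbounded_iff]
  constructor
  · rintro ⟨X, h1, h2, h3⟩
    by_contra hno
    push Not at hno
    have hc : ∀ l : List Nm, ((l.map X).sum : ℝ) = (l.map fun a => (X a : ℝ)).sum := by
      intro l
      induction l with
      | nil => simp
      | cons a l ih => simp [ih]
    have hc2 : ∀ l : List Nm, ((l.map fun a => P.cur a * X a ^ 2).sum : ℝ) =
        (l.map fun a => (P.cur a : ℝ) * (X a : ℝ) ^ 2).sum := by
      intro l
      induction l with
      | nil => simp
      | cons a l ih => simp [ih]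
    have hcirc : Circ P (fun a => (X a : ℝ)) := by
      constructor
      · intro a ha
        exact_mod_cast h2 a ha
      · intro v hv
        rw [← hc, ← hc, h1 v hv]
    have h4 := hP.nonneg hno hcirc
    rw [← hc2] at h4
    have h5 : 0 ≤ ((names P.K P.L).map fun a => P.cur a * X a ^ 2).sum := by exact_mod_cast h4
    omega
  · rintro ⟨N, h0, hN, hA⟩
    have h1 : ∀ k, ∃ y g : ℕ → ℤ, k < P.K → Chain (P.m k) (P.e k) P.L N y g := by
      intro k
      by_cases hk : k < P.K
      · have h2 : N ≤ 2 ^ P.L * P.m k := by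
          have h3 : ((P.R + 1 : ℕ) : ℤ) ≤ ((2 ^ P.L * P.m k : ℕ) : ℤ) := by
            exact_mod_cast hP.R_le k hk
          push_cast at h3
          linarith
        obtain ⟨y, g, h⟩ := chain_exists (m := P.m k) (e := P.e k)
          (by exact_mod_cast hP.e_pos k hk) (by exact_mod_cast hP.e_lt k hk) P.L hP.L_pos N h0
          h2 (hA k hk)
        exact ⟨y, g, fun _ => h⟩
      · exact ⟨0, 0, fun h => absurd h hk⟩
    choose y g hC using h1
    exact ⟨P.wit N y g, fun v hv => hP.wit_node hC hv,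
      fun a ha => hP.wit_nonneg h0 hN hC ha, hP.wit_neg h0 hN hC⟩

/-- When the objective is not unbounded, the origin is an optimal solution. -/
theorem Good.zero_opt (hP : P.Good) (h : ¬ (P.inst hP).UnboundedBelow) :
    (P.inst hP).IsOptimal 0 := by
  refine ⟨zero_mem hP, fun y hy => ?_⟩
  rw [f_zero]
  by_contra hneg
  push Not at hneg
  apply h
  rw [Par.unbounded_iff]
  obtain ⟨X, rfl⟩ := exists_pt hP y
  obtain ⟨h1, h2⟩ := (mem_feasible hP X).1 hy
  rw [inst_f] at hneg
  exact ⟨X, h1, h2, hneg⟩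

end Par

end Pool.Agent.Helper45.SQP
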