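import Pool.Agent.Helper45.SQP.BNPoly
import Pool.Agent.Helper45.SQP.Par4

/-!
# The code of the instance
-/

namespace Pool.Agent.Helper45.SQP

open Pool.Agent.Bin Pool.Agent.Helper81.CC

/-- code of the difference of two indicators -/
def indC (p q : Bool) : Bool × List Bool :=
  if p = true then (if q = true then (false, []) else (false, [true]))
  else if q = true then (true, [true]) else (false, [])

theorem indC_eq (p q : Prop) [Decidable p] [Decidable q] : indC (decide p) (decide q) =
    intCode ((if p then 1 else 0) - (if q then 1 else 0)) := by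
  unfold indC
  by_cases h1 : p <;> by_cases h2 : q <;> simp [h1, h2, intCode]

/-- code of the entries -/
def coefC (K L : ℕ) (r : ℕ × Nm) (a : Nm) : Bool × List Bool :=
  if r.1 = 0 then indC (decide (a ∈ ins K L r.2)) (decide (a ∈ outs K L r.2))
  else if r.1 = 1 then indC (decide (a ∈ outs K L r.2)) (decide (a ∈ ins K L r.2))
  else if a = r.2 then (true, [true]) else (false, [])

theorem coefC_eq (K L : ℕ) (r : ℕ × Nm) (a : Nm) : coefC K L r a = intCode (coef K L r a) := by
  unfold coefC coef
  split_ifs with h1 h2 h3
  · exact indC_eq _ _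
  · rw [indC_eq]
    congr 1
    unfold ent
    ring
  · simp [intCode]
  · simp [intCode]

/-- The code of the instance of a list of weights. -/
def codeOf (ws : List BN) : Code :=
  ((rowD ws.length (lenB ws)).map fun r =>
      ((names ws.length (lenB ws)).map fun a => coefC ws.length (lenB ws) r a, (false, [])),
    (names ws.length (lenB ws)).map fun a =>
      ((false, []), (Par.isC a, Par.isV a), (qB ws a).bits))

@[fun_prop]
theorem PT_indC {α : Type} [ToData α] {p q : α → Bool} (hp : PolyTime p) (hq : PolyTime q) :
    PolyTime (fun x => indC (p x) (q x)) := by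
  unfold indC
  fun_prop

@[fun_prop]
theorem PT_coefC {α : Type} [ToData α] {K L : α → ℕ} {r : α → ℕ × Nm} {a : α → Nm}
    (hK : PolyTime K) (hL : PolyTime L) (hr : PolyTime r) (ha : PolyTime a) :
    PolyTime (fun x => coefC (K x) (L x) (r x) (a x)) := by
  unfold coefC
  fun_prop

theorem PT_codeOf : PolyTime codeOf := by
  unfold codeOf
  fun_prop

theorem ofFn_get_map {β γ : Type*} (l : List β) (F : β → γ) :
    (List.ofFn fun j : Fin l.length => F (l.get j)) = l.map F := by
  conv_rhs => rw [← List.ofFn_get l]
  rw [List.map_ofFn]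
  rfl

theorem mkInst_code (l : List Nm) (hl : 1 ≤ l.length) (rows : List (ℕ × Nm))
    (hr : 1 ≤ rows.length) (co : ℕ × Nm → Nm → ℤ) (c v : Nm → Bool)
    (hcv : ∀ a, ¬ (c a = true ∧ v a = true)) (q : Nm → ℕ)
    (hq : ∀ a ∈ l, c a = true ∨ v a = true → 0 < q a) :
    (mkInst l hl rows.length hr (fun i j => co (rows.get i) (l.get j)) c v hcv q hq).code =
      (rows.map fun r => (l.map fun a => intCode (co r a), intCode 0),
        l.map fun a => (intCode 0, (c a, v a), Nat.bits (q a))) := by
  rw [← ofFn_get_map rows, ← ofFn_get_map l]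
  change (List.ofFn fun i : Fin rows.length => (List.ofFn fun j : Fin l.length =>
      intCode (co (rows.get i) (l.get j)), intCode 0),
    List.ofFn fun j : Fin l.length => (intCode 0,
      (decide (j ∈ Finset.univ.filter fun j => c (l.get j) = true),
        decide (j ∈ Finset.univ.filter fun j => v (l.get j) = true)), Nat.bits (q (l.get j)))) = _
  congr 1
  · congr 1
    funext i
    rw [← ofFn_get_map l fun a => intCode (co (rows.get i) a)]
  · congr 1
    funext j
    simp

theorem inst_code {ws : List BN} (h : (parOf ws).Good) : ((parOf ws).inst h).code = codeOf ws := by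
  have h1 := mkInst_code (names (parOf ws).K (parOf ws).L) (length_names_pos _ _)
    (rowD (parOf ws).K (parOf ws).L) (length_rowD_pos _ _)
    (coef (parOf ws).K (parOf ws).L) Par.isC Par.isV Par.not_isC_isV (parOf ws).q
    (fun _ ha hh => h.q_pos ha hh)
  refine Eq.trans h1 ?_
  unfold codeOf
  have h0 : intCode 0 = (false, []) := by simp [intCode]
  rw [h0]
  congr 1
  · refine List.map_congr_left fun r _ => ?_
    congr 1
    exact List.map_congr_left fun a _ => (coefC_eq _ _ _ _).symm
  · refine List.map_congr_left fun a _ => ?_
    congr 2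
    unfold BN.bits
    rw [val_qB]

end Pool.Agent.Helper45.SQP
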