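import Pool.Agent.Helper45.SQP.Core2

/-!
# Encoding PARTITION by residues
-/

namespace Pool.Agent.Helper45.SQP

open Finset

section

variable (K s : ℕ) (w : ℕ → ℕ)

/-- common factor of the moduli minus one -/
def nQ : ℕ := K.factorial * K * 2 ^ (s + 2)

/-- the moduli -/
def nm (k : ℕ) : ℕ := 1 + (k + 1) * nQ K s

/-- the product of the moduli -/
def nM : ℕ := ∏ k ∈ range K, nm K s k

/-- the product of the other moduli -/
def nO (k : ℕ) : ℕ := ∏ j ∈ (range K).erase k, nm K s j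

/-- the multipliers -/
def ng (k : ℕ) : ℕ := nm K s k * w k / 2 ^ s

/-- the residues -/
def nr (k : ℕ) : ℕ := (2 * (ng K s w k * nO K s k)) % (2 * nm K s k)

/-- the parameters `e` -/
def ne (k : ℕ) : ℕ := min (nr K s w k) (2 * nm K s k - nr K s w k)

/-- the range -/
def nR : ℕ := nM K s / 2 ^ s

end

variable {K s : ℕ} {w : ℕ → ℕ}

theorem nm_pos (k : ℕ) : 0 < nm K s k := by unfold nm; omega

theorem nM_pos : 0 < nM K s := prod_pos fun k _ => nm_pos k

theorem nm_mul_nO {k : ℕ} (hk : k < K) : nm K s k * nO K s k = nM K s :=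
  mul_prod_erase _ _ (mem_range.2 hk)

theorem nm_coprime {i j : ℕ} (hi : i < K) (hj : j < K) (hij : i ≠ j) :
    Nat.Coprime (nm K s i) (nm K s j) := by
  have key : ∀ i j : ℕ, i < j → j < K → Nat.Coprime (nm K s i) (nm K s j) := by
    intro i j hij hj
    by_contra hc
    obtain ⟨p, hp, h1, h2⟩ := Nat.Prime.not_coprime_iff_dvd.1 hc
    have h3 : p ∣ (j - i) * nQ K s := by
      have h4 : (j - i) * nQ K s = nm K s j - nm K s i := by
        unfold nm
        rw [Nat.add_sub_add_left, ← Nat.sub_mul]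
        congr 1
        omega
      rw [h4]
      exact Nat.dvd_sub h2 h1
    have h5 : p ∣ nQ K s := by
      rcases (Nat.Prime.dvd_mul hp).1 h3 with h | h
      · have h6 : p ≤ j - i := Nat.le_of_dvd (by omega) h
        have h7 : p ∣ K.factorial := Nat.dvd_factorial hp.pos (by omega)
        unfold nQ
        rw [mul_assoc]
        exact h7.mul_right _
      · exact h
    have h6 : p ∣ 1 := by
      have h7 : p ∣ (i + 1) * nQ K s := h5.mul_left _
      have h8 : nm K s i - (i + 1) * nQ K s = 1 := by unfold nm; omega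
      rw [← h8]
      exact Nat.dvd_sub h1 h7
    exact hp.one_lt.ne' (Nat.dvd_one.1 h6)
  rcases lt_or_gt_of_ne hij with h | h
  · exact key i j h hj
  · exact (key j i h hi).symm

theorem le_nm (k : ℕ) : 4 * K * 2 ^ s ≤ nm K s k := by
  have h1 : 1 ≤ K.factorial := Nat.factorial_pos K
  have h2 : nQ K s = K.factorial * (4 * K * 2 ^ s) := by
    unfold nQ
    rw [pow_add]
    ring
  have h3 : 4 * K * 2 ^ s ≤ nQ K s := by
    rw [h2]
    exact Nat.le_mul_of_pos_left _ h1
  have h4 : nQ K s ≤ (k + 1) * nQ K s := Nat.le_mul_of_pos_left _ (by omega)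
  unfold nm
  omega

/-- `2 ^ s * G_k = M w_k - ρ_k O_k`. -/
theorem pow_mul_G {k : ℕ} (hk : k < K) : (2 : ℤ) ^ s * (ng K s w k * nO K s k : ℕ) =
    nM K s * w k - ((nm K s k * w k) % 2 ^ s : ℕ) * nO K s k := by
  have h1 : 2 ^ s * (nm K s k * w k / 2 ^ s) + (nm K s k * w k) % 2 ^ s = nm K s k * w k :=
    Nat.div_add_mod _ _
  have h2 := nm_mul_nO (K := K) (s := s) hk
  have h1' : (2 : ℤ) ^ s * (ng K s w k : ℤ) = nm K s k * w k - ((nm K s k * w k) % 2 ^ s : ℕ) := by
    have : ((2 ^ s * (nm K s k * w k / 2 ^ s) + (nm K s k * w k) % 2 ^ s : ℕ) : ℤ) =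
      ((nm K s k * w k : ℕ) : ℤ) := by rw [h1]
    unfold ng
    push_cast at this ⊢
    linarith
  have h2' : (nm K s k : ℤ) * nO K s k = nM K s := by exact_mod_cast h2
  push_cast at h1' ⊢
  calc (2 : ℤ) ^ s * ((ng K s w k : ℤ) * nO K s k) = (2 ^ s * ng K s w k) * nO K s k := by ring
    _ = (nm K s k * w k - (nm K s k * w k : ℤ) % 2 ^ s) * nO K s k := by rw [h1']
    _ = (nm K s k * nO K s k) * w k - (nm K s k * w k : ℤ) % 2 ^ s * nO K s k := by ring
    _ = _ := by rw [h2']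

theorem nO_bound {k : ℕ} (hk : k < K) : 4 * K * 2 ^ s * nO K s k ≤ nM K s := by
  rw [← nm_mul_nO hk]
  exact Nat.mul_le_mul_right _ (le_nm k)

theorem err_bound (hK : 0 < K) (σ : ℕ → ℤ) (hσ : ∀ k < K, σ k = 1 ∨ σ k = -1) :
    4 * |∑ k ∈ range K, σ k * (((nm K s k * w k) % 2 ^ s : ℕ) * nO K s k)| ≤ nM K s := by
  have h1 : |∑ k ∈ range K, σ k * ((((nm K s k * w k) % 2 ^ s : ℕ) : ℤ) * nO K s k)| ≤
      ∑ k ∈ range K, (2 : ℤ) ^ s * nO K s k := by
    refine (abs_sum_le_sum_abs _ _).trans (sum_le_sum fun k hk => ?_)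
    rw [abs_mul]
    have h2 : |σ k| = 1 := by
      rcases hσ k (mem_range.1 hk) with h | h <;> rw [h] <;> norm_num
    rw [h2, one_mul, abs_of_nonneg (by positivity)]
    refine mul_le_mul_of_nonneg_right ?_ (by positivity)
    have h3 : (nm K s k * w k) % 2 ^ s ≤ 2 ^ s := (Nat.mod_lt _ (by positivity)).le
    exact_mod_cast h3
  have h4 : (K : ℤ) * (4 * ∑ k ∈ range K, (2 : ℤ) ^ s * nO K s k) ≤ K * nM K s := by
    have h5 : ∑ k ∈ range K, (4 * K * 2 ^ s * nO K s k : ℤ) ≤ ∑ k ∈ range K, (nM K s : ℤ) := by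
      refine sum_le_sum fun k hk => ?_
      exact_mod_cast nO_bound (mem_range.1 hk)
    rw [sum_const, card_range, nsmul_eq_mul] at h5
    refine le_trans (le_of_eq ?_) h5
    rw [mul_sum, mul_sum]
    exact sum_congr rfl fun k _ => by ring
  have h6 : 4 * ∑ k ∈ range K, (2 : ℤ) ^ s * nO K s k ≤ nM K s :=
    le_of_mul_le_mul_left h4 (by exact_mod_cast hK)
  linarith

theorem sum_formula (σ : ℕ → ℤ) :
    (2 : ℤ) ^ s * ∑ k ∈ range K, σ k * (ng K s w k * nO K s k : ℕ) =
      nM K s * ∑ k ∈ range K, σ k * w k -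
        ∑ k ∈ range K, σ k * (((nm K s k * w k) % 2 ^ s : ℕ) * nO K s k) := by
  rw [mul_sum, mul_sum, ← sum_sub_distrib]
  refine sum_congr rfl fun k hk => ?_
  have := pow_mul_G (s := s) (w := w) (mem_range.1 hk)
  calc (2 : ℤ) ^ s * (σ k * ((ng K s w k * nO K s k : ℕ) : ℤ))
      = σ k * (2 ^ s * ((ng K s w k * nO K s k : ℕ) : ℤ)) := by ring
    _ = _ := by rw [this]; ring

theorem adm_iff (m G : ℕ) (hm : 0 < m) (N : ℤ) :
    Adm m (min ((2 * G) % (2 * m)) (2 * m - (2 * G) % (2 * m)) : ℕ) N ↔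
      (2 * m : ℤ) ∣ N - 2 * G ∨ (2 * m : ℤ) ∣ N + 2 * G := by
  have h1 : 2 * m * ((2 * G) / (2 * m)) + (2 * G) % (2 * m) = 2 * G := Nat.div_add_mod _ _
  have h2 : (2 * G) % (2 * m) < 2 * m := Nat.mod_lt _ (by omega)
  generalize (2 * G) / (2 * m) = q at h1
  generalize (2 * G) % (2 * m) = r at h1 h2
  have h1' : (2 * m : ℤ) * q + r = 2 * G := by exact_mod_cast h1
  unfold Adm
  rcases le_total r (2 * m - r) with h | h
  · rw [min_eq_left h]
    constructor
    · rintro ⟨t, ht | ht⟩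
      · exact Or.inl ⟨t - q, by rw [ht, ← h1']; ring⟩
      · exact Or.inr ⟨t + q, by rw [ht, ← h1']; ring⟩
    · rintro (⟨t, ht⟩ | ⟨t, ht⟩)
      · exact ⟨t + q, Or.inl (by linarith)⟩
      · exact ⟨t - q, Or.inr (by linarith)⟩
  · rw [min_eq_right h, Nat.cast_sub h2.le]
    push_cast
    constructor
    · rintro ⟨t, ht | ht⟩
      · exact Or.inr ⟨t + 1 + q, by rw [ht, ← h1']; ring⟩
      · exact Or.inl ⟨t - 1 - q, by rw [ht, ← h1']; ring⟩
    · rintro (⟨t, ht⟩ | ⟨t, ht⟩)
      · exact ⟨t + q + 1, Or.inr (by linarith)⟩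
      · exact ⟨t - q - 1, Or.inl (by linarith)⟩

theorem two_dvd_nm (k : ℕ) : ¬ 2 ∣ nm K s k := by
  have h : 2 ∣ (k + 1) * nQ K s := by
    unfold nQ
    rw [pow_succ]
    exact Dvd.dvd.mul_left (Dvd.dvd.mul_left (Dvd.intro_left _ rfl) _) _
  unfold nm
  omega

theorem ne_bounds (hK : 0 < K) {k : ℕ} (hk : k < K) (h1 : 1 ≤ w k) (h2 : w k < 2 ^ s) :
    0 < ne K s w k ∧ ne K s w k < nm K s k := by
  have hm := nm_pos (K := K) (s := s) k
  have hlt : nr K s w k < 2 * nm K s k := Nat.mod_lt _ (by omega)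
  have hg1 : 1 ≤ ng K s w k := by
    unfold ng
    rw [Nat.le_div_iff_mul_le (by positivity)]
    have h3 := le_nm (K := K) (s := s) k
    have h4 : 2 ^ s ≤ 4 * K * 2 ^ s := Nat.le_mul_of_pos_left _ (by omega)
    calc 1 * 2 ^ s ≤ nm K s k := by omega
      _ ≤ nm K s k * w k := Nat.le_mul_of_pos_right _ h1
  have hg2 : ng K s w k < nm K s k := by
    unfold ng
    rw [Nat.div_lt_iff_lt_mul (by positivity)]
    exact Nat.mul_lt_mul_of_pos_left h2 hm
  have hcop : Nat.Coprime (nm K s k) (nO K s k) := by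
    unfold nO
    refine Nat.Coprime.prod_right fun j hj => ?_
    rw [mem_erase, mem_range] at hj
    exact nm_coprime hk hj.2 (Ne.symm hj.1)
  have hr0 : nr K s w k ≠ 0 := by
    intro h0
    unfold nr at h0
    have h3 : 2 * nm K s k ∣ 2 * (ng K s w k * nO K s k) := Nat.dvd_of_mod_eq_zero h0
    have h4 : nm K s k ∣ ng K s w k * nO K s k := Nat.dvd_of_mul_dvd_mul_left (by norm_num) h3
    have h5 : nm K s k ∣ ng K s w k := hcop.dvd_of_dvd_mul_right h4
    have := Nat.le_of_dvd (by omega) h5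
    omega
  have hrm : nr K s w k ≠ nm K s k := by
    intro h0
    have h3 : 2 ∣ nr K s w k := by
      unfold nr
      rw [Nat.mul_mod_mul_left]
      exact Dvd.intro _ rfl
    rw [h0] at h3
    exact two_dvd_nm k h3
  unfold ne
  constructor
  · rw [lt_min_iff]
    omega
  · rcases lt_or_gt_of_ne hrm with h | h
    · exact (min_le_left _ _).trans_lt h
    · exact (min_le_right _ _).trans_lt (by omega)

theorem adm_ne_iff {k : ℕ} (N : ℤ) : Adm (nm K s k) (ne K s w k) N ↔
    (2 * nm K s k : ℤ) ∣ N - 2 * (ng K s w k * nO K s k : ℕ) ∨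
      (2 * nm K s k : ℤ) ∣ N + 2 * (ng K s w k * nO K s k : ℕ) :=
  adm_iff _ _ (nm_pos k) N

theorem nm_dvd_G {k j : ℕ} (hk : k < K) (hkj : k ≠ j) :
    (nm K s k : ℤ) ∣ ((ng K s w j * nO K s j : ℕ) : ℤ) := by
  have h : nm K s k ∣ nO K s j := dvd_prod_of_mem _ (by rw [mem_erase, mem_range]; exact ⟨hkj, hk⟩)
  exact_mod_cast h.mul_left _

theorem nm_dvd_sub {k : ℕ} (hk : k < K) (σ : ℕ → ℤ) :
    (nm K s k : ℤ) ∣ ∑ j ∈ range K, σ j * (ng K s w j * nO K s j : ℕ) -
      σ k * (ng K s w k * nO K s k : ℕ) := by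
  rw [← add_sum_erase _ _ (mem_range.2 hk), add_sub_cancel_left]
  refine dvd_sum fun j hj => ?_
  rw [mem_erase] at hj
  exact (nm_dvd_G hk (Ne.symm hj.1)).mul_left _

/-- The encoding of PARTITION. -/
theorem partition_iff (hK : 0 < K) (hs : ∑ k ∈ range K, w k < 2 ^ s) :
    (∃ N : ℤ, 0 ≤ N ∧ N ≤ nR K s ∧ ∀ k < K, Adm (nm K s k) (ne K s w k) N) ↔
      ∃ σ : ℕ → ℤ, (∀ k, σ k = 1 ∨ σ k = -1) ∧ ∑ k ∈ range K, σ k * w k = 0 := by
  have hMpos : (0 : ℤ) < nM K s := by exact_mod_cast nM_pos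
  have hspos : (0 : ℤ) < 2 ^ s := by positivity
  constructor
  · rintro ⟨N, hN0, hNR, hN⟩
    have h1 : ∀ k, ∃ τ : ℤ, (τ = 1 ∨ τ = -1) ∧
        (k < K → (2 * nm K s k : ℤ) ∣ N - 2 * (τ * (ng K s w k * nO K s k : ℕ))) := by
      intro k
      by_cases hk : k < K
      · rcases (adm_ne_iff N).1 (hN k hk) with h | h
        · exact ⟨1, Or.inl rfl, fun _ => by rwa [one_mul]⟩
        · exact ⟨-1, Or.inr rfl, fun _ => by
            have e : N - 2 * (-1 * ((ng K s w k * nO K s k : ℕ) : ℤ)) =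
              N + 2 * ((ng K s w k * nO K s k : ℕ) : ℤ) := by ring
            rw [e]
            exact h⟩
      · exact ⟨1, Or.inl rfl, fun h => absurd h hk⟩
    choose σ hσ hdvd using h1
    refine ⟨σ, hσ, ?_⟩
    obtain ⟨ν, hν⟩ : ∃ ν, N = 2 * ν := by
      obtain ⟨t, ht⟩ := hdvd 0 hK
      exact ⟨nm K s 0 * t + σ 0 * (ng K s w 0 * nO K s 0 : ℕ), by linarith⟩
    set S : ℤ := ∑ j ∈ range K, σ j * (ng K s w j * nO K s j : ℕ) with hS
    have h2 : ∀ k < K, (nm K s k : ℤ) ∣ ν - S := by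
      intro k hk
      have h3 : (nm K s k : ℤ) ∣ ν - σ k * (ng K s w k * nO K s k : ℕ) := by
        obtain ⟨t, ht⟩ := hdvd k hk
        refine ⟨t, ?_⟩
        rw [hν] at ht
        linarith
      have h4 := nm_dvd_sub (s := s) (w := w) hk σ
      have h5 := dvd_sub h3 h4
      rw [← hS] at h5
      have e : ν - σ k * ((ng K s w k * nO K s k : ℕ) : ℤ) -
        (S - σ k * ((ng K s w k * nO K s k : ℕ) : ℤ)) = ν - S := by ring
      rwa [e] at h5
    have h3 : (nM K s : ℤ) ∣ ν - S := by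
      unfold nM
      push_cast
      refine prod_dvd_of_coprime ?_ fun k hk => h2 k (mem_range.1 hk)
      intro i hi j hj hij
      have := nm_coprime (s := s) (mem_range.1 hi) (mem_range.1 hj) hij
      exact Nat.isCoprime_iff_coprime.2 this
    have hR : 2 ^ s * N ≤ nM K s := by
      have h4 : nR K s * 2 ^ s ≤ nM K s := Nat.div_mul_le_self _ _
      have h5 : (nR K s : ℤ) * 2 ^ s ≤ nM K s := by exact_mod_cast h4
      nlinarith
    have herr := err_bound (s := s) (w := w) hK σ fun k _ => hσ k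
    have hsum := sum_formula (K := K) (s := s) (w := w) σ
    rw [← hS] at hsum
    set E : ℤ := ∑ k ∈ range K, σ k * (((nm K s k * w k) % 2 ^ s : ℕ) * nO K s k) with hE
    have hE1 : -(nM K s : ℤ) ≤ 4 * E := by
      have := neg_abs_le E
      linarith
    have hE2 : 4 * E ≤ nM K s := by
      have := le_abs_self E
      linarith
    -- the size of `S`
    have hSabs : 2 ^ s * |S| ≤ nM K s * (2 ^ s - 1) := by
      have h5 : |S| ≤ ∑ j ∈ range K, ((ng K s w j * nO K s j : ℕ) : ℤ) := by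
        rw [hS]
        refine (abs_sum_le_sum_abs _ _).trans (sum_le_sum fun k _ => ?_)
        rw [abs_mul]
        have h6 : |σ k| = 1 := by rcases hσ k with h | h <;> rw [h] <;> norm_num
        rw [h6, one_mul, abs_of_nonneg (by positivity)]
      have h7 : ∀ k ∈ range K, (2 : ℤ) ^ s * ((ng K s w k * nO K s k : ℕ) : ℤ) ≤
          nM K s * w k := by
        intro k hk
        rw [pow_mul_G (mem_range.1 hk)]
        have : (0 : ℤ) ≤ ((nm K s k * w k) % 2 ^ s : ℕ) * nO K s k := by positivity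
        linarith
      calc 2 ^ s * |S| ≤ 2 ^ s * ∑ j ∈ range K, ((ng K s w j * nO K s j : ℕ) : ℤ) :=
            mul_le_mul_of_nonneg_left h5 hspos.le
        _ = ∑ j ∈ range K, 2 ^ s * ((ng K s w j * nO K s j : ℕ) : ℤ) := mul_sum _ _ _
        _ ≤ ∑ j ∈ range K, (nM K s : ℤ) * w j := sum_le_sum h7
        _ = nM K s * ∑ j ∈ range K, (w j : ℤ) := by rw [mul_sum]
        _ ≤ nM K s * (2 ^ s - 1) := by
            refine mul_le_mul_of_nonneg_left ?_ hMpos.le
            have : (∑ j ∈ range K, (w j : ℤ)) < 2 ^ s := by exact_mod_cast hs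
            linarith
    have hνS : ν = S := by
      have h5 : |ν - S| < nM K s := by
        have h6 : 2 ^ s * |ν - S| < 2 ^ s * nM K s := by
          have h7 : |ν - S| ≤ |ν| + |S| := abs_sub _ _
          have h8 : |ν| = ν := abs_of_nonneg (by linarith)
          have h9 : 2 ^ s * ν * 2 ≤ nM K s := by rw [hν] at hR; linarith
          nlinarith
        exact lt_of_mul_lt_mul_left h6 hspos.le
      have h6 := Int.eq_zero_of_abs_lt_dvd h3 h5
      linarith
    have h5 : 2 ^ s * ν * 2 ≤ nM K s := by rw [hν] at hR; linarith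
    have hν0 : 0 ≤ 2 ^ s * ν := by
      have : 0 ≤ ν := by linarith
      positivity
    rw [← hνS] at hsum
    set T : ℤ := ∑ k ∈ range K, σ k * w k with hT
    have h6 : T < 1 := by
      by_contra h
      push Not at h
      nlinarith
    have h7 : -1 < T := by
      by_contra h
      push Not at h
      nlinarith
    omega
  · rintro ⟨σ, hσ, h0⟩
    -- both signs
    have key : ∀ σ : ℕ → ℤ, (∀ k, σ k = 1 ∨ σ k = -1) → ∑ k ∈ range K, σ k * w k = 0 →
        0 ≤ ∑ j ∈ range K, σ j * ((ng K s w j * nO K s j : ℕ) : ℤ) →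
        ∃ N : ℤ, 0 ≤ N ∧ N ≤ nR K s ∧ ∀ k < K, Adm (nm K s k) (ne K s w k) N := by
      intro σ hσ h0 hpos
      set S : ℤ := ∑ j ∈ range K, σ j * ((ng K s w j * nO K s j : ℕ) : ℤ) with hS
      refine ⟨2 * S, by linarith, ?_, ?_⟩
      · have hsum := sum_formula (K := K) (s := s) (w := w) σ
        rw [← hS, h0] at hsum
        have herr := err_bound (s := s) (w := w) hK σ fun k _ => hσ k
        set E : ℤ := ∑ k ∈ range K, σ k * (((nm K s k * w k) % 2 ^ s : ℕ) * nO K s k) with hE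
        have h1 : 2 * S * 2 ^ s ≤ nM K s := by
          have := neg_abs_le E
          nlinarith
        have h2 : (nR K s : ℤ) = nM K s / 2 ^ s := by
          unfold nR
          push_cast
          rfl
        rw [h2]
        exact (Int.le_ediv_iff_mul_le hspos).2 h1
      · intro k hk
        rw [adm_ne_iff]
        have h1 := nm_dvd_sub (s := s) (w := w) hk σ
        rw [← hS] at h1
        have h2 : (2 * nm K s k : ℤ) ∣ 2 * (S - σ k * ((ng K s w k * nO K s k : ℕ) : ℤ)) :=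
          mul_dvd_mul_left 2 h1
        rcases hσ k with h | h
        · left
          rw [h, one_mul, mul_sub] at h2
          exact h2
        · right
          rw [h] at h2
          have e : 2 * (S - -1 * ((ng K s w k * nO K s k : ℕ) : ℤ)) =
            2 * S + 2 * ((ng K s w k * nO K s k : ℕ) : ℤ) := by ring
          rwa [e] at h2
    rcases le_total 0 (∑ j ∈ range K, σ j * ((ng K s w j * nO K s j : ℕ) : ℤ)) with h | h
    · exact key σ hσ h0 h
    · refine key (fun k => -σ k) (fun k => ?_) ?_ ?_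
      · rcases hσ k with h | h
        · right; rw [h]
        · left; rw [h]; norm_num
      · simp only [neg_mul, sum_neg_distrib, h0, neg_zero]
      · simp only [neg_mul, sum_neg_distrib]
        linarith

end Pool.Agent.Helper45.SQP
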