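import Pool.Agent.Helper45.SQP.TU

/-!
# The network: names of arcs and nodes, incidences

Arcs and nodes are named by triples `(tag, chain, level)`.
-/

namespace Pool.Agent.Helper45.SQP

/-- names -/
abbrev Nm : Type := ℕ × ℕ × ℕ

/-- a family of names -/
def fam (K n t : ℕ) : List Nm :=
  (List.range K).flatMap fun k => (List.range n).map fun i => (t, k, i)

@[simp] theorem mem_fam {K n t : ℕ} {a : Nm} : a ∈ fam K n t ↔ a.1 = t ∧ a.2.1 < K ∧ a.2.2 < n := by
  obtain ⟨x, y, z⟩ := a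
  simp only [fam, List.mem_flatMap, List.mem_range, List.mem_map, Prod.mk.injEq]
  constructor
  · rintro ⟨k, hk, i, hi, rfl, rfl, rfl⟩
    exact ⟨rfl, hk, hi⟩
  · rintro ⟨rfl, hk, hi⟩
    exact ⟨y, hk, z, hi, rfl, rfl, rfl⟩

theorem nodup_fam (K n t : ℕ) : (fam K n t).Nodup := by
  unfold fam
  rw [List.nodup_flatMap]
  constructor
  · intro k _
    refine List.Nodup.map ?_ List.nodup_range
    intro i j h
    simpa using h
  · refine List.Pairwise.imp ?_ List.nodup_range
    intro k k' hkk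
    rw [Function.onFun, List.disjoint_left]
    intro a ha hb
    simp only [List.mem_map, List.mem_range] at ha hb
    obtain ⟨i, _, rfl⟩ := ha
    obtain ⟨j, _, h⟩ := hb
    simp only [Prod.mk.injEq, true_and] at h
    exact hkk h.1.symm

theorem sum_fam {M : Type*} [AddCommMonoid M] (K n t : ℕ) (g : Nm → M) :
    ((fam K n t).map g).sum = ∑ k ∈ Finset.range K, ∑ i ∈ Finset.range n, g (t, k, i) := by
  have h1 : ∀ (n : ℕ) (g : ℕ → M), ((List.range n).map g).sum = ∑ i ∈ Finset.range n, g i := by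
    intro n g
    induction n with
    | zero => simp
    | succ n ih => rw [List.range_succ, List.map_append, List.sum_append, ih,
        Finset.sum_range_succ]; simp
  have h2 : ∀ (K : ℕ), ((((List.range K).flatMap fun k =>
      (List.range n).map fun i => (t, k, i)).map g).sum) =
      ∑ k ∈ Finset.range K, ∑ i ∈ Finset.range n, g (t, k, i) := by
    intro K
    induction K with
    | zero => simp
    | succ K ih =>
      rw [List.range_succ, List.flatMap_append, List.map_append, List.sum_append, ih,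
        Finset.sum_range_succ]
      congr 1
      simp only [List.flatMap_cons, List.flatMap_nil, List.append_nil, List.map_map]
      exact h1 n _
  exact h2 K

/-- All tags are smaller than `t`. -/
def TagLt (t : ℕ) (l : List Nm) : Prop := l.Nodup ∧ ∀ a ∈ l, a.1 < t

theorem tagLt_nil (t : ℕ) : TagLt t [] := ⟨List.nodup_nil, by simp⟩

theorem TagLt.append {t : ℕ} {l : List Nm} (h : TagLt t l) (K n : ℕ) :
    TagLt (t + 1) (l ++ fam K n t) := by
  refine ⟨List.Nodup.append h.1 (nodup_fam _ _ _) ?_, ?_⟩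
  · rw [List.disjoint_left]
    intro a ha hb
    have h1 := h.2 a ha
    have h2 := (mem_fam.1 hb).1
    omega
  · intro a ha
    rcases List.mem_append.1 ha with h1 | h1
    · exact (h.2 a h1).trans (Nat.lt_succ_self _)
    · rw [(mem_fam.1 h1).1]
      exact Nat.lt_succ_self _

/-- the names of the arcs -/
def names (K L : ℕ) : List Nm :=
  fam K L 0 ++ fam K L 1 ++ fam K L 2 ++ fam K L 3 ++ fam K L 4 ++ fam K (L + 1) 5 ++
    fam K (L + 1) 6 ++ fam K L 7 ++ fam K L 8 ++ fam K L 9 ++ fam K (L + 1) 10 ++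
    fam K (L + 1) 11 ++ fam (K + 1) 1 12 ++ fam 6 1 13

/-- the names of the nodes -/
def nodes (K L : ℕ) : List Nm :=
  fam K (L + 1) 0 ++ fam K L 1 ++ fam K L 2 ++ fam K (L + 1) 3 ++ fam K (L + 1) 4 ++ fam 5 1 5

theorem nodup_names (K L : ℕ) : (names K L).Nodup := by
  have h : TagLt 14 ([] ++ fam K L 0 ++ fam K L 1 ++ fam K L 2 ++ fam K L 3 ++ fam K L 4 ++
      fam K (L + 1) 5 ++ fam K (L + 1) 6 ++ fam K L 7 ++ fam K L 8 ++ fam K L 9 ++
      fam K (L + 1) 10 ++ fam K (L + 1) 11 ++ fam (K + 1) 1 12 ++ fam 6 1 13) :=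
    ((((((((((((((tagLt_nil 0).append _ _).append _ _).append _ _).append _ _).append _ _).append
      _ _).append _ _).append _ _).append _ _).append _ _).append _ _).append _ _).append
      _ _).append _ _
  rw [List.nil_append] at h
  exact h.1

theorem nodup_nodes (K L : ℕ) : (nodes K L).Nodup := by
  have h : TagLt 6 ([] ++ fam K (L + 1) 0 ++ fam K L 1 ++ fam K L 2 ++ fam K (L + 1) 3 ++
      fam K (L + 1) 4 ++ fam 5 1 5) :=
    ((((((tagLt_nil 0).append _ _).append _ _).append _ _).append _ _).append _ _).append _ _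
  rw [List.nil_append] at h
  exact h.1

/-- the arcs leaving the source -/
def SL (K L : ℕ) : List Nm := fam K L 7 ++ fam K (L + 1) 11 ++ [(13, 1, 0)]

/-- the arcs entering the sink -/
def TL (K L : ℕ) : List Nm :=
  fam K L 8 ++ fam K L 9 ++ fam K (L + 1) 10 ++ [(13, 3, 0), (13, 5, 0)]

/-- the arcs entering a node -/
def ins (K L : ℕ) (v : Nm) : List Nm :=
  if v.1 = 0 then (if v.2.2 = L then [(12, v.2.1, 0)] else [(7, v.2.1, v.2.2)])
  else if v.1 = 1 then [(2, v.2.1, v.2.2)]
  else if v.1 = 2 then [(0, v.2.1, v.2.2), (3, v.2.1, v.2.2)]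
  else if v.1 = 3 then [(5, v.2.1, v.2.2), (6, v.2.1, v.2.2)]
  else if v.1 = 4 then (if v.2.2 = 0 then [(11, v.2.1, 0), (1, v.2.1, 0)]
    else if v.2.2 = L then [(11, v.2.1, L), (4, v.2.1, L - 1)]
    else [(11, v.2.1, v.2.2), (4, v.2.1, v.2.2 - 1), (1, v.2.1, v.2.2)])
  else if v.2.1 = 0 then [(13, 1, 0)]
  else if v.2.1 = 1 then [(13, 2, 0)]
  else if v.2.1 = 2 then [(12, K, 0), (13, 4, 0)]
  else if v.2.1 = 3 then [(13, 0, 0)]
  else TL K L

/-- the arcs leaving a node -/
def outs (K L : ℕ) (v : Nm) : List Nm :=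
  if v.1 = 0 then (if v.2.2 = 0 then [(2, v.2.1, 0), (5, v.2.1, 0)]
    else if v.2.2 = L then [(0, v.2.1, L - 1), (1, v.2.1, L - 1)]
    else [(2, v.2.1, v.2.2), (0, v.2.1, v.2.2 - 1), (1, v.2.1, v.2.2 - 1)])
  else if v.1 = 1 then [(3, v.2.1, v.2.2), (4, v.2.1, v.2.2), (8, v.2.1, v.2.2)]
  else if v.1 = 2 then [(9, v.2.1, v.2.2)]
  else if v.1 = 3 then [(10, v.2.1, v.2.2)]
  else if v.1 = 4 then (if v.2.2 = L then [(6, v.2.1, L), (12, v.2.1 + 1, 0)]
    else [(6, v.2.1, v.2.2), (5, v.2.1, v.2.2 + 1)])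
  else if v.2.1 = 0 then [(13, 2, 0), (13, 4, 0)]
  else if v.2.1 = 1 then [(13, 3, 0), (12, 0, 0)]
  else if v.2.1 = 2 then [(13, 5, 0)]
  else if v.2.1 = 3 then SL K L
  else [(13, 0, 0)]

/-- the entries of the incidence matrix -/
def ent (K L : ℕ) (v a : Nm) : ℤ :=
  (if a ∈ ins K L v then 1 else 0) - (if a ∈ outs K L v then 1 else 0)

/-- the head of an arc -/
def hd (K L : ℕ) (a : Nm) : Nm :=
  match a with
  | (0, k, i) => (2, k, i)
  | (1, k, i) => (4, k, i)
  | (2, k, i) => (1, k, i)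
  | (3, k, i) => (2, k, i)
  | (4, k, i) => (4, k, i + 1)
  | (5, k, i) => (3, k, i)
  | (6, k, i) => (3, k, i)
  | (7, k, i) => (0, k, i)
  | (11, k, i) => (4, k, i)
  | (12, k, _) => if k < K then (0, k, L) else (5, 2, 0)
  | (13, 0, _) => (5, 3, 0)
  | (13, 1, _) => (5, 0, 0)
  | (13, 2, _) => (5, 1, 0)
  | (13, 4, _) => (5, 2, 0)
  | _ => (5, 4, 0)

/-- the tail of an arc -/
def tl (L : ℕ) (a : Nm) : Nm :=
  match a with
  | (0, k, i) => (0, k, i + 1)
  | (1, k, i) => (0, k, i + 1)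
  | (2, k, i) => (0, k, i)
  | (3, k, i) => (1, k, i)
  | (4, k, i) => (1, k, i)
  | (5, k, i) => if i = 0 then (0, k, 0) else (4, k, i - 1)
  | (6, k, i) => (4, k, i)
  | (8, k, i) => (1, k, i)
  | (9, k, i) => (2, k, i)
  | (10, k, i) => (3, k, i)
  | (12, k, _) => if k = 0 then (5, 1, 0) else (4, k - 1, L)
  | (13, 0, _) => (5, 4, 0)
  | (13, 2, _) => (5, 0, 0)
  | (13, 3, _) => (5, 1, 0)
  | (13, 4, _) => (5, 0, 0)
  | (13, 5, _) => (5, 2, 0)
  | _ => (5, 3, 0)

theorem mem_nodes {K L : ℕ} {v : Nm} : v ∈ nodes K L ↔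
    (v.1 = 0 ∧ v.2.1 < K ∧ v.2.2 < L + 1) ∨ (v.1 = 1 ∧ v.2.1 < K ∧ v.2.2 < L) ∨
    (v.1 = 2 ∧ v.2.1 < K ∧ v.2.2 < L) ∨ (v.1 = 3 ∧ v.2.1 < K ∧ v.2.2 < L + 1) ∨
    (v.1 = 4 ∧ v.2.1 < K ∧ v.2.2 < L + 1) ∨ (v.1 = 5 ∧ v.2.1 < 5 ∧ v.2.2 < 1) := by
  simp [nodes]

theorem ins_hd {K L : ℕ} (hL : 1 ≤ L) {v a : Nm} (hv : v ∈ nodes K L) (ha : a ∈ ins K L v) :
    hd K L a = v := by
  obtain ⟨x, y, z⟩ := v
  rw [mem_nodes] at hv
  simp only at hv
  rcases hv with ⟨rfl, h1, h2⟩ | ⟨rfl, h1, h2⟩ | ⟨rfl, h1, h2⟩ | ⟨rfl, h1, h2⟩ | ⟨rfl, h1, h2⟩ |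
    ⟨rfl, h1, h2⟩
  · simp only [ins, if_true] at ha
    split_ifs at ha with h3
    · simp only [List.mem_singleton] at ha
      subst ha
      simp [hd, h1, h3]
    · simp only [List.mem_singleton] at ha
      subst ha
      simp [hd]
  · simp only [ins, one_ne_zero, if_true, if_false, List.mem_singleton] at ha
    subst ha
    simp [hd]
  · simp [ins] at ha
    rcases ha with rfl | rfl <;> simp [hd]
  · simp [ins] at ha
    rcases ha with rfl | rfl <;> simp [hd]
  · simp only [ins] at ha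
    norm_num at ha
    split_ifs at ha with h3 h4
    · simp only [List.mem_cons, List.not_mem_nil, or_false] at ha
      rcases ha with rfl | rfl <;> simp [hd, h3]
    · simp only [List.mem_cons, List.not_mem_nil, or_false] at ha
      rcases ha with rfl | rfl
      · simp [hd, h4]
      · simp only [hd, h4, Prod.mk.injEq, true_and]
        omega
    · simp only [List.mem_cons, List.not_mem_nil, or_false] at ha
      rcases ha with rfl | rfl | rfl
      · simp [hd]
      · simp only [hd, Prod.mk.injEq, true_and]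
        omega
      · simp [hd]
  · have h3 : z = 0 := by omega
    subst h3
    interval_cases y
    · simp [ins] at ha
      subst ha
      simp [hd]
    · simp [ins] at ha
      subst ha
      simp [hd]
    · simp [ins] at ha
      rcases ha with rfl | rfl <;> simp [hd]
    · simp [ins] at ha
      subst ha
      simp [hd]
    · simp [ins, TL] at ha
      obtain ⟨x, y, z⟩ := a
      simp only [Prod.mk.injEq] at ha
      rcases ha with ⟨rfl, _⟩ | ⟨rfl, _⟩ | ⟨rfl, _⟩ | ⟨rfl, rfl, rfl⟩ | ⟨rfl, rfl, rfl⟩ <;>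
        simp [hd]

theorem outs_tl {K L : ℕ} (hL : 1 ≤ L) {v a : Nm} (hv : v ∈ nodes K L) (ha : a ∈ outs K L v) :
    tl L a = v := by
  obtain ⟨x, y, z⟩ := v
  rw [mem_nodes] at hv
  simp only at hv
  rcases hv with ⟨rfl, h1, h2⟩ | ⟨rfl, h1, h2⟩ | ⟨rfl, h1, h2⟩ | ⟨rfl, h1, h2⟩ | ⟨rfl, h1, h2⟩ |
    ⟨rfl, h1, h2⟩
  · simp only [outs, if_true] at ha
    split_ifs at ha with h3 h4
    · simp only [List.mem_cons, List.not_mem_nil, or_false] at ha
      rcases ha with rfl | rfl <;> simp [tl, h3]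
    · simp only [List.mem_cons, List.not_mem_nil, or_false] at ha
      rcases ha with rfl | rfl
      · simp only [tl, h4, Prod.mk.injEq, true_and]
        omega
      · simp only [tl, h4, Prod.mk.injEq, true_and]
        omega
    · simp only [List.mem_cons, List.not_mem_nil, or_false] at ha
      rcases ha with rfl | rfl | rfl
      · simp [tl]
      · simp only [tl, Prod.mk.injEq, true_and]
        omega
      · simp only [tl, Prod.mk.injEq, true_and]
        omega
  · simp [outs] at ha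
    rcases ha with rfl | rfl | rfl <;> simp [tl]
  · simp [outs] at ha
    subst ha
    simp [tl]
  · simp [outs] at ha
    subst ha
    simp [tl]
  · simp only [outs] at ha
    norm_num at ha
    split_ifs at ha with h3
    · simp only [List.mem_cons, List.not_mem_nil, or_false] at ha
      rcases ha with rfl | rfl
      · simp [tl, h3]
      · simp [tl, h3]
    · simp only [List.mem_cons, List.not_mem_nil, or_false] at ha
      rcases ha with rfl | rfl
      · simp [tl]
      · simp [tl]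
  · have h3 : z = 0 := by omega
    subst h3
    interval_cases y
    · simp [outs] at ha
      rcases ha with rfl | rfl <;> simp [tl]
    · simp [outs] at ha
      rcases ha with rfl | rfl <;> simp [tl]
    · simp [outs] at ha
      subst ha
      simp [tl]
    · simp [outs, SL] at ha
      obtain ⟨x, y, z⟩ := a
      simp only [Prod.mk.injEq] at ha
      rcases ha with ⟨rfl, _⟩ | ⟨rfl, _⟩ | ⟨rfl, rfl, rfl⟩ <;> simp [tl]
    · simp [outs] at ha
      subst ha
      simp [tl]

end Pool.Agent.Helper45.SQP
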