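import Pool.Agent.Helper45.SQP.Net

/-!
# The network: the constraint matrix
-/

namespace Pool.Agent.Helper45.SQP

open Matrix

theorem mem_names {K L : ℕ} {a : Nm} : a ∈ names K L ↔
    (a.1 = 0 ∧ a.2.1 < K ∧ a.2.2 < L) ∨ (a.1 = 1 ∧ a.2.1 < K ∧ a.2.2 < L) ∨
    (a.1 = 2 ∧ a.2.1 < K ∧ a.2.2 < L) ∨ (a.1 = 3 ∧ a.2.1 < K ∧ a.2.2 < L) ∨
    (a.1 = 4 ∧ a.2.1 < K ∧ a.2.2 < L) ∨ (a.1 = 5 ∧ a.2.1 < K ∧ a.2.2 < L + 1) ∨
    (a.1 = 6 ∧ a.2.1 < K ∧ a.2.2 < L + 1) ∨ (a.1 = 7 ∧ a.2.1 < K ∧ a.2.2 < L) ∨
    (a.1 = 8 ∧ a.2.1 < K ∧ a.2.2 < L) ∨ (a.1 = 9 ∧ a.2.1 < K ∧ a.2.2 < L) ∨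
    (a.1 = 10 ∧ a.2.1 < K ∧ a.2.2 < L + 1) ∨ (a.1 = 11 ∧ a.2.1 < K ∧ a.2.2 < L + 1) ∨
    (a.1 = 12 ∧ a.2.1 < K + 1 ∧ a.2.2 < 1) ∨ (a.1 = 13 ∧ a.2.1 < 6 ∧ a.2.2 < 1) := by
  simp only [names, List.mem_append, mem_fam, or_assoc]

theorem TL_sub (K L : ℕ) : TL K L ⊆ names K L := by
  intro a ha
  rw [mem_names]
  simp only [TL, List.mem_append, mem_fam, List.mem_cons, List.not_mem_nil, or_false] at ha
  obtain ⟨x, y, z⟩ := a
  simp only [Prod.mk.injEq] at ha ⊢
  rcases ha with ((⟨rfl, h1, h2⟩ | ⟨rfl, h1, h2⟩) | ⟨rfl, h1, h2⟩) | ⟨rfl, rfl, rfl⟩ |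
    ⟨rfl, rfl, rfl⟩
  · simp [h1, h2]
  · simp [h1, h2]
  · simp [h1, h2]
  · simp
  · simp

theorem SL_sub (K L : ℕ) : SL K L ⊆ names K L := by
  intro a ha
  rw [mem_names]
  simp only [SL, List.mem_append, mem_fam, List.mem_cons, List.not_mem_nil, or_false] at ha
  obtain ⟨x, y, z⟩ := a
  simp only [Prod.mk.injEq] at ha ⊢
  rcases ha with (⟨rfl, h1, h2⟩ | ⟨rfl, h1, h2⟩) | ⟨rfl, rfl, rfl⟩
  · simp [h1, h2]
  · simp [h1, h2]
  · simp

theorem ins_sub {K L : ℕ} (hL : 1 ≤ L) {v : Nm} (hv : v ∈ nodes K L) : ins K L v ⊆ names K L := by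
  intro a ha
  obtain ⟨x, y, z⟩ := v
  rw [mem_nodes] at hv
  simp only at hv
  rcases hv with ⟨rfl, h1, h2⟩ | ⟨rfl, h1, h2⟩ | ⟨rfl, h1, h2⟩ | ⟨rfl, h1, h2⟩ | ⟨rfl, h1, h2⟩ |
    ⟨rfl, h1, h2⟩
  · simp only [ins, if_true] at ha
    split_ifs at ha with h3
    · simp only [List.mem_singleton] at ha
      subst ha
      rw [mem_names]; simp; omega
    · simp only [List.mem_singleton] at ha
      subst ha
      rw [mem_names]; simp; omega
  · simp only [ins, one_ne_zero, if_true, if_false, List.mem_singleton] at ha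
    subst ha
    rw [mem_names]; simp; omega
  · simp [ins] at ha
    rcases ha with rfl | rfl <;> · rw [mem_names]; simp; omega
  · simp [ins] at ha
    rcases ha with rfl | rfl <;> · rw [mem_names]; simp; omega
  · simp only [ins] at ha
    norm_num at ha
    split_ifs at ha with h3 h4
    · simp only [List.mem_cons, List.not_mem_nil, or_false] at ha
      rcases ha with rfl | rfl <;> · rw [mem_names]; simp; omega
    · simp only [List.mem_cons, List.not_mem_nil, or_false] at ha
      rcases ha with rfl | rfl <;> · rw [mem_names]; simp; omega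
    · simp only [List.mem_cons, List.not_mem_nil, or_false] at ha
      rcases ha with rfl | rfl | rfl <;> · rw [mem_names]; simp; omega
  · have h3 : z = 0 := by omega
    subst h3
    interval_cases y
    · simp [ins] at ha
      subst ha
      rw [mem_names]; simp
    · simp [ins] at ha
      subst ha
      rw [mem_names]; simp
    · simp [ins] at ha
      rcases ha with rfl | rfl <;> · rw [mem_names]; simp
    · simp [ins] at ha
      subst ha
      rw [mem_names]; simp
    · simp [ins] at ha
      exact TL_sub K L ha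

theorem outs_sub {K L : ℕ} (hL : 1 ≤ L) {v : Nm} (hv : v ∈ nodes K L) :
    outs K L v ⊆ names K L := by
  intro a ha
  obtain ⟨x, y, z⟩ := v
  rw [mem_nodes] at hv
  simp only at hv
  rcases hv with ⟨rfl, h1, h2⟩ | ⟨rfl, h1, h2⟩ | ⟨rfl, h1, h2⟩ | ⟨rfl, h1, h2⟩ | ⟨rfl, h1, h2⟩ |
    ⟨rfl, h1, h2⟩
  · simp only [outs, if_true] at ha
    split_ifs at ha with h3 h4
    · simp only [List.mem_cons, List.not_mem_nil, or_false] at ha
      rcases ha with rfl | rfl <;> · rw [mem_names]; simp; omega
    · simp only [List.mem_cons, List.not_mem_nil, or_false] at ha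
      rcases ha with rfl | rfl <;> · rw [mem_names]; simp; omega
    · simp only [List.mem_cons, List.not_mem_nil, or_false] at ha
      rcases ha with rfl | rfl | rfl <;> · rw [mem_names]; simp; omega
  · simp [outs] at ha
    rcases ha with rfl | rfl | rfl <;> · rw [mem_names]; simp; omega
  · simp [outs] at ha
    subst ha
    rw [mem_names]; simp; omega
  · simp [outs] at ha
    subst ha
    rw [mem_names]; simp; omega
  · simp only [outs] at ha
    norm_num at ha
    split_ifs at ha with h3
    · simp only [List.mem_cons, List.not_mem_nil, or_false] at ha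
      rcases ha with rfl | rfl <;> · rw [mem_names]; simp; omega
    · simp only [List.mem_cons, List.not_mem_nil, or_false] at ha
      rcases ha with rfl | rfl <;> · rw [mem_names]; simp; omega
  · have h3 : z = 0 := by omega
    subst h3
    interval_cases y
    · simp [outs] at ha
      rcases ha with rfl | rfl <;> · rw [mem_names]; simp
    · simp [outs] at ha
      rcases ha with rfl | rfl <;> · rw [mem_names]; simp
    · simp [outs] at ha
      subst ha
      rw [mem_names]; simp
    · simp [outs] at ha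
      exact SL_sub K L ha
    · simp [outs] at ha
      subst ha
      rw [mem_names]; simp

theorem nodup_SL (K L : ℕ) : (SL K L).Nodup := by
  unfold SL
  have h1 : TagLt 8 ([] ++ fam K L 7) := (tagLt_nil 7).append _ _
  have h2 : TagLt 12 ([] ++ fam K L 7 ++ fam K (L + 1) 11) :=
    TagLt.append (t := 11) ⟨h1.1, fun a ha => (h1.2 a ha).trans (by norm_num)⟩ _ _
  rw [List.nil_append] at h2
  refine List.Nodup.append h2.1 (List.nodup_singleton _) ?_
  rw [List.disjoint_left]
  intro a ha hb
  have := h2.2 a ha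
  rw [List.mem_singleton] at hb
  subst hb
  simp at this

theorem nodup_TL (K L : ℕ) : (TL K L).Nodup := by
  unfold TL
  have h2 : TagLt 11 ([] ++ fam K L 8 ++ fam K L 9 ++ fam K (L + 1) 10) :=
    (((tagLt_nil 8).append _ _).append _ _).append _ _
  rw [List.nil_append] at h2
  refine List.Nodup.append h2.1 (by simp) ?_
  rw [List.disjoint_left]
  intro a ha hb
  have := h2.2 a ha
  simp only [List.mem_cons, List.not_mem_nil, or_false] at hb
  rcases hb with rfl | rfl <;> simp at this

theorem nodup_ins {K L : ℕ} (v : Nm) : (ins K L v).Nodup := by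
  unfold ins
  split_ifs <;> first | exact nodup_TL K L | simp

theorem nodup_outs {K L : ℕ} (v : Nm) : (outs K L v).Nodup := by
  unfold outs
  split_ifs <;> first | exact nodup_SL K L | simp

/-- Sum over a sublist. -/
theorem sum_indicator {l s : List Nm} (hl : l.Nodup) (hs : s.Nodup) (h : s ⊆ l) (X : Nm → ℤ) :
    (l.map fun a => (if a ∈ s then 1 else 0) * X a).sum = (s.map X).sum := by
  classical
  rw [← List.sum_toFinset _ hl, ← List.sum_toFinset _ hs]
  simp only [ite_mul, one_mul, zero_mul]
  rw [← Finset.sum_filter]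
  refine Finset.sum_congr ?_ fun _ _ => rfl
  ext a
  simp only [Finset.mem_filter, List.mem_toFinset]
  exact ⟨fun h => h.2, fun ha => ⟨h ha, ha⟩⟩

theorem sum_ent {K L : ℕ} (hL : 1 ≤ L) {v : Nm} (hv : v ∈ nodes K L) (X : Nm → ℤ) :
    ((names K L).map fun a => ent K L v a * X a).sum =
      ((ins K L v).map X).sum - ((outs K L v).map X).sum := by
  rw [← sum_indicator (nodup_names K L) (nodup_ins v) (ins_sub hL hv) X,
    ← sum_indicator (nodup_names K L) (nodup_outs v) (outs_sub hL hv) X]
  generalize names K L = l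
  induction l with
  | nil => simp
  | cons a l ih =>
    rw [List.map_cons, List.sum_cons, ih, List.map_cons, List.sum_cons, List.map_cons,
      List.sum_cons]
    unfold ent
    ring

/-- the names of the rows -/
def rowD (K L : ℕ) : List (ℕ × Nm) :=
  (nodes K L).map (fun v => (0, v)) ++ (nodes K L).map (fun v => (1, v)) ++
    (names K L).map (fun a => (2, a))

/-- the coefficients of the rows -/
def coef (K L : ℕ) (r : ℕ × Nm) (a : Nm) : ℤ :=
  if r.1 = 0 then ent K L r.2 a else if r.1 = 1 then -ent K L r.2 a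
  else if a = r.2 then -1 else 0

/-- the constraint matrix -/
def netW (K L : ℕ) : Matrix (Fin (rowD K L).length) (Fin (names K L).length) ℤ :=
  fun i j => coef K L ((rowD K L).get i) ((names K L).get j)

theorem ent_val {K L : ℕ} {v a : Nm} : ent K L v a = 0 ∨ ent K L v a = 1 ∨ ent K L v a = -1 := by
  unfold ent
  split_ifs <;> simp

theorem ent_one {K L : ℕ} {v a : Nm} (h : ent K L v a = 1) : a ∈ ins K L v := by
  by_contra h1
  unfold ent at h
  rw [if_neg h1] at h
  split_ifs at h <;> simp at h

theorem ent_neg {K L : ℕ} {v a : Nm} (h : ent K L v a = -1) : a ∈ outs K L v := by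
  by_contra h1
  unfold ent at h
  rw [if_neg h1] at h
  split_ifs at h <;> simp at h

theorem coef_zero {K L : ℕ} {r : ℕ × Nm} (h : r.1 = 0) (a : Nm) :
    coef K L r a = ent K L r.2 a := by
  unfold coef
  rw [if_pos h]

theorem coef_one {K L : ℕ} {r : ℕ × Nm} (h : r.1 = 1) (a : Nm) :
    coef K L r a = -ent K L r.2 a := by
  unfold coef
  rw [if_neg (by omega), if_pos h]

theorem coef_two {K L : ℕ} {r : ℕ × Nm} (h : r.1 = 2) (a : Nm) :
    coef K L r a = -(if a = r.2 then 1 else 0) := by
  unfold coef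
  rw [if_neg (by omega), if_neg (by omega)]
  split_ifs <;> rfl

theorem netW_tu {K L : ℕ} (hL : 1 ≤ L) : (netW K L).IsTotallyUnimodular := by
  classical
  set A : Matrix {v // v ∈ nodes K L} (Fin (names K L).length) ℤ :=
    fun v j => ent K L v.1 ((names K L).get j) with hA
  have hAtu : A.IsTotallyUnimodular := by
    refine isTU_of_incidence A (fun _ _ => ent_val) ?_ ?_
    · intro j v v' h h'
      apply Subtype.ext
      rw [← ins_hd hL v.2 (ent_one h), ← ins_hd hL v'.2 (ent_one h')]
    · intro j v v' h h'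
      apply Subtype.ext
      rw [← outs_tl hL v.2 (ent_neg h), ← outs_tl hL v'.2 (ent_neg h')]
  set E : Matrix {a // a ∈ names K L} (Fin (names K L).length) ℤ :=
    fun a j => if (names K L).get j = a.1 then 1 else 0 with hE
  have hB : (fromRows A E).IsTotallyUnimodular := by
    refine hAtu.fromRows_unitlike ?_
    rintro _ ⟨a, ha⟩
    obtain ⟨j, hj⟩ := List.mem_iff_get.1 ha
    refine ⟨j, 1, ?_⟩
    funext i
    simp only [hE, Pi.single_apply, SignType.coe_one]
    subst hj
    have hinj : Function.Injective (names K L).get :=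
      List.nodup_iff_injective_get.1 (nodup_names K L)
    by_cases h : i = j
    · rw [if_pos (by rw [h]), if_pos h]
    · rw [if_neg (fun h' => h (hinj h')), if_neg h]
  have hmem : ∀ i : Fin (rowD K L).length,
      (((rowD K L).get i).1 = 0 ∧ ((rowD K L).get i).2 ∈ nodes K L) ∨
      (((rowD K L).get i).1 = 1 ∧ ((rowD K L).get i).2 ∈ nodes K L) ∨
      (((rowD K L).get i).1 = 2 ∧ ((rowD K L).get i).2 ∈ names K L) := by
    intro i
    have := List.get_mem (rowD K L) i
    generalize (rowD K L).get i = r at *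
    simp only [rowD, List.mem_append, List.mem_map] at this
    rcases this with (⟨v, hv, rfl⟩ | ⟨v, hv, rfl⟩) | ⟨v, hv, rfl⟩
    · exact Or.inl ⟨rfl, hv⟩
    · exact Or.inr (Or.inl ⟨rfl, hv⟩)
    · exact Or.inr (Or.inr ⟨rfl, hv⟩)
  have hex : ∀ i : Fin (rowD K L).length, ∃ (ρ : {v // v ∈ nodes K L} ⊕ {a // a ∈ names K L})
      (s : ℤ), (s = 1 ∨ s = -1) ∧ ∀ j, netW K L i j = s * (fromRows A E) ρ j := by
    intro i
    rcases hmem i with ⟨h1, h2⟩ | ⟨h1, h2⟩ | ⟨h1, h2⟩
    · refine ⟨Sum.inl ⟨_, h2⟩, 1, Or.inl rfl, fun j => ?_⟩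
      have e1 : netW K L i j = ent K L ((rowD K L).get i).2 ((names K L).get j) := coef_zero h1 _
      rw [e1, one_mul, fromRows_apply_inl]
    · refine ⟨Sum.inl ⟨_, h2⟩, -1, Or.inr rfl, fun j => ?_⟩
      have e1 : netW K L i j = -ent K L ((rowD K L).get i).2 ((names K L).get j) := coef_one h1 _
      rw [e1, neg_one_mul, fromRows_apply_inl]
    · refine ⟨Sum.inr ⟨_, h2⟩, -1, Or.inr rfl, fun j => ?_⟩
      have e1 : netW K L i j =
          -(if (names K L).get j = ((rowD K L).get i).2 then 1 else 0) := coef_two h1 _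
      rw [e1, neg_one_mul, fromRows_apply_inr]
  choose ρ s hs hW using hex
  exact isTU_signed hB _ ρ s hs hW

/-- The meaning of the constraints. -/
theorem feasible_iff {K L : ℕ} (hL : 1 ≤ L) (X : Nm → ℤ) :
    (∀ i, ((netW K L).mulVec fun j => X ((names K L).get j)) i ≤ 0) ↔
      (∀ v ∈ nodes K L, ((ins K L v).map X).sum = ((outs K L v).map X).sum) ∧
        ∀ a ∈ names K L, 0 ≤ X a := by
  have hsum : ∀ r : ℕ × Nm, ∑ j : Fin (names K L).length,
      coef K L r ((names K L).get j) * X ((names K L).get j) =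
      ((names K L).map fun a => coef K L r a * X a).sum := by
    intro r
    rw [← List.sum_ofFn]
    congr 1
    conv_rhs => rw [← List.ofFn_get (names K L)]
    rw [List.map_ofFn]
    rfl
  have h0 : (∀ i, ((netW K L).mulVec fun j => X ((names K L).get j)) i ≤ 0) ↔
      ∀ r ∈ rowD K L, ((names K L).map fun a => coef K L r a * X a).sum ≤ 0 := by
    constructor
    · intro h r hr
      obtain ⟨i, hi⟩ := List.mem_iff_get.1 hr
      have := h i
      simp only [mulVec, dotProduct, netW] at this
      rwa [hi, hsum] at this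
    · intro h i
      simp only [mulVec, dotProduct, netW]
      rw [hsum]
      exact h _ (List.get_mem _ _)
  rw [h0]
  have hneg : ∀ v, ((names K L).map fun a => coef K L (1, v) a * X a).sum =
      -((names K L).map fun a => ent K L v a * X a).sum := by
    intro v
    generalize names K L = l
    induction l with
    | nil => simp
    | cons a l ih =>
      rw [List.map_cons, List.sum_cons, ih, List.map_cons, List.sum_cons]
      have h1 : coef K L (1, v) a = -ent K L v a := rfl
      rw [h1]
      ring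
  have hunit : ∀ b ∈ names K L, ((names K L).map fun a => coef K L (2, b) a * X a).sum =
      -X b := by
    intro b hb
    have h1 := sum_indicator (nodup_names K L) (List.nodup_singleton b)
      (List.cons_subset.2 ⟨hb, List.nil_subset _⟩) X
    rw [List.map_singleton, List.sum_singleton] at h1
    rw [← h1]
    clear h1
    generalize names K L = l
    induction l with
    | nil => simp
    | cons a l ih =>
      rw [List.map_cons, List.sum_cons, ih, List.map_cons, List.sum_cons]
      have h2 : coef K L (2, b) a = if a = b then -1 else 0 := rfl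
      rw [h2]
      simp only [List.mem_singleton]
      split_ifs <;> ring
  constructor
  · intro h
    refine ⟨fun v hv => ?_, fun a ha => ?_⟩
    · have h1 := h (0, v) (by simp [rowD, hv])
      have h2 := h (1, v) (by simp [rowD, hv])
      have e1 : ((names K L).map fun a => coef K L (0, v) a * X a) =
          (names K L).map fun a => ent K L v a * X a := by simp [coef]
      rw [e1, sum_ent hL hv] at h1
      rw [hneg, sum_ent hL hv] at h2
      omega
    · have h1 := h (2, a) (by simp [rowD, ha])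
      rw [hunit a ha] at h1
      omega
  · rintro ⟨h1, h2⟩ r hr
    simp only [rowD, List.mem_append, List.mem_map] at hr
    rcases hr with (⟨v, hv, rfl⟩ | ⟨v, hv, rfl⟩) | ⟨a, ha, rfl⟩
    · have e1 : ((names K L).map fun a => coef K L (0, v) a * X a) =
          (names K L).map fun a => ent K L v a * X a := by simp [coef]
      rw [e1, sum_ent hL hv, h1 v hv]
      omega
    · rw [hneg, sum_ent hL hv, h1 v hv]
      omega
    · rw [hunit a ha]
      have := h2 a ha
      omega

end Pool.Agent.Helper45.SQP
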