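import Pool.Agent.Helper45.SQP.Par

/-!
# The instance, its cone, and the objective as a sum
-/

namespace Pool.Agent.Helper45.SQP

open Finset

theorem length_names_pos (K L : ℕ) : 1 ≤ (names K L).length := by
  have h : ((13, 0, 0) : Nm) ∈ names K L := by rw [mem_names]; simp
  exact List.length_pos_of_mem h

theorem length_rowD_pos (K L : ℕ) : 1 ≤ (rowD K L).length := by
  have h : ((5, 0, 0) : Nm) ∈ nodes K L := by rw [mem_nodes]; simp
  have h2 : ((0, (5, 0, 0)) : ℕ × Nm) ∈ rowD K L := by simp [rowD, h]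
  exact List.length_pos_of_mem h2

namespace Par

theorem not_isC_isV (a : Nm) : ¬ (isC a = true ∧ isV a = true) := by
  unfold isC isV isR
  split_ifs <;> simp_all

end Par

/-- An instance whose variables are named by the elements of a list, with `w = 0`, `h = 0`. -/
def mkInst (l : List Nm) (hl : 1 ≤ l.length) (r : ℕ) (hr : 1 ≤ r)
    (W : Matrix (Fin r) (Fin l.length) ℤ) (c v : Nm → Bool)
    (hcv : ∀ a, ¬ (c a = true ∧ v a = true)) (q : Nm → ℕ)
    (hq : ∀ a ∈ l, c a = true ∨ v a = true → 0 < q a) : Inst where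
  m := r
  n := l.length
  m_pos := hr
  n_pos := hl
  W := W
  w := fun _ => 0
  h := fun _ => 0
  C := univ.filter fun j => c (l.get j) = true
  V := univ.filter fun j => v (l.get j) = true
  disj := by
    rw [Finset.disjoint_left]
    intro j hj hj'
    rw [mem_filter] at hj hj'
    exact hcv _ ⟨hj.2, hj'.2⟩
  q := fun j => q (l.get j)
  q_pos := by
    intro j hj
    rw [mem_union, mem_filter, mem_filter] at hj
    exact hq _ (List.get_mem _ _) (hj.imp (fun h => h.2) fun h => h.2)

theorem mkInst_f (l : List Nm) (hl : 1 ≤ l.length) (r : ℕ) (hr : 1 ≤ r)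
    (W : Matrix (Fin r) (Fin l.length) ℤ) (c v : Nm → Bool)
    (hcv : ∀ a, ¬ (c a = true ∧ v a = true)) (q : Nm → ℕ)
    (hq : ∀ a ∈ l, c a = true ∨ v a = true → 0 < q a) (X : Nm → ℤ) :
    (mkInst l hl r hr W c v hcv q hq).f (fun j : Fin l.length => X (l.get j)) =
      (l.map fun a => (if c a = true then (q a : ℤ) else if v a = true then -q a else 0) *
        X a ^ 2).sum := by
  have hsum : (l.map fun a => (if c a = true then (q a : ℤ) else
      if v a = true then -q a else 0) * X a ^ 2).sum =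
      ∑ j : Fin l.length, (if c (l.get j) = true then (q (l.get j) : ℤ) else
      if v (l.get j) = true then -q (l.get j) else 0) * X (l.get j) ^ 2 := by
    rw [← List.sum_ofFn]
    congr 1
    conv_lhs => rw [← List.ofFn_get l]
    rw [List.map_ofFn]
    rfl
  rw [hsum]
  change ∑ j ∈ univ.filter (fun j => c (l.get j) = true),
      (q (l.get j) : ℤ) * X (l.get j) ^ 2 -
    ∑ j ∈ univ.filter (fun j => v (l.get j) = true),
      (q (l.get j) : ℤ) * X (l.get j) ^ 2 +
    ∑ j : Fin l.length, (0 : ℤ) * X (l.get j) = _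
  rw [sum_filter, sum_filter]
  simp only [zero_mul, sum_const_zero, add_zero]
  rw [← sum_sub_distrib]
  refine sum_congr rfl fun j _ => ?_
  have h := hcv (l.get j)
  by_cases h1 : c (l.get j) = true
  · have h2 : ¬ v (l.get j) = true := fun h2 => h ⟨h1, h2⟩
    rw [if_pos h1, if_neg h2, if_pos h1]
    ring
  · by_cases h2 : v (l.get j) = true
    · rw [if_neg h1, if_pos h2, if_neg h1, if_pos h2]
      ring
    · rw [if_neg h1, if_neg h2, if_neg h1, if_neg h2]
      ring

theorem mkInst_card (l : List Nm) (hl : 1 ≤ l.length) (r : ℕ) (hr : 1 ≤ r)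
    (W : Matrix (Fin r) (Fin l.length) ℤ) (c v : Nm → Bool)
    (hcv : ∀ a, ¬ (c a = true ∧ v a = true)) (q : Nm → ℕ)
    (hq : ∀ a ∈ l, c a = true ∨ v a = true → 0 < q a) (hn : l.Nodup) (s : Finset Nm)
    (hs : ∀ a ∈ l, v a = true → a ∈ s) :
    (mkInst l hl r hr W c v hcv q hq).V.card ≤ s.card := by
  refine card_le_card_of_injOn (fun j : Fin l.length => l.get j) ?_
    ((List.nodup_iff_injective_get.1 hn).injOn)
  intro j hj
  have hj' : v (l.get j) = true := by
    have h1 : (j : Fin l.length) ∈ univ.filter (fun j => v (l.get j) = true) := hj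
    exact (mem_filter.1 h1).2
  exact hs _ (List.get_mem _ _) hj'

namespace Par

/-- The instance. -/
def inst (P : Par) (hP : P.Good) : Inst :=
  mkInst (names P.K P.L) (length_names_pos _ _) (rowD P.K P.L).length (length_rowD_pos _ _)
    (netW P.K P.L) isC isV not_isC_isV P.q fun _ ha h => hP.q_pos ha h

variable {P : Par}

/-- The point with the given coordinates. -/
def pt (P : Par) (hP : P.Good) (X : Nm → ℤ) : Fin (P.inst hP).n → ℤ :=
  fun j : Fin (names P.K P.L).length => X ((names P.K P.L).get j)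

theorem inst_w (hP : P.Good) : (P.inst hP).w = 0 := rfl

theorem inst_h (hP : P.Good) : (P.inst hP).h = 0 := rfl

theorem inst_f (hP : P.Good) (X : Nm → ℤ) :
    (P.inst hP).f (P.pt hP X) = ((names P.K P.L).map fun a => P.cur a * X a ^ 2).sum :=
  mkInst_f _ _ _ _ _ _ _ _ _ _ X

theorem exists_pt (hP : P.Good) (x : Fin (P.inst hP).n → ℤ) : ∃ X : Nm → ℤ, P.pt hP X = x :=
  ⟨Function.extend (names P.K P.L).get x 0, funext fun j =>
    (List.nodup_iff_injective_get.1 (nodup_names P.K P.L)).extend_apply _ _ j⟩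

theorem card_V (hP : P.Good) : (P.inst hP).V.card ≤ 2 := by
  refine (mkInst_card _ _ _ _ _ _ _ _ _ _ (nodup_names P.K P.L)
    {((12, 0, 0) : Nm), ((13, 0, 0) : Nm)} ?_).trans card_le_two
  intro a hm hj'
  obtain ⟨x, y, z⟩ := a
  rw [mem_names] at hm
  simp only [isV] at hj'
  simp only at hm
  split_ifs at hj' with h1 h2 h3 h4
  · subst h1; subst h2
    have : z = 0 := by omega
    subst this
    simp
  · subst h3; subst h4
    have : z = 0 := by omega
    subst this
    simp

theorem inst_TU (hP : P.Good) : (P.inst hP).W.IsTotallyUnimodular := netW_tu hP.L_pos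

/-- Feasibility. -/
theorem mem_feasible (hP : P.Good) (X : Nm → ℤ) :
    P.pt hP X ∈ (P.inst hP).feasible ↔
      (∀ v ∈ nodes P.K P.L, ((ins P.K P.L v).map X).sum = ((outs P.K P.L v).map X).sum) ∧
        ∀ a ∈ names P.K P.L, 0 ≤ X a := feasible_iff hP.L_pos X

theorem pt_zero (hP : P.Good) : P.pt hP (fun _ => 0) = 0 := rfl

theorem zero_mem (hP : P.Good) : (0 : Fin (P.inst hP).n → ℤ) ∈ (P.inst hP).feasible := by
  rw [← pt_zero, mem_feasible]
  exact ⟨fun v _ => by simp, fun a _ => le_rfl⟩

theorem f_zero (hP : P.Good) : (P.inst hP).f 0 = 0 := by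
  rw [← pt_zero, inst_f]
  simp

theorem unbounded_iff (hP : P.Good) : (P.inst hP).UnboundedBelow ↔
    ∃ X : Nm → ℤ, (∀ v ∈ nodes P.K P.L,
      ((ins P.K P.L v).map X).sum = ((outs P.K P.L v).map X).sum) ∧
        (∀ a ∈ names P.K P.L, 0 ≤ X a) ∧
        ((names P.K P.L).map fun a => P.cur a * X a ^ 2).sum < 0 := by
  constructor
  · intro h
    obtain ⟨x, hx, hfx⟩ := h 0
    obtain ⟨X, rfl⟩ := exists_pt hP x
    obtain ⟨h1, h2⟩ := (mem_feasible hP X).1 hx
    rw [inst_f] at hfx
    exact ⟨X, h1, h2, hfx⟩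
  · rintro ⟨X, h1, h2, h3⟩ M
    set s := ((names P.K P.L).map fun a => P.cur a * X a ^ 2).sum with hs
    set t : ℤ := |M| + 1 with ht
    have ht1 : 1 ≤ t := by have := abs_nonneg M; omega
    refine ⟨P.pt hP (fun a => t * X a), ?_, ?_⟩
    · rw [mem_feasible]
      constructor
      · intro v hv
        have h4 := h1 v hv
        rw [List.sum_map_mul_left, List.sum_map_mul_left, h4]
      · intro a ha
        exact mul_nonneg (by omega) (h2 a ha)
    · rw [inst_f]
      have h4 : ((names P.K P.L).map fun a => P.cur a * (t * X a) ^ 2) =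
          (names P.K P.L).map fun a => t ^ 2 * (P.cur a * X a ^ 2) :=
        List.map_congr_left fun a _ => by ring
      rw [h4, List.sum_map_mul_left, ← hs]
      have h5 : -|M| ≤ M := neg_abs_le M
      nlinarith

end Par

end Pool.Agent.Helper45.SQP
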