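import Pool.Agent.Helper45.SQP.Par2

/-!
# The objective is nonnegative when no integer of the range is admissible
-/

namespace Pool.Agent.Helper45.SQP

open Finset

namespace Par

variable {P : Par}

theorem cur_zero {t : ℕ} (ht : t = 0 ∨ t = 1 ∨ t = 3 ∨ t = 4 ∨ t = 5 ∨ t = 6) (k i : ℕ) :
    P.cur (t, k, i) = 0 := by
  rcases ht with rfl | rfl | rfl | rfl | rfl | rfl <;> simp [cur, isC, isV, isR]

theorem cur_two (k i : ℕ) : P.cur (2, k, i) = (P.M0 : ℤ) ^ 2 * P.c k i := by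
  simp [cur, isC, isR, q]

theorem cur_rig {a : Nm} (ha : a ∈ SL P.K P.L ++ TL P.K P.L) :
    P.cur a = (P.M0 : ℤ) ^ 2 * P.H * ((P.D / P.bv a : ℕ) : ℤ) := by
  obtain ⟨x, y, z⟩ := a
  have h := mem_rig ha
  simp only [Prod.mk.injEq] at h
  rcases h with ⟨rfl, h1, h2⟩ | ⟨rfl, h1, h2⟩ | ⟨rfl, h1, h2⟩ | ⟨rfl, h1, h2⟩ | ⟨rfl, h1, h2⟩ |
    ⟨rfl, rfl, rfl⟩ | ⟨rfl, rfl, rfl⟩ | ⟨rfl, rfl, rfl⟩ <;> simp [cur, isC, isR, q]

theorem cur_main0 : P.cur (12, 0, 0) = -((P.M0 : ℤ) ^ 2 * (2 * P.B * P.K)) := by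
  simp [cur, isC, isV, isR, q]

theorem cur_main (k : ℕ) : P.cur (12, k + 1, 0) = 0 := by
  simp [cur, isC, isV, isR]

theorem cur_ret : P.cur (13, 0, 0) = -(P.q0 : ℤ) := by
  simp [cur, isC, isV, isR, q]

theorem cur_cost : P.cur (13, 2, 0) = (P.M0 : ℤ) ^ 2 * P.cN := by
  simp [cur, isC, isR, q]

theorem cur_byp : P.cur (13, 4, 0) = 0 := by
  simp [cur, isC, isV, isR]

/-- the term of a rigid arc -/
noncomputable def rt (P : Par) (x : Nm → ℝ) (a : Nm) : ℝ := (P.D : ℝ) / P.bv a * x a ^ 2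

theorem Good.cur_rig_real (hP : P.Good) {a : Nm} (ha : a ∈ SL P.K P.L ++ TL P.K P.L)
    (x : Nm → ℝ) : (P.cur a : ℝ) * x a ^ 2 = (P.M0 : ℝ) ^ 2 * (P.H * P.rt x a) := by
  have h1 : (P.bv a : ℝ) ≠ 0 := by exact_mod_cast (hP.bv_pos ha).ne'
  rw [cur_rig ha, Int.cast_mul, Int.cast_mul, Int.cast_pow, Int.cast_natCast, Int.cast_natCast,
    Int.cast_natCast, Nat.cast_div (bv_dvd ha) h1]
  unfold rt
  ring

theorem Good.total (hP : P.Good) (x : Nm → ℝ) :
    ((names P.K P.L).map fun a => (P.cur a : ℝ) * x a ^ 2).sum =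
      (P.M0 : ℝ) ^ 2 * (P.H * ((SL P.K P.L ++ TL P.K P.L).map (P.rt x)).sum +
        (∑ k ∈ range P.K, ∑ i ∈ range P.L, (P.c k i : ℝ) * x (2, k, i) ^ 2) +
        P.cN * x (13, 2, 0) ^ 2 - 2 * P.B * P.K * x (12, 0, 0) ^ 2) -
        P.q0 * x (13, 0, 0) ^ 2 := by
  set g : Nm → ℝ := fun a => (P.cur a : ℝ) * x a ^ 2 with hg
  have hr : ∀ a ∈ SL P.K P.L ++ TL P.K P.L, g a = (P.M0 : ℝ) ^ 2 * (P.H * P.rt x a) :=
    fun a ha => hP.cur_rig_real ha x
  have hrs : ((SL P.K P.L ++ TL P.K P.L).map g).sum =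
      (P.M0 : ℝ) ^ 2 * (P.H * ((SL P.K P.L ++ TL P.K P.L).map (P.rt x)).sum) := by
    rw [← List.sum_map_mul_left, ← List.sum_map_mul_left, List.map_congr_left hr]
  rw [List.map_append, List.sum_append, sum_SL, sum_TL] at hrs
  rw [sum_names]
  have z0 : ∀ t : ℕ, (t = 0 ∨ t = 1 ∨ t = 3 ∨ t = 4 ∨ t = 5 ∨ t = 6) → ∀ n,
      ∑ k ∈ range P.K, ∑ i ∈ range n, g (t, k, i) = 0 := by
    intro t ht n
    refine sum_eq_zero fun k _ => sum_eq_zero fun i _ => ?_
    simp only [hg, cur_zero ht, Int.cast_zero, zero_mul]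
  have e2 : ∑ k ∈ range P.K, ∑ i ∈ range P.L, g (2, k, i) =
      (P.M0 : ℝ) ^ 2 * ∑ k ∈ range P.K, ∑ i ∈ range P.L, (P.c k i : ℝ) * x (2, k, i) ^ 2 := by
    simp only [mul_sum]
    refine sum_congr rfl fun k _ => sum_congr rfl fun i _ => ?_
    simp only [hg, cur_two]
    push_cast
    ring
  have e12 : ∑ k ∈ range (P.K + 1), g (12, k, 0) =
      -((P.M0 : ℝ) ^ 2 * (2 * P.B * P.K * x (12, 0, 0) ^ 2)) := by
    rw [sum_range_succ']
    have h1 : ∑ k ∈ range P.K, g (12, k + 1, 0) = 0 :=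
      sum_eq_zero fun k _ => by simp only [hg, cur_main, Int.cast_zero, zero_mul]
    rw [h1]
    simp only [hg, cur_main0]
    push_cast
    ring
  have e13 : ∑ k ∈ range 6, g (13, k, 0) = -(P.q0 * x (13, 0, 0) ^ 2) + g (13, 1, 0) +
      (P.M0 : ℝ) ^ 2 * (P.cN * x (13, 2, 0) ^ 2) + g (13, 3, 0) + g (13, 5, 0) := by
    simp only [sum_range_succ, sum_range_zero]
    have h4 : g (13, 4, 0) = 0 := by simp only [hg, cur_byp, Int.cast_zero, zero_mul]
    have h0 : g (13, 0, 0) = -(P.q0 * x (13, 0, 0) ^ 2) := by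
      simp only [hg, cur_ret]
      push_cast
      ring
    have h2 : g (13, 2, 0) = (P.M0 : ℝ) ^ 2 * (P.cN * x (13, 2, 0) ^ 2) := by
      simp only [hg, cur_cost]
      push_cast
      ring
    rw [h4, h0, h2]
    ring
  rw [z0 0 (by tauto), z0 1 (by tauto), z0 3 (by tauto), z0 4 (by tauto), z0 5 (by tauto),
    z0 6 (by tauto), e2, e12, e13]
  linear_combination hrs

/-- Completing the squares on the rigid arcs. -/
theorem rt_sum {l : List Nm} {x : Nm → ℝ} {ω : ℝ} (hb : ∀ a ∈ l, (P.bv a : ℝ) ≠ 0)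
    (hx : (l.map x).sum = (l.map fun a => (P.bv a : ℝ)).sum * ω) :
    (l.map (P.rt x)).sum = P.D * (l.map fun a => (P.bv a : ℝ)).sum * ω ^ 2 +
      (l.map (P.rt fun a => x a - P.bv a * ω)).sum := by
  have h1 : ∀ l : List Nm, (∀ a ∈ l, (P.bv a : ℝ) ≠ 0) → (l.map (P.rt x)).sum =
      2 * P.D * ω * (l.map x).sum - P.D * ω ^ 2 * (l.map fun a => (P.bv a : ℝ)).sum +
      (l.map (P.rt fun a => x a - P.bv a * ω)).sum := by
    intro l
    induction l with
    | nil => intro _; simp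
    | cons a l ih =>
      intro h
      rw [List.map_cons, List.sum_cons, ih fun b hb => h b (List.mem_cons_of_mem _ hb)]
      simp only [List.map_cons, List.sum_cons]
      have h2 : (P.bv a : ℝ) ≠ 0 := h a List.mem_cons_self
      have h3 : P.rt x a = 2 * P.D * ω * x a - P.D * ω ^ 2 * P.bv a +
          P.rt (fun a => x a - P.bv a * ω) a := by
        unfold rt
        field_simp
        ring
      rw [h3]
      ring
  rw [h1 l hb, hx]
  ring

theorem cast_list_sum (l : List Nm) (f : Nm → ℕ) :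
    ((l.map f).sum : ℝ) = (l.map fun a => (f a : ℝ)).sum := by
  induction l with
  | nil => simp
  | cons a l ih => simp [ih]

/-- The real point satisfies the conservation laws. -/
structure Circ (P : Par) (x : Nm → ℝ) : Prop where
  nonneg : ∀ a ∈ names P.K P.L, 0 ≤ x a
  node : ∀ v ∈ nodes P.K P.L, ((ins P.K P.L v).map x).sum = ((outs P.K P.L v).map x).sum

theorem Circ.sums {x : Nm → ℝ} (hx : Circ P x) :
    ((SL P.K P.L).map x).sum = x (13, 0, 0) ∧ ((TL P.K P.L).map x).sum = x (13, 0, 0) := by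
  have h1 := hx.node (5, 3, 0) (by rw [mem_nodes]; simp)
  have h2 := hx.node (5, 4, 0) (by rw [mem_nodes]; simp)
  simp [ins, outs] at h1 h2
  exact ⟨h1.symm, h2⟩

theorem Good.rig_sum (hP : P.Good) {x : Nm → ℝ} (hx : Circ P x) {ω : ℝ}
    (hω : x (13, 0, 0) = P.M0 * ω) : ((SL P.K P.L ++ TL P.K P.L).map (P.rt x)).sum =
      2 * P.D * P.M0 * ω ^ 2 +
        ((SL P.K P.L ++ TL P.K P.L).map (P.rt fun a => x a - P.bv a * ω)).sum := by
  have hb : ∀ a ∈ SL P.K P.L ++ TL P.K P.L, (P.bv a : ℝ) ≠ 0 := fun a ha => by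
    exact_mod_cast (hP.bv_pos ha).ne'
  obtain ⟨h1, h2⟩ := hx.sums
  have h3 : ((SL P.K P.L).map fun a => (P.bv a : ℝ)).sum = P.M0 := by
    rw [← cast_list_sum]; rfl
  have h4 : ((TL P.K P.L).map fun a => (P.bv a : ℝ)).sum = P.M0 := by
    rw [← cast_list_sum, hP.sum_TL_bv]
  rw [rt_sum hb (ω := ω)]
  · rw [List.map_append (f := fun a => (P.bv a : ℝ)), List.sum_append, h3, h4]
    ring
  · rw [List.map_append, List.sum_append, List.map_append, List.sum_append, h1, h2, h3, h4, hω]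
    ring

theorem Good.rigid_close (hP : P.Good) (z : Nm → ℝ) :
    0 ≤ ((SL P.K P.L ++ TL P.K P.L).map (P.rt z)).sum ∧
    ∀ a ∈ SL P.K P.L ++ TL P.K P.L,
      |z a| ≤ Real.sqrt ((SL P.K P.L ++ TL P.K P.L).map (P.rt z)).sum := by
  have hnn : ∀ a ∈ SL P.K P.L ++ TL P.K P.L, 0 ≤ P.rt z a := fun a _ => by
    unfold rt
    positivity
  refine ⟨List.sum_nonneg ?_, fun a ha => Real.abs_le_sqrt ?_⟩
  · intro y hy
    rw [List.mem_map] at hy
    obtain ⟨a, ha, rfl⟩ := hy
    exact hnn a ha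
  · have h1 : P.rt z a ≤ ((SL P.K P.L ++ TL P.K P.L).map (P.rt z)).sum := by
      apply List.single_le_sum
      · intro y hy
        rw [List.mem_map] at hy
        obtain ⟨a, ha, rfl⟩ := hy
        exact hnn a ha
      · exact List.mem_map_of_mem ha
    refine le_trans ?_ h1
    have h2 : (0 : ℝ) < P.bv a := by exact_mod_cast hP.bv_pos ha
    have h3 : (P.bv a : ℝ) ≤ P.D := by exact_mod_cast Nat.le_of_dvd hP.D_pos (bv_dvd ha)
    have h4 : 1 ≤ (P.D : ℝ) / P.bv a := by rwa [le_div_iff₀ h2, one_mul]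
    unfold rt
    nlinarith [sq_nonneg (z a)]

theorem Good.flow (hP : P.Good) {x : Nm → ℝ} (hx : Circ P x) {ω η : ℝ}
    (hr : ∀ a ∈ SL P.K P.L ++ TL P.K P.L, |x a - P.bv a * ω| ≤ η) {k : ℕ} (hk : k < P.K) :
    Flow P.L P.B ω η (fun i => 2 ^ i * (P.m k : ℝ)) (fun i => (P.ub k i : ℝ))
      (fun i => x (0, k, i)) (fun i => x (1, k, i)) (fun i => x (2, k, i))
      (fun i => x (3, k, i)) (fun i => x (4, k, i)) (fun i => x (5, k, i))
      (fun i => x (6, k, i)) (fun i => x (7, k, i)) (fun i => x (8, k, i))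
      (fun i => x (9, k, i)) (fun i => x (10, k, i)) (fun i => x (11, k, i))
      (x (12, k, 0)) (x (12, k + 1, 0)) where
  a0 := by
    have hL := hP.L_pos
    have h := hx.node (0, k, 0) (by rw [mem_nodes]; simp; omega)
    have h0 : ¬ (0 = P.L) := by omega
    simpa [ins, outs, h0] using h
  a := by
    intro i h0 h1
    have h := hx.node (0, k, i) (by rw [mem_nodes]; simp; omega)
    have h2 : i ≠ P.L := by omega
    have h3 : i ≠ 0 := by omega
    simpa [ins, outs, h2, h3, add_assoc] using h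
  aL := by
    have hL := hP.L_pos
    have h := hx.node (0, k, P.L) (by rw [mem_nodes]; simp; omega)
    have h3 : P.L ≠ 0 := by omega
    simpa [ins, outs, h3] using h
  a' := by
    intro i h1
    have h := hx.node (1, k, i) (by rw [mem_nodes]; simp; omega)
    simpa [ins, outs, add_assoc] using h
  w := by
    intro i h1
    have h := hx.node (2, k, i) (by rw [mem_nodes]; simp; omega)
    simpa [ins, outs] using h
  w' := by
    intro i h1
    have h := hx.node (3, k, i) (by rw [mem_nodes]; simp; omega)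
    simpa [ins, outs] using h
  t0 := by
    have hL := hP.L_pos
    have h := hx.node (4, k, 0) (by rw [mem_nodes]; simp; omega)
    have h0 : ¬ (0 = P.L) := by omega
    simpa [ins, outs, h0] using h
  t := by
    intro i h0 h1
    have h := hx.node (4, k, i) (by rw [mem_nodes]; simp; omega)
    have h2 : i ≠ P.L := by omega
    have h3 : i ≠ 0 := by omega
    simpa [ins, outs, h2, h3, add_assoc] using h
  tL := by
    have hL := hP.L_pos
    have h := hx.node (4, k, P.L) (by rw [mem_nodes]; simp; omega)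
    have h3 : P.L ≠ 0 := by omega
    simpa [ins, outs, h3] using h
  γ0 := fun i hi => hx.nonneg _ (by rw [mem_names]; simp; omega)
  δ0 := fun i hi => hx.nonneg _ (by rw [mem_names]; simp; omega)
  α'0 := fun i hi => hx.nonneg _ (by rw [mem_names]; simp; omega)
  β'0 := fun i hi => hx.nonneg _ (by rw [mem_names]; simp; omega)
  h7 := by
    intro i hi
    have h := hr (7, k, i) (by simp [SL, hk, hi])
    simpa [bv] using h
  h8 := by
    intro i hi
    have h := hr (8, k, i) (by simp [TL, hk, hi])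
    have h1 : P.bv (8, k, i) = P.B - 2 ^ i * P.m k := by simp [bv]
    rw [h1, Nat.cast_sub (hP.pow_lt_B hk hi).le] at h
    push_cast at h
    exact h
  h9 := by
    intro i hi
    have h := hr (9, k, i) (by simp [TL, hk, hi])
    simpa [bv] using h
  h10 := by
    intro i hi
    have h := hr (10, k, i) (by simp [TL, hk]; omega)
    simpa [bv] using h
  h11 := by
    intro i hi
    have h := hr (11, k, i) (by simp [SL, hk]; omega)
    simpa [bv] using h
  hub := by
    intro i hi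
    simp [ub]

theorem Good.nonneg (hP : P.Good)
    (hno : ∀ N : ℤ, 0 ≤ N → N ≤ P.R → ∃ k < P.K, ¬ Adm (P.m k) (P.e k) N)
    {x : Nm → ℝ} (hx : Circ P x) :
    0 ≤ ((names P.K P.L).map fun a => (P.cur a : ℝ) * x a ^ 2).sum := by
  have hM : (0 : ℝ) < P.M0 := by exact_mod_cast hP.M0_pos
  obtain ⟨ω, hω⟩ : ∃ ω, ω = x (13, 0, 0) / P.M0 := ⟨_, rfl⟩
  have hω' : x (13, 0, 0) = P.M0 * ω := by rw [hω]; field_simp
  have hω0 : 0 ≤ ω := by
    rw [hω]
    exact div_nonneg (hx.nonneg _ (by rw [mem_names]; simp)) hM.le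
  obtain ⟨hs0, hr⟩ := hP.rigid_close (fun a => x a - P.bv a * ω)
  set S := ((SL P.K P.L ++ TL P.K P.L).map (P.rt fun a => x a - P.bv a * ω)).sum with hS
  set η := Real.sqrt S with hη
  have hη0 : 0 ≤ η := Real.sqrt_nonneg _
  have hηS : η ^ 2 = S := Real.sq_sqrt hs0
  have hL := hP.L_pos
  -- chains
  have hF := fun k (hk : k < P.K) => hP.flow hx hr hk
  obtain ⟨a, ha⟩ : ∃ a : ℝ, a = (P.K + 1) * (5 * P.L + 5) := ⟨_, rfl⟩
  have hLR : (1 : ℝ) ≤ P.L := by exact_mod_cast hL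
  have hKR : (0 : ℝ) ≤ P.K := Nat.cast_nonneg _
  have ha5 : 5 * (P.L : ℝ) + 5 ≤ a := by rw [ha]; nlinarith
  have ha1 : 1 ≤ a := by linarith
  have ha5η : (5 * (P.L : ℝ) + 5) * η ≤ a * η := mul_le_mul_of_nonneg_right ha5 hη0
  -- the successive main flows
  have hnext : ∀ k ≤ P.K, |x (12, k, 0) - x (12, 0, 0)| ≤ k * ((5 * P.L + 5) * η) := by
    intro k
    induction k with
    | zero => intro _; simp
    | succ k ih =>
      intro hk
      have h1 := abs_le.1 (ih (by omega))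
      have h2 := abs_le.1 ((hF k (by omega)).next hL)
      rw [abs_le]
      push_cast
      constructor <;> nlinarith [h1.1, h1.2, h2.1, h2.2]
  have hNnn : 0 ≤ x (12, 0, 0) := hx.nonneg _ (by rw [mem_names]; simp)
  -- main arcs
  have hm0 := hx.node (5, 0, 0) (by rw [mem_nodes]; simp)
  have hm1 := hx.node (5, 1, 0) (by rw [mem_nodes]; simp)
  simp [ins, outs] at hm0 hm1
  have hr1 := abs_le.1 (hr (13, 1, 0) (by simp [SL]))
  have hr3 := abs_le.1 (hr (13, 3, 0) (by simp [TL]))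
  have hb1 : P.bv (13, 1, 0) = P.B + P.R := by simp [bv]
  have hb3 : P.bv (13, 3, 0) = P.B := by simp [bv]
  simp only [hb1, hb3] at hr1 hr3
  push_cast at hr1 hr3
  have h134 : 0 ≤ x (13, 4, 0) := hx.nonneg _ (by rw [mem_names]; simp)
  have hNR : x (12, 0, 0) ≤ (P.R : ℝ) * ω + 2 * η := by
    linarith [hr1.1, hr1.2, hr3.1, hr3.2]
  have hCN : |x (13, 2, 0) - (P.B * ω + x (12, 0, 0))| ≤ η := by
    rw [abs_le]
    constructor <;> linarith [hr3.1, hr3.2]
  have hG : (P.B : ℝ) = 8 * P.G1 := by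
    have : P.B = 8 * P.G1 := rfl
    rw [this]
    push_cast
    ring
  -- the main inequality
  have key := no_core (K := P.K) (L := P.L) (R := P.R) hP.K_pos (m := fun k => (P.m k : ℤ))
    (e := fun k => (P.e k : ℤ)) (fun k hk => by exact_mod_cast hP.e_pos k hk)
    (fun k hk => by exact_mod_cast hP.e_lt k hk) (fun k hk => by exact_mod_cast hP.R_le k hk)
    hL hno (B := P.B) (H := P.H) (Z := P.Z) (a := a) (Nat.cast_nonneg _) ha1 hω0 hη0 hNnn hNR
    (y := fun k => lev (fun i => x (0, k, i)) (fun i => x (1, k, i)) (fun i => x (5, k, i)))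
    (C := fun k i => x (2, k, i)) (CN := x (13, 2, 0))
    (by
      intro k hk
      have h1 := (hF k hk).ineq0
      have h2 : P.ub k 0 = P.e k := by simp [ub]
      rw [h2] at h1
      push_cast
      linarith)
    (by
      intro k hk i hi
      have h1 := (hF k hk).ineq1 i hi
      linarith)
    (by
      intro k hk i hi
      have h1 := (hF k hk).ineq2 i hi
      rw [pow_succ]
      push_cast
      linarith)
    (by
      intro k hk
      have h1 := (hF k hk).top hL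
      have h2 := hnext k hk.le
      rw [h1]
      refine h2.trans ?_
      rw [ha]
      have h3 : (k : ℝ) ≤ P.K + 1 := by
        have : (k : ℝ) < P.K := by exact_mod_cast hk
        linarith
      have h4 := mul_le_mul_of_nonneg_right h3
        (by positivity : 0 ≤ (5 * (P.L : ℝ) + 5) * η)
      linarith)
    (by
      intro k hk i hi
      exact (hF k hk).cost i hi)
    hCN (SC := P.SC) (cN := P.cN)
    (by
      unfold SC cc c
      push_cast
      rfl)
    (by
      unfold cN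
      push_cast
      rfl)
    (by
      unfold Z
      push_cast
      have h1 : (0 : ℝ) ≤ P.cN := Nat.cast_nonneg _
      have h2 : (0 : ℝ) ≤ P.SC := Nat.cast_nonneg _
      have h3 : (0 : ℝ) ≤ 16 * (3 * ((P.K + 1) * (5 * P.L + 5)) * P.cN + P.SC + P.cN) := by
        positivity
      linarith)
    (by
      unfold Z
      push_cast
      rw [ha]
      linarith)
    (by
      have h1 : (P.H : ℝ) = ((P.SC + P.cN) * P.B ^ 2 + 2 * P.G1) * P.Z ^ 2 +
          2 * P.B * P.K * (P.R * P.Z + 2) ^ 2 := by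
        have : P.H = ((P.SC + P.cN) * P.B ^ 2 + 2 * P.G1) * P.Z ^ 2 +
          2 * P.B * P.K * (P.R * P.Z + 2) ^ 2 := rfl
        rw [this]
        push_cast
        ring
      rw [h1, hG]
      have h2 : 8 * (P.G1 : ℝ) / 4 = 2 * P.G1 := by ring
      rw [h2])
  rw [hP.total, hP.rig_sum hx hω', ← hS, hω', hP.q0_cast]
  have hcc : ∑ k ∈ range P.K, ∑ i ∈ range P.L, (P.c k i : ℝ) * x (2, k, i) ^ 2 =
      ∑ k ∈ range P.K, ∑ i ∈ range P.L, cc ((P.m k : ℤ) : ℝ) i * x (2, k, i) ^ 2 := by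
    refine sum_congr rfl fun k _ => sum_congr rfl fun i _ => ?_
    unfold cc c
    push_cast
    rfl
  rw [hcc]
  rw [hηS] at key
  have hG4 : (P.B : ℝ) / 4 = 2 * P.G1 := by rw [hG]; ring
  rw [hG4] at key
  simp only [Int.cast_natCast] at key ⊢
  have hM2 : 0 ≤ (P.M0 : ℝ) ^ 2 := sq_nonneg _
  have := mul_nonneg hM2 key
  nlinarith

end Par

end Pool.Agent.Helper45.SQP
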