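import Pool.Agent.Helper45.SQP.InstCode
import Pool.Agent.Helper73.SubsetSum

/-!
# From satisfiability to the weights
-/

namespace Pool.Agent.Helper45.SQP

open Finset Pool.Agent.Bin Pool.Agent.Helper81.CC Pool.Agent.Helper73.SS

theorem bval_eq (l : List Bool) : Pool.Agent.Bin.bval l = Pool.Agent.Helper73.SS.bval l := by
  induction l with
  | nil => rfl
  | cons b l ih => simp [Pool.Agent.Helper73.SS.bval, ih]

theorem wt_pos (φ : CNF) {i : ℕ × ℕ × ℕ} (hi : i ∈ idx φ) : 0 < wt φ i := by
  rw [wt_eq]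
  have key : ∀ p < nv φ + φ.length, 0 < dig φ i p →
      0 < ∑ p ∈ Finset.range (nv φ + φ.length), (2 ^ wd φ) ^ p * dig φ i p := by
    intro p hp h
    refine Finset.sum_pos' (fun _ _ => Nat.zero_le _) ⟨p, Finset.mem_range.2 hp, ?_⟩
    positivity
  rcases mem_idx.1 hi with ⟨x, hx, rfl⟩ | ⟨x, hx1, hx2, rfl⟩
  · refine key x.2 (by omega) ?_
    rw [dig_lit, if_pos (Or.inl rfl)]
    exact Nat.one_pos
  · refine key (nv φ + x.1) (by omega) ?_
    rw [dig_slk φ x hx2, if_pos rfl]
    positivity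

/-- The weights of the items of a formula, followed by two more weights. -/
def wsOf (φ : CNF) : List BN :=
  ((idx φ).map fun i => BN.ofBits (itemNum φ i)) ++
    [BN.ofNat 2 * BN.ofBits (tgtNum φ) + BN.ofNat 1,
      BN.sum ((idx φ).map fun i => BN.ofBits (itemNum φ i)) + BN.ofNat 1]

theorem PT_wsOf : PolyTime wsOf := by
  have h1 := polyTime_idx
  have h2 := polyTime_itemNum
  have h3 := polyTime_tgtNum
  unfold wsOf
  fun_prop

/-- PARTITION and SUBSET SUM. -/
theorem signs_iff (n : ℕ) (a w : ℕ → ℕ) (t : ℕ) (hw : ∀ k < n, w k = a k)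
    (h0 : w n = 2 * t + 1) (h1 : w (n + 1) = ∑ k ∈ range n, a k + 1) :
    (∃ σ : ℕ → ℤ, (∀ k, σ k = 1 ∨ σ k = -1) ∧ ∑ k ∈ range (n + 2), σ k * w k = 0) ↔
      ∃ J ⊆ range n, ∑ j ∈ J, a j = t := by
  constructor
  · rintro ⟨σ, hσ, hs⟩
    -- we may assume that the last sign is positive
    obtain ⟨τ, hτ, hlast, hs⟩ : ∃ τ : ℕ → ℤ, (∀ k, τ k = 1 ∨ τ k = -1) ∧ τ (n + 1) = 1 ∧
        ∑ k ∈ range (n + 2), τ k * w k = 0 := by
      rcases hσ (n + 1) with h | h
      · exact ⟨σ, hσ, h, hs⟩
      · refine ⟨fun k => -σ k, fun k => ?_, ?_, ?_⟩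
        · rcases hσ k with h' | h' <;> simp [h']
        · simp [h]
        · have h5 : ∑ k ∈ range (n + 2), -σ k * (w k : ℤ) =
              -∑ k ∈ range (n + 2), σ k * (w k : ℤ) := by
            rw [← sum_neg_distrib]
            exact sum_congr rfl fun k _ => by ring
          rw [h5, hs, neg_zero]
    rw [sum_range_succ, sum_range_succ, hlast, h0, h1] at hs
    have h2 : ∑ k ∈ range n, τ k * (w k : ℤ) = ∑ k ∈ range n, τ k * (a k : ℤ) :=
      sum_congr rfl fun k hk => by rw [hw k (mem_range.1 hk)]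
    rw [h2] at hs
    have h3 : -∑ k ∈ range n, (a k : ℤ) ≤ ∑ k ∈ range n, τ k * (a k : ℤ) := by
      rw [← sum_neg_distrib]
      refine sum_le_sum fun k _ => ?_
      have : (0 : ℤ) ≤ a k := Int.natCast_nonneg _
      rcases hτ k with h | h <;> rw [h] <;> linarith
    push_cast at hs
    have h4 : τ n = -1 := by
      rcases hτ n with h | h
      · rw [h] at hs
        have : (0 : ℤ) ≤ t := Int.natCast_nonneg _
        linarith
      · exact h
    rw [h4] at hs
    refine ⟨(range n).filter fun k => τ k = 1, filter_subset _ _, ?_⟩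
    have h5 : ∑ k ∈ range n, τ k * (a k : ℤ) + ∑ k ∈ range n, (a k : ℤ) =
        2 * ∑ k ∈ (range n).filter (fun k => τ k = 1), (a k : ℤ) := by
      rw [sum_filter, mul_sum, ← sum_add_distrib]
      refine sum_congr rfl fun k _ => ?_
      rcases hτ k with h | h
      · rw [h]; simp; ring
      · rw [h]; norm_num
    have h6 : (∑ k ∈ (range n).filter (fun k => τ k = 1), (a k : ℤ)) = t := by linarith
    exact_mod_cast h6
  · rintro ⟨J, hJ, hs⟩
    refine ⟨fun k => if k = n then -1 else if k = n + 1 then 1 else if k ∈ J then 1 else -1,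
      fun k => ?_, ?_⟩
    · dsimp only
      split_ifs <;> simp
    · rw [sum_range_succ, sum_range_succ, h0, h1]
      have h2 : ∑ k ∈ range n, (if k = n then (-1 : ℤ) else if k = n + 1 then 1
          else if k ∈ J then 1 else -1) * (w k : ℤ) =
          ∑ k ∈ range n, ((if k ∈ J then 2 * (a k : ℤ) else 0) - (a k : ℤ)) := by
        refine sum_congr rfl fun k hk => ?_
        have hk' := mem_range.1 hk
        rw [if_neg (by omega), if_neg (by omega), hw k hk']
        split_ifs <;> ring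
      rw [h2, sum_sub_distrib, ← sum_filter, filter_mem_eq_inter,
        inter_eq_right.2 hJ, ← mul_sum]
      have h3 : (∑ k ∈ J, (a k : ℤ)) = t := by exact_mod_cast hs
      rw [h3]
      simp
      ring

theorem wsOf_length (φ : CNF) : (wsOf φ).length = (idx φ).length + 2 := by
  simp [wsOf]

theorem wsOf_pos (φ : CNF) : ∀ w ∈ wsOf φ, 0 < w.val := by
  intro w hw
  simp only [wsOf, List.mem_append, List.mem_map, List.mem_cons, List.not_mem_nil,
    or_false] at hw
  rcases hw with ⟨i, hi, rfl⟩ | rfl | rfl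
  · rw [BN.val_ofBits, bval_eq]
    exact wt_pos φ hi
  · rw [BN.val_add, BN.val_ofNat]
    omega
  · rw [BN.val_add, BN.val_ofNat]
    omega

theorem wsOf_good (φ : CNF) : (parOf (wsOf φ)).Good :=
  parOf_good (by rw [wsOf_length]; omega) (wsOf_pos φ)

theorem wsOf_signs (φ : CNF) : (∃ σ : ℕ → ℤ, (∀ k, σ k = 1 ∨ σ k = -1) ∧
    ∑ k ∈ range (wsOf φ).length, σ k * wW (wsOf φ) k = 0) ↔ φ.Satisfiable := by
  set n := (idx φ).length with hn
  set a : ℕ → ℕ := fun k => if h : k < n then wt φ ((idx φ).get ⟨k, h⟩) else 0 with ha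
  have hlen : ((idx φ).map fun i => BN.ofBits (itemNum φ i)).length = n := by
    rw [List.length_map]
  have hw : ∀ k < n, wW (wsOf φ) k = a k := by
    intro k hk
    have h1 : k < ((idx φ).map fun i => BN.ofBits (itemNum φ i)).length := by rw [hlen]; exact hk
    simp only [wW, ha]
    unfold wsOf
    rw [List.getD_append _ _ _ _ h1, List.getD_eq_getElem _ _ h1, List.getElem_map, dif_pos hk,
      BN.val_ofBits, bval_eq]
    rfl
  have h0 : wW (wsOf φ) n = 2 * tgt φ + 1 := by
    simp only [wW]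
    unfold wsOf
    rw [List.getD_append_right _ _ _ _ hlen.le, hlen, Nat.sub_self, List.getD_cons_zero,
      BN.val_add, BN.val_mul, BN.val_ofNat, BN.val_ofNat, BN.val_ofBits, bval_eq]
    rfl
  have hsum : (((idx φ).map fun i => BN.ofBits (itemNum φ i)).map BN.val).sum =
      ∑ k ∈ range n, a k := by
    rw [List.map_map]
    have h2 : (BN.val ∘ fun i => BN.ofBits (itemNum φ i)) = wt φ := by
      funext i
      simp only [Function.comp_apply, BN.val_ofBits, bval_eq]
      rfl
    rw [h2, ← ofFn_get_map (idx φ) (wt φ), List.sum_ofFn, Finset.sum_range]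
    refine sum_congr rfl fun j _ => ?_
    simp only [ha]
    rw [dif_pos j.2]
  have h1 : wW (wsOf φ) (n + 1) = ∑ k ∈ range n, a k + 1 := by
    simp only [wW]
    unfold wsOf
    rw [List.getD_append_right _ _ _ _ (by rw [hlen]; omega), hlen, Nat.add_sub_cancel_left,
      List.getD_cons_succ, List.getD_cons_zero, BN.val_add, BN.val_sum, BN.val_ofNat, hsum]
  rw [wsOf_length, signs_iff n a _ (tgt φ) hw h0 h1, ← subset_sum_iff]
  constructor
  · rintro ⟨J, hJ, hs⟩
    refine ⟨univ.filter fun j : Fin (idx φ).length => (j : ℕ) ∈ J, ?_⟩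
    rw [← hs, sum_filter]
    have h2 : ∑ k ∈ J, a k = ∑ k ∈ range n, if k ∈ J then a k else 0 := by
      rw [← sum_filter, filter_mem_eq_inter, inter_eq_right.2 hJ]
    rw [h2, Finset.sum_range]
    refine sum_congr rfl fun j _ => ?_
    simp only [ha]
    rw [dif_pos j.2]
  · rintro ⟨J, hJ⟩
    refine ⟨J.image fun j : Fin (idx φ).length => (j : ℕ), ?_, ?_⟩
    · intro k hk
      rw [mem_image] at hk
      obtain ⟨j, _, rfl⟩ := hk
      exact mem_range.2 j.2
    · rw [sum_image (fun a _ b _ h => Fin.ext h), ← hJ]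
      refine sum_congr rfl fun j _ => ?_
      simp only [ha]
      rw [dif_pos j.2]

end Pool.Agent.Helper45.SQP
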