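import Mathlib

/-!
# Total unimodularity of incidence matrices
-/

namespace Pool.Agent.Helper45.SQP

open Matrix

theorem isTU_of_incidence {m n : Type*} (A : Matrix m n ℤ)
    (h : ∀ i j, A i j = 0 ∨ A i j = 1 ∨ A i j = -1)
    (hp : ∀ j i i', A i j = 1 → A i' j = 1 → i = i')
    (hn : ∀ j i i', A i j = -1 → A i' j = -1 → i = i') : A.IsTotallyUnimodular := by
  intro k
  induction k with
  | zero =>
    intro f g _ _
    exact ⟨1, by simp⟩
  | succ k ih =>
    intro f g hf hg
    by_cases hc : ∃ j i0, ∀ i, i ≠ i0 → A (f i) (g j) = 0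
    · obtain ⟨j, i0, hi0⟩ := hc
      rw [Matrix.det_succ_column _ j, Fintype.sum_eq_single i0]
      · change _ ∈ MonoidHom.mrange SignType.castHom.toMonoidHom
        refine mul_mem (mul_mem ?_ ?_) ?_
        · apply pow_mem
          exact ⟨-1, by simp⟩
        · rw [submatrix_apply]
          rcases h (f i0) (g j) with h1 | h1 | h1 <;> rw [h1]
          · exact ⟨0, by simp⟩
          · exact ⟨1, by simp⟩
          · exact ⟨-1, by simp⟩
        · rw [submatrix_submatrix]
          exact ih _ _ (hf.comp Fin.succAbove_right_injective)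
            (hg.comp Fin.succAbove_right_injective)
      · intro i hi
        rw [submatrix_apply, hi0 i hi]
        ring
    · push Not at hc
      have hsum : ∀ j, ∑ i, A (f i) (g j) = 0 := by
        intro j
        obtain ⟨i1, -, h1⟩ := hc j 0
        obtain ⟨i2, h12, h2⟩ := hc j i1
        have key : ∀ i1 i2, i2 ≠ i1 → A (f i1) (g j) = 1 → A (f i2) (g j) ≠ 0 →
            ∑ i, A (f i) (g j) = 0 := by
          intro i1 i2 h12 h1 h2
          have h2' : A (f i2) (g j) = -1 := by
            rcases h (f i2) (g j) with h3 | h3 | h3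
            · exact absurd h3 h2
            · exact absurd (hf (hp _ _ _ h3 h1)) h12
            · exact h3
          rw [Fintype.sum_eq_add i1 i2 h12.symm, h1, h2']
          · norm_num
          · rintro i ⟨hi1, hi2⟩
            rcases h (f i) (g j) with h3 | h3 | h3
            · exact h3
            · exact absurd (hf (hp _ _ _ h3 h1)) hi1
            · exact absurd (hf (hn _ _ _ h3 h2')) hi2
        rcases h (f i1) (g j) with h3 | h3 | h3
        · exact absurd h3 h1
        · exact key i1 i2 h12 h3 h2
        · rcases h (f i2) (g j) with h4 | h4 | h4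
          · exact absurd h4 h2
          · exact key i2 i1 h12.symm h4 h1
          · exact absurd (hf (hn _ _ _ h4 h3)) h12
      have hdet : (A.submatrix f g).det = 0 := by
        rw [← Matrix.exists_vecMul_eq_zero_iff]
        refine ⟨fun _ => 1, ?_, ?_⟩
        · intro h0
          have := congrFun h0 0
          simp at this
        · ext j
          simp only [vecMul, dotProduct, submatrix_apply, one_mul, Pi.zero_apply]
          exact hsum j
      rw [hdet]
      exact ⟨0, by simp⟩

/-- Rows may be repeated and negated. -/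
theorem isTU_signed {m m' n : Type*} {B : Matrix m n ℤ} (hB : B.IsTotallyUnimodular)
    (W : Matrix m' n ℤ) (ρ : m' → m) (s : m' → ℤ) (hs : ∀ i, s i = 1 ∨ s i = -1)
    (hW : ∀ i j, W i j = s i * B (ρ i) j) : W.IsTotallyUnimodular := by
  intro k f g _ _
  have e : W.submatrix f g = Matrix.of fun i j => s (f i) * (B.submatrix (ρ ∘ f) g) i j := by
    ext i j
    simp [hW]
  rw [e, Matrix.det_mul_column]
  change _ ∈ MonoidHom.mrange SignType.castHom.toMonoidHom
  refine mul_mem (Submonoid.prod_mem _ fun i _ => ?_) ?_
  · rcases hs (f i) with h1 | h1 <;> rw [h1]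
    · exact ⟨1, by simp⟩
    · exact ⟨-1, by simp⟩
  · exact (isTotallyUnimodular_iff B).1 hB k _ _

end Pool.Agent.Helper45.SQP
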